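import Pool.Agent.H50.Book.Data

set_option autoImplicit false

namespace Pool.Agent.H50.Book

theorem chunk00_00 : chkRange T 0 20 = true := by decide +kernel

theorem chunk00_01 : chkRange T 20 20 = true := by decide +kernel

theorem chunk00_02 : chkRange T 40 20 = true := by decide +kernel

theorem chunk00_03 : chkRange T 60 20 = true := by decide +kernel

theorem chunk00_04 : chkRange T 80 20 = true := by decide +kernel

theorem chunk00_05 : chkRange T 100 20 = true := by decide +kernel

theorem chunk00_06 : chkRange T 120 20 = true := by decide +kernel

theorem chunk00_07 : chkRange T 140 20 = true := by decide +kernel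

theorem chunk00_08 : chkRange T 160 20 = true := by decide +kernel

theorem chunk00_09 : chkRange T 180 20 = true := by decide +kernel

end Pool.Agent.H50.Book
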