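import Pool.Agent.H50.Book.Data

set_option autoImplicit false

namespace Pool.Agent.H50.Book

theorem chunk01_00 : chkRange T 200 20 = true := by decide +kernel

theorem chunk01_01 : chkRange T 220 20 = true := by decide +kernel

theorem chunk01_02 : chkRange T 240 20 = true := by decide +kernel

theorem chunk01_03 : chkRange T 260 20 = true := by decide +kernel

theorem chunk01_04 : chkRange T 280 20 = true := by decide +kernel

theorem chunk01_05 : chkRange T 300 20 = true := by decide +kernel

theorem chunk01_06 : chkRange T 320 20 = true := by decide +kernel

theorem chunk01_07 : chkRange T 340 20 = true := by decide +kernel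

theorem chunk01_08 : chkRange T 360 20 = true := by decide +kernel

theorem chunk01_09 : chkRange T 380 20 = true := by decide +kernel

end Pool.Agent.H50.Book
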