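import Pool.Agent.H50.Book.Data

set_option autoImplicit false

namespace Pool.Agent.H50.Book

theorem chunk02_00 : chkRange T 400 20 = true := by decide +kernel

theorem chunk02_01 : chkRange T 420 20 = true := by decide +kernel

theorem chunk02_02 : chkRange T 440 20 = true := by decide +kernel

theorem chunk02_03 : chkRange T 460 20 = true := by decide +kernel

theorem chunk02_04 : chkRange T 480 20 = true := by decide +kernel

theorem chunk02_05 : chkRange T 500 20 = true := by decide +kernel

theorem chunk02_06 : chkRange T 520 20 = true := by decide +kernel

theorem chunk02_07 : chkRange T 540 20 = true := by decide +kernel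

theorem chunk02_08 : chkRange T 560 20 = true := by decide +kernel

theorem chunk02_09 : chkRange T 580 20 = true := by decide +kernel

end Pool.Agent.H50.Book
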