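import Pool.Agent.H50.Book.Data

set_option autoImplicit false

namespace Pool.Agent.H50.Book

theorem chunk03_00 : chkRange T 600 20 = true := by decide +kernel

theorem chunk03_01 : chkRange T 620 20 = true := by decide +kernel

theorem chunk03_02 : chkRange T 640 20 = true := by decide +kernel

theorem chunk03_03 : chkRange T 660 20 = true := by decide +kernel

theorem chunk03_04 : chkRange T 680 20 = true := by decide +kernel

theorem chunk03_05 : chkRange T 700 20 = true := by decide +kernel

theorem chunk03_06 : chkRange T 720 20 = true := by decide +kernel

theorem chunk03_07 : chkRange T 740 20 = true := by decide +kernel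

theorem chunk03_08 : chkRange T 760 20 = true := by decide +kernel

theorem chunk03_09 : chkRange T 780 20 = true := by decide +kernel

end Pool.Agent.H50.Book
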