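import Pool.Agent.H50.Book.Data

set_option autoImplicit false

namespace Pool.Agent.H50.Book

theorem chunk04_00 : chkRange T 800 20 = true := by decide +kernel

theorem chunk04_01 : chkRange T 820 20 = true := by decide +kernel

theorem chunk04_02 : chkRange T 840 20 = true := by decide +kernel

theorem chunk04_03 : chkRange T 860 20 = true := by decide +kernel

theorem chunk04_04 : chkRange T 880 20 = true := by decide +kernel

theorem chunk04_05 : chkRange T 900 20 = true := by decide +kernel

theorem chunk04_06 : chkRange T 920 20 = true := by decide +kernel

theorem chunk04_07 : chkRange T 940 20 = true := by decide +kernel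

theorem chunk04_08 : chkRange T 960 20 = true := by decide +kernel

theorem chunk04_09 : chkRange T 980 20 = true := by decide +kernel

end Pool.Agent.H50.Book
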