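import Pool.Agent.H50.Book.Data

set_option autoImplicit false

namespace Pool.Agent.H50.Book

theorem chunk05_00 : chkRange T 1000 20 = true := by decide +kernel

theorem chunk05_01 : chkRange T 1020 20 = true := by decide +kernel

theorem chunk05_02 : chkRange T 1040 20 = true := by decide +kernel

theorem chunk05_03 : chkRange T 1060 20 = true := by decide +kernel

theorem chunk05_04 : chkRange T 1080 20 = true := by decide +kernel

theorem chunk05_05 : chkRange T 1100 20 = true := by decide +kernel

theorem chunk05_06 : chkRange T 1120 20 = true := by decide +kernel

theorem chunk05_07 : chkRange T 1140 20 = true := by decide +kernel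

theorem chunk05_08 : chkRange T 1160 20 = true := by decide +kernel

theorem chunk05_09 : chkRange T 1180 20 = true := by decide +kernel

end Pool.Agent.H50.Book
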