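import Pool.Agent.H50.Book.Data

set_option autoImplicit false

namespace Pool.Agent.H50.Book

theorem chunk06_00 : chkRange T 1200 20 = true := by decide +kernel

theorem chunk06_01 : chkRange T 1220 20 = true := by decide +kernel

theorem chunk06_02 : chkRange T 1240 20 = true := by decide +kernel

theorem chunk06_03 : chkRange T 1260 20 = true := by decide +kernel

theorem chunk06_04 : chkRange T 1280 20 = true := by decide +kernel

theorem chunk06_05 : chkRange T 1300 20 = true := by decide +kernel

theorem chunk06_06 : chkRange T 1320 20 = true := by decide +kernel

theorem chunk06_07 : chkRange T 1340 20 = true := by decide +kernel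

theorem chunk06_08 : chkRange T 1360 20 = true := by decide +kernel

theorem chunk06_09 : chkRange T 1380 20 = true := by decide +kernel

end Pool.Agent.H50.Book
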