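import Pool.Agent.H50.Book.Data

set_option autoImplicit false

namespace Pool.Agent.H50.Book

theorem chunk07_00 : chkRange T 1400 20 = true := by decide +kernel

theorem chunk07_01 : chkRange T 1420 20 = true := by decide +kernel

theorem chunk07_02 : chkRange T 1440 20 = true := by decide +kernel

theorem chunk07_03 : chkRange T 1460 20 = true := by decide +kernel

theorem chunk07_04 : chkRange T 1480 20 = true := by decide +kernel

theorem chunk07_05 : chkRange T 1500 20 = true := by decide +kernel

theorem chunk07_06 : chkRange T 1520 20 = true := by decide +kernel

theorem chunk07_07 : chkRange T 1540 20 = true := by decide +kernel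

theorem chunk07_08 : chkRange T 1560 20 = true := by decide +kernel

theorem chunk07_09 : chkRange T 1580 20 = true := by decide +kernel

end Pool.Agent.H50.Book
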