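import Pool.Agent.H50.Book.Data

set_option autoImplicit false

namespace Pool.Agent.H50.Book

theorem chunk08_00 : chkRange T 1600 20 = true := by decide +kernel

theorem chunk08_01 : chkRange T 1620 20 = true := by decide +kernel

theorem chunk08_02 : chkRange T 1640 20 = true := by decide +kernel

theorem chunk08_03 : chkRange T 1660 20 = true := by decide +kernel

theorem chunk08_04 : chkRange T 1680 20 = true := by decide +kernel

theorem chunk08_05 : chkRange T 1700 20 = true := by decide +kernel

theorem chunk08_06 : chkRange T 1720 20 = true := by decide +kernel

theorem chunk08_07 : chkRange T 1740 20 = true := by decide +kernel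

theorem chunk08_08 : chkRange T 1760 20 = true := by decide +kernel

theorem chunk08_09 : chkRange T 1780 20 = true := by decide +kernel

end Pool.Agent.H50.Book
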