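import Pool.Agent.H50.Book.Data

set_option autoImplicit false

namespace Pool.Agent.H50.Book

theorem chunk09_00 : chkRange T 1800 20 = true := by decide +kernel

theorem chunk09_01 : chkRange T 1820 20 = true := by decide +kernel

theorem chunk09_02 : chkRange T 1840 20 = true := by decide +kernel

theorem chunk09_03 : chkRange T 1860 20 = true := by decide +kernel

theorem chunk09_04 : chkRange T 1880 20 = true := by decide +kernel

theorem chunk09_05 : chkRange T 1900 20 = true := by decide +kernel

theorem chunk09_06 : chkRange T 1920 20 = true := by decide +kernel

theorem chunk09_07 : chkRange T 1940 20 = true := by decide +kernel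

theorem chunk09_08 : chkRange T 1960 20 = true := by decide +kernel

theorem chunk09_09 : chkRange T 1980 20 = true := by decide +kernel

end Pool.Agent.H50.Book
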