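import Pool.Agent.H50.Book.Data

set_option autoImplicit false

namespace Pool.Agent.H50.Book

theorem chunk10_00 : chkRange T 2000 20 = true := by decide +kernel

theorem chunk10_01 : chkRange T 2020 20 = true := by decide +kernel

theorem chunk10_02 : chkRange T 2040 20 = true := by decide +kernel

theorem chunk10_03 : chkRange T 2060 20 = true := by decide +kernel

theorem chunk10_04 : chkRange T 2080 20 = true := by decide +kernel

theorem chunk10_05 : chkRange T 2100 20 = true := by decide +kernel

theorem chunk10_06 : chkRange T 2120 20 = true := by decide +kernel

theorem chunk10_07 : chkRange T 2140 20 = true := by decide +kernel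

theorem chunk10_08 : chkRange T 2160 20 = true := by decide +kernel

theorem chunk10_09 : chkRange T 2180 20 = true := by decide +kernel

end Pool.Agent.H50.Book
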