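import Pool.Agent.H50.Book.Data

set_option autoImplicit false

namespace Pool.Agent.H50.Book

theorem chunk11_00 : chkRange T 2200 20 = true := by decide +kernel

theorem chunk11_01 : chkRange T 2220 20 = true := by decide +kernel

theorem chunk11_02 : chkRange T 2240 20 = true := by decide +kernel

theorem chunk11_03 : chkRange T 2260 20 = true := by decide +kernel

theorem chunk11_04 : chkRange T 2280 20 = true := by decide +kernel

theorem chunk11_05 : chkRange T 2300 20 = true := by decide +kernel

theorem chunk11_06 : chkRange T 2320 20 = true := by decide +kernel

theorem chunk11_07 : chkRange T 2340 20 = true := by decide +kernel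

theorem chunk11_08 : chkRange T 2360 20 = true := by decide +kernel

theorem chunk11_09 : chkRange T 2380 20 = true := by decide +kernel

end Pool.Agent.H50.Book
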