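import Pool.Agent.H50.Book.Data

set_option autoImplicit false

namespace Pool.Agent.H50.Book

theorem chunk12_00 : chkRange T 2400 20 = true := by decide +kernel

theorem chunk12_01 : chkRange T 2420 20 = true := by decide +kernel

theorem chunk12_02 : chkRange T 2440 20 = true := by decide +kernel

theorem chunk12_03 : chkRange T 2460 20 = true := by decide +kernel

theorem chunk12_04 : chkRange T 2480 20 = true := by decide +kernel

theorem chunk12_05 : chkRange T 2500 20 = true := by decide +kernel

theorem chunk12_06 : chkRange T 2520 20 = true := by decide +kernel

theorem chunk12_07 : chkRange T 2540 20 = true := by decide +kernel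

theorem chunk12_08 : chkRange T 2560 20 = true := by decide +kernel

theorem chunk12_09 : chkRange T 2580 20 = true := by decide +kernel

end Pool.Agent.H50.Book
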