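import Pool.Agent.H50.Book.Data

set_option autoImplicit false

namespace Pool.Agent.H50.Book

theorem chunk13_00 : chkRange T 2600 20 = true := by decide +kernel

theorem chunk13_01 : chkRange T 2620 20 = true := by decide +kernel

theorem chunk13_02 : chkRange T 2640 20 = true := by decide +kernel

theorem chunk13_03 : chkRange T 2660 20 = true := by decide +kernel

theorem chunk13_04 : chkRange T 2680 20 = true := by decide +kernel

theorem chunk13_05 : chkRange T 2700 20 = true := by decide +kernel

theorem chunk13_06 : chkRange T 2720 20 = true := by decide +kernel

theorem chunk13_07 : chkRange T 2740 20 = true := by decide +kernel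

theorem chunk13_08 : chkRange T 2760 20 = true := by decide +kernel

theorem chunk13_09 : chkRange T 2780 20 = true := by decide +kernel

end Pool.Agent.H50.Book
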