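import Pool.Agent.H50.Book.Data

set_option autoImplicit false

namespace Pool.Agent.H50.Book

theorem chunk15_00 : chkRange T 3000 20 = true := by decide +kernel

theorem chunk15_01 : chkRange T 3020 20 = true := by decide +kernel

theorem chunk15_02 : chkRange T 3040 20 = true := by decide +kernel

theorem chunk15_03 : chkRange T 3060 20 = true := by decide +kernel

theorem chunk15_04 : chkRange T 3080 20 = true := by decide +kernel

theorem chunk15_05 : chkRange T 3100 20 = true := by decide +kernel

theorem chunk15_06 : chkRange T 3120 20 = true := by decide +kernel

theorem chunk15_07 : chkRange T 3140 20 = true := by decide +kernel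

theorem chunk15_08 : chkRange T 3160 20 = true := by decide +kernel

theorem chunk15_09 : chkRange T 3180 20 = true := by decide +kernel

end Pool.Agent.H50.Book
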