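import Pool.Agent.H50.Book.Data

set_option autoImplicit false

namespace Pool.Agent.H50.Book

theorem chunk16_00 : chkRange T 3200 20 = true := by decide +kernel

theorem chunk16_01 : chkRange T 3220 20 = true := by decide +kernel

theorem chunk16_02 : chkRange T 3240 20 = true := by decide +kernel

theorem chunk16_03 : chkRange T 3260 20 = true := by decide +kernel

theorem chunk16_04 : chkRange T 3280 20 = true := by decide +kernel

theorem chunk16_05 : chkRange T 3300 20 = true := by decide +kernel

theorem chunk16_06 : chkRange T 3320 20 = true := by decide +kernel

theorem chunk16_07 : chkRange T 3340 20 = true := by decide +kernel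

theorem chunk16_08 : chkRange T 3360 20 = true := by decide +kernel

theorem chunk16_09 : chkRange T 3380 20 = true := by decide +kernel

end Pool.Agent.H50.Book
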