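import Pool.Agent.H50.Book.Data

set_option autoImplicit false

namespace Pool.Agent.H50.Book

theorem chunk17_00 : chkRange T 3400 20 = true := by decide +kernel

theorem chunk17_01 : chkRange T 3420 20 = true := by decide +kernel

theorem chunk17_02 : chkRange T 3440 20 = true := by decide +kernel

theorem chunk17_03 : chkRange T 3460 20 = true := by decide +kernel

theorem chunk17_04 : chkRange T 3480 20 = true := by decide +kernel

theorem chunk17_05 : chkRange T 3500 20 = true := by decide +kernel

theorem chunk17_06 : chkRange T 3520 20 = true := by decide +kernel

theorem chunk17_07 : chkRange T 3540 20 = true := by decide +kernel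

theorem chunk17_08 : chkRange T 3560 20 = true := by decide +kernel

theorem chunk17_09 : chkRange T 3580 20 = true := by decide +kernel

end Pool.Agent.H50.Book
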