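import Pool.Agent.H50.Book.Data

set_option autoImplicit false

namespace Pool.Agent.H50.Book

theorem chunk18_00 : chkRange T 3600 20 = true := by decide +kernel

theorem chunk18_01 : chkRange T 3620 18 = true := by decide +kernel

end Pool.Agent.H50.Book
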