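import Pool.Agent.H50.Book.Game

set_option autoImplicit false

namespace Pool.Agent.H50.Book

open Classical in
/-- the defender's reply to the attacker's move `e` -/
noncomputable def reply (R B : Finset (Sym2 ℕ)) (e : Sym2 ℕ) : Sym2 ℕ :=
  if h : Safe R B ∧ Ok R B e then
    Classical.choose ((safe_iff R B).1 h.1 e h.2).2
  else Classical.choose (exists_ok (insert e R) B)

theorem reply_ok (R B : Finset (Sym2 ℕ)) (e : Sym2 ℕ) : Ok (insert e R) B (reply R B e) := by
  unfold reply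
  split_ifs with h
  · exact (Classical.choose_spec ((safe_iff R B).1 h.1 e h.2).2).1
  · exact Classical.choose_spec (exists_ok (insert e R) B)

theorem reply_safe (R B : Finset (Sym2 ℕ)) (e : Sym2 ℕ) (h : Safe R B) (he : Ok R B e) :
    HasBook (↑(insert (reply R B e) B) : Set (Sym2 ℕ)) ∨
      Safe (insert e R) (insert (reply R B e) B) := by
  unfold reply
  rw [dif_pos ⟨h, he⟩]
  exact (Classical.choose_spec ((safe_iff R B).1 h e he).2).2

/-- state after `n` rounds: the list of moves, attacker's edges, defender's edges -/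
structure St where
  l : List (Sym2 ℕ)
  R : Finset (Sym2 ℕ)
  B : Finset (Sym2 ℕ)

noncomputable def st (α : List (Sym2 ℕ) → Sym2 ℕ) (s0 : St) : ℕ → St
  | 0 => s0
  | n + 1 =>
    let s := st α s0 n
    { l := s.l ++ [α s.l, reply s.R s.B (α s.l)]
      R := insert (α s.l) s.R
      B := insert (reply s.R s.B (α s.l)) s.B }

noncomputable def att (α : List (Sym2 ℕ) → Sym2 ℕ) (s0 : St) (n : ℕ) : Sym2 ℕ := α (st α s0 n).l

noncomputable def def' (α : List (Sym2 ℕ) → Sym2 ℕ) (s0 : St) (n : ℕ) : Sym2 ℕ :=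
  reply (st α s0 n).R (st α s0 n).B (att α s0 n)

theorem st_R_succ (α : List (Sym2 ℕ) → Sym2 ℕ) (s0 : St) (n : ℕ) :
    (st α s0 (n + 1)).R = insert (att α s0 n) (st α s0 n).R := rfl

theorem st_B_succ (α : List (Sym2 ℕ) → Sym2 ℕ) (s0 : St) (n : ℕ) :
    (st α s0 (n + 1)).B = insert (def' α s0 n) (st α s0 n).B := rfl

theorem st_l_succ (α : List (Sym2 ℕ) → Sym2 ℕ) (s0 : St) (n : ℕ) :
    (st α s0 (n + 1)).l = (st α s0 n).l ++ [att α s0 n, def' α s0 n] := rfl

theorem mem_st_R (α : List (Sym2 ℕ) → Sym2 ℕ) (s0 : St) (n : ℕ) (e : Sym2 ℕ) :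
    e ∈ (st α s0 n).R ↔ e ∈ s0.R ∨ ∃ i < n, att α s0 i = e := by
  induction n with
  | zero => simp [st]
  | succ n ih =>
    rw [st_R_succ, Finset.mem_insert, ih]
    constructor
    · rintro (rfl | h | ⟨i, hi, h⟩)
      · exact Or.inr ⟨n, by omega, rfl⟩
      · exact Or.inl h
      · exact Or.inr ⟨i, by omega, h⟩
    · rintro (h | ⟨i, hi, h⟩)
      · exact Or.inr (Or.inl h)
      · rcases Nat.lt_succ_iff_lt_or_eq.1 hi with h2 | rfl
        · exact Or.inr (Or.inr ⟨i, h2, h⟩)
        · exact Or.inl h.symm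

theorem mem_st_B (α : List (Sym2 ℕ) → Sym2 ℕ) (s0 : St) (n : ℕ) (e : Sym2 ℕ) :
    e ∈ (st α s0 n).B ↔ e ∈ s0.B ∨ ∃ i < n, def' α s0 i = e := by
  induction n with
  | zero => simp [st]
  | succ n ih =>
    rw [st_B_succ, Finset.mem_insert, ih]
    constructor
    · rintro (rfl | h | ⟨i, hi, h⟩)
      · exact Or.inr ⟨n, by omega, rfl⟩
      · exact Or.inl h
      · exact Or.inr ⟨i, by omega, h⟩
    · rintro (h | ⟨i, hi, h⟩)
      · exact Or.inr (Or.inl h)
      · rcases Nat.lt_succ_iff_lt_or_eq.1 hi with h2 | rfl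
        · exact Or.inr (Or.inr ⟨i, h2, h⟩)
        · exact Or.inl h.symm

theorem def_ok (α : List (Sym2 ℕ) → Sym2 ℕ) (s0 : St) (n : ℕ) :
    Ok (insert (att α s0 n) (st α s0 n).R) (st α s0 n).B (def' α s0 n) := reply_ok _ _ _

/-- as long as the attacker moves legally and the defender has no book, the attacker has none -/
theorem no_red (α : List (Sym2 ℕ) → Sym2 ℕ) (s0 : St) (hs : Safe s0.R s0.B) (n : ℕ)
    (hok : ∀ i ≤ n, Ok (st α s0 i).R (st α s0 i).B (att α s0 i))
    (hB : ¬ HasBook (↑(st α s0 n).B : Set (Sym2 ℕ))) :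
    ¬ HasBook (↑(st α s0 (n + 1)).R : Set (Sym2 ℕ)) := by
  have key : ∀ j ≤ n, Safe (st α s0 j).R (st α s0 j).B := by
    intro j
    induction j with
    | zero => intro _; exact hs
    | succ j ih =>
      intro hj
      have h1 := ih (by omega)
      rcases reply_safe _ _ _ h1 (hok j (by omega)) with h | h
      · exfalso
        apply hB
        apply h.mono
        intro e he
        have he2 : e ∈ (st α s0 (j + 1)).B := by rw [st_B_succ]; exact_mod_cast he
        rw [mem_st_B] at he2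
        have : e ∈ (st α s0 n).B := by
          rw [mem_st_B]
          rcases he2 with h | ⟨i, hi, h⟩
          · exact Or.inl h
          · exact Or.inr ⟨i, by omega, h⟩
        exact_mod_cast this
      · exact h
  rw [st_R_succ]
  exact ((safe_iff _ _).1 (key n le_rfl) _ (hok n le_rfl)).1

/-- the first player cannot win -/
theorem not_P1Win (h : Safe ∅ ∅) : ¬ P1Win G64 := by
  rintro ⟨σ, hσ⟩
  let s0 : St := ⟨[], ∅, ∅⟩
  let m : ℕ → Sym2 ℕ := fun j => if j % 2 = 0 then att σ s0 (j / 2) else def' σ s0 (j / 2)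
  have m0 : ∀ n, m (2 * n) = att σ s0 n := by
    intro n
    have h1 : 2 * n % 2 = 0 := by omega
    have h2 : 2 * n / 2 = n := by omega
    simp only [m, h1, h2, if_true]
  have m1 : ∀ n, m (2 * n + 1) = def' σ s0 n := by
    intro n
    have h1 : (2 * n + 1) % 2 = 1 := by omega
    have h2 : (2 * n + 1) / 2 = n := by omega
    simp only [m, h1, h2]
    simp
  have hl : ∀ n, (List.range (2 * n)).map m = (st σ s0 n).l := by
    intro n
    induction n with
    | zero => rfl
    | succ n ih =>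
      have : 2 * (n + 1) = 2 * n + 1 + 1 := by ring
      rw [this, List.range_succ, List.range_succ, List.map_append, List.map_append, ih, st_l_succ]
      simp [m0, m1]
  -- membership
  have hR : ∀ n e, e ∈ (st σ s0 n).R ↔ ∃ i < n, m (2 * i) = e := by
    intro n e
    rw [mem_st_R]
    constructor
    · rintro (h | ⟨i, hi, h⟩)
      · simp [s0] at h
      · exact ⟨i, hi, by rw [m0, h]⟩
    · rintro ⟨i, hi, h⟩
      exact Or.inr ⟨i, hi, by rw [← m0, h]⟩
  have hB : ∀ n e, e ∈ (st σ s0 n).B ↔ ∃ i < n, m (2 * i + 1) = e := by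
    intro n e
    rw [mem_st_B]
    constructor
    · rintro (h | ⟨i, hi, h⟩)
      · simp [s0] at h
      · exact ⟨i, hi, by rw [m1, h]⟩
    · rintro ⟨i, hi, h⟩
      exact Or.inr ⟨i, hi, by rw [← m1, h]⟩
  obtain ⟨N, hleg, hcopy, hno⟩ := hσ m
    (by intro n; rw [m0, hl]; rfl)
    (by
      intro n
      have hok := def_ok σ s0 n
      refine ⟨by rw [m1]; exact hok.1, ?_⟩
      intro i hi heq
      rw [m1] at heq
      rcases Nat.even_or_odd' i with ⟨k, rfl | rfl⟩
      · rcases Nat.lt_succ_iff_lt_or_eq.1 (show k < n + 1 by omega) with hk | rfl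
        · exact hok.2.1 (Finset.mem_insert_of_mem ((hR n _).2 ⟨k, hk, heq⟩))
        · rw [m0] at heq
          exact hok.2.1 (by rw [← heq]; exact Finset.mem_insert_self _ _)
      · exact hok.2.2 ((hB n _).2 ⟨k, by omega, heq⟩))
  rw [copy_iff] at hcopy hno
  -- N = 2n or 2n+1
  obtain ⟨n, hn⟩ : ∃ n, N = 2 * n ∨ N = 2 * n + 1 := by
    rcases Nat.even_or_odd' N with ⟨k, h | h⟩
    · exact ⟨k, Or.inl h⟩
    · exact ⟨k, Or.inr h⟩
  have hBn : ¬ HasBook (↑(st σ s0 n).B : Set (Sym2 ℕ)) := by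
    intro hb
    apply hno
    apply hb.mono
    intro e he
    obtain ⟨i, hi, h⟩ := (hB n e).1 (by exact_mod_cast he)
    exact ⟨2 * i + 1, by omega, ⟨i, rfl⟩, h⟩
  have hok : ∀ i ≤ n, Ok (st σ s0 i).R (st σ s0 i).B (att σ s0 i) := by
    intro i hi
    have hL := hleg (2 * i) (by omega) ⟨i, by ring⟩
    rw [← m0]
    refine ⟨hL.1, ?_, ?_⟩
    · intro h
      obtain ⟨k, hk, h2⟩ := (hR i _).1 h
      exact hL.2 (2 * k) (by omega) h2
    · intro h
      obtain ⟨k, hk, h2⟩ := (hB i _).1 h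
      exact hL.2 (2 * k + 1) (by omega) h2
  apply no_red σ s0 h n hok hBn
  apply hcopy.mono
  rintro e ⟨i, hi, ⟨k, hk⟩, h⟩
  have : e ∈ (st σ s0 (n + 1)).R := (hR (n + 1) e).2 ⟨k, by omega, by rw [← h, hk]; congr 1; ring⟩
  exact_mod_cast this

/-- the second player cannot win -/
theorem not_P2Win (h : Safe ∅ ∅) : ¬ P2Win G64 := by
  rintro ⟨τ, hτ⟩
  obtain ⟨e0, he0⟩ := exists_ok ∅ ∅
  let s0 : St := ⟨[e0], ∅, {e0}⟩
  have hs0 : Safe s0.R s0.B := h.mono (Finset.Subset.refl _) (Finset.empty_subset _)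
  let m : ℕ → Sym2 ℕ := fun j =>
    if j = 0 then e0 else if j % 2 = 1 then att τ s0 (j / 2) else def' τ s0 (j / 2 - 1)
  have mz : m 0 = e0 := by simp [m]
  have m0 : ∀ n, m (2 * n + 1) = att τ s0 n := by
    intro n
    have h1 : (2 * n + 1) % 2 = 1 := by omega
    have h2 : (2 * n + 1) / 2 = n := by omega
    simp only [m, h1, h2, if_true]
    simp
  have m1 : ∀ n, m (2 * n + 2) = def' τ s0 n := by
    intro n
    have h1 : (2 * n + 2) % 2 = 0 := by omega
    have h2 : (2 * n + 2) / 2 - 1 = n := by omega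
    simp only [m, h1, h2]
    simp
  have hl : ∀ n, (List.range (2 * n + 1)).map m = (st τ s0 n).l := by
    intro n
    induction n with
    | zero => simp [st, s0, m]
    | succ n ih =>
      have : 2 * (n + 1) + 1 = 2 * n + 1 + 1 + 1 := by ring
      rw [this, List.range_succ, List.range_succ, List.map_append, List.map_append, ih, st_l_succ]
      simp [m0, m1]
  have hR : ∀ n e, e ∈ (st τ s0 n).R ↔ ∃ i < n, m (2 * i + 1) = e := by
    intro n e
    rw [mem_st_R]
    constructor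
    · rintro (h | ⟨i, hi, h⟩)
      · simp [s0] at h
      · exact ⟨i, hi, by rw [m0, h]⟩
    · rintro ⟨i, hi, h⟩
      exact Or.inr ⟨i, hi, by rw [← m0, h]⟩
  have hB : ∀ n e, e ∈ (st τ s0 n).B ↔ ∃ i < n + 1, m (2 * i) = e := by
    intro n e
    rw [mem_st_B]
    constructor
    · rintro (h | ⟨i, hi, h⟩)
      · refine ⟨0, by omega, ?_⟩
        simp only [s0, Finset.mem_singleton] at h
        rw [h]; exact mz
      · exact ⟨i + 1, by omega, by rw [show 2 * (i + 1) = 2 * i + 2 by ring, m1, h]⟩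
    · rintro ⟨i, hi, h⟩
      rcases i with _ | i
      · left
        simp only [s0, Finset.mem_singleton]
        rw [← h]; exact mz
      · exact Or.inr ⟨i, by omega, by rw [← m1, ← h]; congr 1⟩
  obtain ⟨N, hleg, hcopy, hno⟩ := hτ m
    (by intro n; rw [m0, hl]; rfl)
    (by
      intro n
      rcases n with _ | n
      · refine ⟨?_, ?_⟩
        · rw [show 2 * 0 = 0 by rfl, mz]; exact he0.1
        · intro i hi; omega
      · have hok := def_ok τ s0 n
        rw [show 2 * (n + 1) = 2 * n + 2 by ring]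
        refine ⟨by rw [m1]; exact hok.1, ?_⟩
        intro i hi heq
        rw [m1] at heq
        rcases Nat.even_or_odd' i with ⟨k, rfl | rfl⟩
        · exact hok.2.2 ((hB n _).2 ⟨k, by omega, heq⟩)
        · rcases Nat.lt_succ_iff_lt_or_eq.1 (show k < n + 1 by omega) with hk | rfl
          · exact hok.2.1 (Finset.mem_insert_of_mem ((hR n _).2 ⟨k, hk, heq⟩))
          · rw [m0] at heq
            exact hok.2.1 (by rw [← heq]; exact Finset.mem_insert_self _ _))
  rw [copy_iff] at hcopy hno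
  rcases Nat.eq_zero_or_pos N with rfl | hN
  · -- no second-player move at all
    obtain ⟨a, b, hab, hs, _⟩ := hcopy
    obtain ⟨i, hi, ⟨k, hk⟩, _⟩ := hs
    omega
  obtain ⟨n, hn⟩ : ∃ n, N = 2 * n + 1 ∨ N = 2 * n + 2 := by
    rcases Nat.even_or_odd' N with ⟨k, h | h⟩
    · exact ⟨k - 1, Or.inr (by omega)⟩
    · exact ⟨k, Or.inl h⟩
  have hBn : ¬ HasBook (↑(st τ s0 n).B : Set (Sym2 ℕ)) := by
    intro hb
    apply hno
    apply hb.mono
    intro e he
    obtain ⟨i, hi, h⟩ := (hB n e).1 (by exact_mod_cast he)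
    exact ⟨2 * i, by omega, ⟨i, by ring⟩, h⟩
  have hok : ∀ i ≤ n, Ok (st τ s0 i).R (st τ s0 i).B (att τ s0 i) := by
    intro i hi
    have hL := hleg (2 * i + 1) (by omega) ⟨i, rfl⟩
    rw [← m0]
    refine ⟨hL.1, ?_, ?_⟩
    · intro h
      obtain ⟨k, hk, h2⟩ := (hR i _).1 h
      exact hL.2 (2 * k + 1) (by omega) h2
    · intro h
      obtain ⟨k, hk, h2⟩ := (hB i _).1 h
      exact hL.2 (2 * k) (by omega) h2
  apply no_red τ s0 hs0 n hok hBn
  apply hcopy.mono
  rintro e ⟨i, hi, ⟨k, hk⟩, h⟩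
  have : e ∈ (st τ s0 (n + 1)).R := (hR (n + 1) e).2 ⟨k, by omega, by rw [← h, hk]⟩
  exact_mod_cast this

end Pool.Agent.H50.Book
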