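import Pool.Agent.H50.Book.NodeSound
import Pool.Agent.H50.Book.Chunk00
import Pool.Agent.H50.Book.Chunk01
import Pool.Agent.H50.Book.Chunk02
import Pool.Agent.H50.Book.Chunk03
import Pool.Agent.H50.Book.Chunk04
import Pool.Agent.H50.Book.Chunk05
import Pool.Agent.H50.Book.Chunk06
import Pool.Agent.H50.Book.Chunk07
import Pool.Agent.H50.Book.Chunk08
import Pool.Agent.H50.Book.Chunk09
import Pool.Agent.H50.Book.Chunk10
import Pool.Agent.H50.Book.Chunk11
import Pool.Agent.H50.Book.Chunk12
import Pool.Agent.H50.Book.Chunk13
import Pool.Agent.H50.Book.Chunk14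
import Pool.Agent.H50.Book.Chunk15
import Pool.Agent.H50.Book.Chunk16
import Pool.Agent.H50.Book.Chunk17
import Pool.Agent.H50.Book.Chunk18
import Pool.Agent.H50.Book.Strategy

set_option autoImplicit false

namespace Pool.Agent.H50.Book

theorem part00 : ∀ id : ℕ, 0 ≤ id → id < 200 → chkNode T id = true := by
  intro id h0 h1
  rcases Nat.lt_or_ge id 20 with h | h
  · exact chkRange_spec 20 chunk00_00 id (by omega) (by omega)
  rcases Nat.lt_or_ge id 40 with h | h
  · exact chkRange_spec 20 chunk00_01 id (by omega) (by omega)
  rcases Nat.lt_or_ge id 60 with h | h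
  · exact chkRange_spec 20 chunk00_02 id (by omega) (by omega)
  rcases Nat.lt_or_ge id 80 with h | h
  · exact chkRange_spec 20 chunk00_03 id (by omega) (by omega)
  rcases Nat.lt_or_ge id 100 with h | h
  · exact chkRange_spec 20 chunk00_04 id (by omega) (by omega)
  rcases Nat.lt_or_ge id 120 with h | h
  · exact chkRange_spec 20 chunk00_05 id (by omega) (by omega)
  rcases Nat.lt_or_ge id 140 with h | h
  · exact chkRange_spec 20 chunk00_06 id (by omega) (by omega)
  rcases Nat.lt_or_ge id 160 with h | h
  · exact chkRange_spec 20 chunk00_07 id (by omega) (by omega)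
  rcases Nat.lt_or_ge id 180 with h | h
  · exact chkRange_spec 20 chunk00_08 id (by omega) (by omega)
  exact chkRange_spec 20 chunk00_09 id (by omega) (by omega)

theorem part01 : ∀ id : ℕ, 200 ≤ id → id < 400 → chkNode T id = true := by
  intro id h0 h1
  rcases Nat.lt_or_ge id 220 with h | h
  · exact chkRange_spec 20 chunk01_00 id (by omega) (by omega)
  rcases Nat.lt_or_ge id 240 with h | h
  · exact chkRange_spec 20 chunk01_01 id (by omega) (by omega)
  rcases Nat.lt_or_ge id 260 with h | h
  · exact chkRange_spec 20 chunk01_02 id (by omega) (by omega)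
  rcases Nat.lt_or_ge id 280 with h | h
  · exact chkRange_spec 20 chunk01_03 id (by omega) (by omega)
  rcases Nat.lt_or_ge id 300 with h | h
  · exact chkRange_spec 20 chunk01_04 id (by omega) (by omega)
  rcases Nat.lt_or_ge id 320 with h | h
  · exact chkRange_spec 20 chunk01_05 id (by omega) (by omega)
  rcases Nat.lt_or_ge id 340 with h | h
  · exact chkRange_spec 20 chunk01_06 id (by omega) (by omega)
  rcases Nat.lt_or_ge id 360 with h | h
  · exact chkRange_spec 20 chunk01_07 id (by omega) (by omega)
  rcases Nat.lt_or_ge id 380 with h | h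
  · exact chkRange_spec 20 chunk01_08 id (by omega) (by omega)
  exact chkRange_spec 20 chunk01_09 id (by omega) (by omega)

theorem part02 : ∀ id : ℕ, 400 ≤ id → id < 600 → chkNode T id = true := by
  intro id h0 h1
  rcases Nat.lt_or_ge id 420 with h | h
  · exact chkRange_spec 20 chunk02_00 id (by omega) (by omega)
  rcases Nat.lt_or_ge id 440 with h | h
  · exact chkRange_spec 20 chunk02_01 id (by omega) (by omega)
  rcases Nat.lt_or_ge id 460 with h | h
  · exact chkRange_spec 20 chunk02_02 id (by omega) (by omega)
  rcases Nat.lt_or_ge id 480 with h | h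
  · exact chkRange_spec 20 chunk02_03 id (by omega) (by omega)
  rcases Nat.lt_or_ge id 500 with h | h
  · exact chkRange_spec 20 chunk02_04 id (by omega) (by omega)
  rcases Nat.lt_or_ge id 520 with h | h
  · exact chkRange_spec 20 chunk02_05 id (by omega) (by omega)
  rcases Nat.lt_or_ge id 540 with h | h
  · exact chkRange_spec 20 chunk02_06 id (by omega) (by omega)
  rcases Nat.lt_or_ge id 560 with h | h
  · exact chkRange_spec 20 chunk02_07 id (by omega) (by omega)
  rcases Nat.lt_or_ge id 580 with h | h
  · exact chkRange_spec 20 chunk02_08 id (by omega) (by omega)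
  exact chkRange_spec 20 chunk02_09 id (by omega) (by omega)

theorem part03 : ∀ id : ℕ, 600 ≤ id → id < 800 → chkNode T id = true := by
  intro id h0 h1
  rcases Nat.lt_or_ge id 620 with h | h
  · exact chkRange_spec 20 chunk03_00 id (by omega) (by omega)
  rcases Nat.lt_or_ge id 640 with h | h
  · exact chkRange_spec 20 chunk03_01 id (by omega) (by omega)
  rcases Nat.lt_or_ge id 660 with h | h
  · exact chkRange_spec 20 chunk03_02 id (by omega) (by omega)
  rcases Nat.lt_or_ge id 680 with h | h
  · exact chkRange_spec 20 chunk03_03 id (by omega) (by omega)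
  rcases Nat.lt_or_ge id 700 with h | h
  · exact chkRange_spec 20 chunk03_04 id (by omega) (by omega)
  rcases Nat.lt_or_ge id 720 with h | h
  · exact chkRange_spec 20 chunk03_05 id (by omega) (by omega)
  rcases Nat.lt_or_ge id 740 with h | h
  · exact chkRange_spec 20 chunk03_06 id (by omega) (by omega)
  rcases Nat.lt_or_ge id 760 with h | h
  · exact chkRange_spec 20 chunk03_07 id (by omega) (by omega)
  rcases Nat.lt_or_ge id 780 with h | h
  · exact chkRange_spec 20 chunk03_08 id (by omega) (by omega)
  exact chkRange_spec 20 chunk03_09 id (by omega) (by omega)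

theorem part04 : ∀ id : ℕ, 800 ≤ id → id < 1000 → chkNode T id = true := by
  intro id h0 h1
  rcases Nat.lt_or_ge id 820 with h | h
  · exact chkRange_spec 20 chunk04_00 id (by omega) (by omega)
  rcases Nat.lt_or_ge id 840 with h | h
  · exact chkRange_spec 20 chunk04_01 id (by omega) (by omega)
  rcases Nat.lt_or_ge id 860 with h | h
  · exact chkRange_spec 20 chunk04_02 id (by omega) (by omega)
  rcases Nat.lt_or_ge id 880 with h | h
  · exact chkRange_spec 20 chunk04_03 id (by omega) (by omega)
  rcases Nat.lt_or_ge id 900 with h | h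
  · exact chkRange_spec 20 chunk04_04 id (by omega) (by omega)
  rcases Nat.lt_or_ge id 920 with h | h
  · exact chkRange_spec 20 chunk04_05 id (by omega) (by omega)
  rcases Nat.lt_or_ge id 940 with h | h
  · exact chkRange_spec 20 chunk04_06 id (by omega) (by omega)
  rcases Nat.lt_or_ge id 960 with h | h
  · exact chkRange_spec 20 chunk04_07 id (by omega) (by omega)
  rcases Nat.lt_or_ge id 980 with h | h
  · exact chkRange_spec 20 chunk04_08 id (by omega) (by omega)
  exact chkRange_spec 20 chunk04_09 id (by omega) (by omega)

theorem part05 : ∀ id : ℕ, 1000 ≤ id → id < 1200 → chkNode T id = true := by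
  intro id h0 h1
  rcases Nat.lt_or_ge id 1020 with h | h
  · exact chkRange_spec 20 chunk05_00 id (by omega) (by omega)
  rcases Nat.lt_or_ge id 1040 with h | h
  · exact chkRange_spec 20 chunk05_01 id (by omega) (by omega)
  rcases Nat.lt_or_ge id 1060 with h | h
  · exact chkRange_spec 20 chunk05_02 id (by omega) (by omega)
  rcases Nat.lt_or_ge id 1080 with h | h
  · exact chkRange_spec 20 chunk05_03 id (by omega) (by omega)
  rcases Nat.lt_or_ge id 1100 with h | h
  · exact chkRange_spec 20 chunk05_04 id (by omega) (by omega)
  rcases Nat.lt_or_ge id 1120 with h | h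
  · exact chkRange_spec 20 chunk05_05 id (by omega) (by omega)
  rcases Nat.lt_or_ge id 1140 with h | h
  · exact chkRange_spec 20 chunk05_06 id (by omega) (by omega)
  rcases Nat.lt_or_ge id 1160 with h | h
  · exact chkRange_spec 20 chunk05_07 id (by omega) (by omega)
  rcases Nat.lt_or_ge id 1180 with h | h
  · exact chkRange_spec 20 chunk05_08 id (by omega) (by omega)
  exact chkRange_spec 20 chunk05_09 id (by omega) (by omega)

theorem part06 : ∀ id : ℕ, 1200 ≤ id → id < 1400 → chkNode T id = true := by
  intro id h0 h1
  rcases Nat.lt_or_ge id 1220 with h | h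
  · exact chkRange_spec 20 chunk06_00 id (by omega) (by omega)
  rcases Nat.lt_or_ge id 1240 with h | h
  · exact chkRange_spec 20 chunk06_01 id (by omega) (by omega)
  rcases Nat.lt_or_ge id 1260 with h | h
  · exact chkRange_spec 20 chunk06_02 id (by omega) (by omega)
  rcases Nat.lt_or_ge id 1280 with h | h
  · exact chkRange_spec 20 chunk06_03 id (by omega) (by omega)
  rcases Nat.lt_or_ge id 1300 with h | h
  · exact chkRange_spec 20 chunk06_04 id (by omega) (by omega)
  rcases Nat.lt_or_ge id 1320 with h | h
  · exact chkRange_spec 20 chunk06_05 id (by omega) (by omega)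
  rcases Nat.lt_or_ge id 1340 with h | h
  · exact chkRange_spec 20 chunk06_06 id (by omega) (by omega)
  rcases Nat.lt_or_ge id 1360 with h | h
  · exact chkRange_spec 20 chunk06_07 id (by omega) (by omega)
  rcases Nat.lt_or_ge id 1380 with h | h
  · exact chkRange_spec 20 chunk06_08 id (by omega) (by omega)
  exact chkRange_spec 20 chunk06_09 id (by omega) (by omega)

theorem part07 : ∀ id : ℕ, 1400 ≤ id → id < 1600 → chkNode T id = true := by
  intro id h0 h1
  rcases Nat.lt_or_ge id 1420 with h | h
  · exact chkRange_spec 20 chunk07_00 id (by omega) (by omega)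
  rcases Nat.lt_or_ge id 1440 with h | h
  · exact chkRange_spec 20 chunk07_01 id (by omega) (by omega)
  rcases Nat.lt_or_ge id 1460 with h | h
  · exact chkRange_spec 20 chunk07_02 id (by omega) (by omega)
  rcases Nat.lt_or_ge id 1480 with h | h
  · exact chkRange_spec 20 chunk07_03 id (by omega) (by omega)
  rcases Nat.lt_or_ge id 1500 with h | h
  · exact chkRange_spec 20 chunk07_04 id (by omega) (by omega)
  rcases Nat.lt_or_ge id 1520 with h | h
  · exact chkRange_spec 20 chunk07_05 id (by omega) (by omega)
  rcases Nat.lt_or_ge id 1540 with h | h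
  · exact chkRange_spec 20 chunk07_06 id (by omega) (by omega)
  rcases Nat.lt_or_ge id 1560 with h | h
  · exact chkRange_spec 20 chunk07_07 id (by omega) (by omega)
  rcases Nat.lt_or_ge id 1580 with h | h
  · exact chkRange_spec 20 chunk07_08 id (by omega) (by omega)
  exact chkRange_spec 20 chunk07_09 id (by omega) (by omega)

theorem part08 : ∀ id : ℕ, 1600 ≤ id → id < 1800 → chkNode T id = true := by
  intro id h0 h1
  rcases Nat.lt_or_ge id 1620 with h | h
  · exact chkRange_spec 20 chunk08_00 id (by omega) (by omega)
  rcases Nat.lt_or_ge id 1640 with h | h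
  · exact chkRange_spec 20 chunk08_01 id (by omega) (by omega)
  rcases Nat.lt_or_ge id 1660 with h | h
  · exact chkRange_spec 20 chunk08_02 id (by omega) (by omega)
  rcases Nat.lt_or_ge id 1680 with h | h
  · exact chkRange_spec 20 chunk08_03 id (by omega) (by omega)
  rcases Nat.lt_or_ge id 1700 with h | h
  · exact chkRange_spec 20 chunk08_04 id (by omega) (by omega)
  rcases Nat.lt_or_ge id 1720 with h | h
  · exact chkRange_spec 20 chunk08_05 id (by omega) (by omega)
  rcases Nat.lt_or_ge id 1740 with h | h
  · exact chkRange_spec 20 chunk08_06 id (by omega) (by omega)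
  rcases Nat.lt_or_ge id 1760 with h | h
  · exact chkRange_spec 20 chunk08_07 id (by omega) (by omega)
  rcases Nat.lt_or_ge id 1780 with h | h
  · exact chkRange_spec 20 chunk08_08 id (by omega) (by omega)
  exact chkRange_spec 20 chunk08_09 id (by omega) (by omega)

theorem part09 : ∀ id : ℕ, 1800 ≤ id → id < 2000 → chkNode T id = true := by
  intro id h0 h1
  rcases Nat.lt_or_ge id 1820 with h | h
  · exact chkRange_spec 20 chunk09_00 id (by omega) (by omega)
  rcases Nat.lt_or_ge id 1840 with h | h
  · exact chkRange_spec 20 chunk09_01 id (by omega) (by omega)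
  rcases Nat.lt_or_ge id 1860 with h | h
  · exact chkRange_spec 20 chunk09_02 id (by omega) (by omega)
  rcases Nat.lt_or_ge id 1880 with h | h
  · exact chkRange_spec 20 chunk09_03 id (by omega) (by omega)
  rcases Nat.lt_or_ge id 1900 with h | h
  · exact chkRange_spec 20 chunk09_04 id (by omega) (by omega)
  rcases Nat.lt_or_ge id 1920 with h | h
  · exact chkRange_spec 20 chunk09_05 id (by omega) (by omega)
  rcases Nat.lt_or_ge id 1940 with h | h
  · exact chkRange_spec 20 chunk09_06 id (by omega) (by omega)
  rcases Nat.lt_or_ge id 1960 with h | h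
  · exact chkRange_spec 20 chunk09_07 id (by omega) (by omega)
  rcases Nat.lt_or_ge id 1980 with h | h
  · exact chkRange_spec 20 chunk09_08 id (by omega) (by omega)
  exact chkRange_spec 20 chunk09_09 id (by omega) (by omega)

theorem part10 : ∀ id : ℕ, 2000 ≤ id → id < 2200 → chkNode T id = true := by
  intro id h0 h1
  rcases Nat.lt_or_ge id 2020 with h | h
  · exact chkRange_spec 20 chunk10_00 id (by omega) (by omega)
  rcases Nat.lt_or_ge id 2040 with h | h
  · exact chkRange_spec 20 chunk10_01 id (by omega) (by omega)
  rcases Nat.lt_or_ge id 2060 with h | h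
  · exact chkRange_spec 20 chunk10_02 id (by omega) (by omega)
  rcases Nat.lt_or_ge id 2080 with h | h
  · exact chkRange_spec 20 chunk10_03 id (by omega) (by omega)
  rcases Nat.lt_or_ge id 2100 with h | h
  · exact chkRange_spec 20 chunk10_04 id (by omega) (by omega)
  rcases Nat.lt_or_ge id 2120 with h | h
  · exact chkRange_spec 20 chunk10_05 id (by omega) (by omega)
  rcases Nat.lt_or_ge id 2140 with h | h
  · exact chkRange_spec 20 chunk10_06 id (by omega) (by omega)
  rcases Nat.lt_or_ge id 2160 with h | h
  · exact chkRange_spec 20 chunk10_07 id (by omega) (by omega)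
  rcases Nat.lt_or_ge id 2180 with h | h
  · exact chkRange_spec 20 chunk10_08 id (by omega) (by omega)
  exact chkRange_spec 20 chunk10_09 id (by omega) (by omega)

theorem part11 : ∀ id : ℕ, 2200 ≤ id → id < 2400 → chkNode T id = true := by
  intro id h0 h1
  rcases Nat.lt_or_ge id 2220 with h | h
  · exact chkRange_spec 20 chunk11_00 id (by omega) (by omega)
  rcases Nat.lt_or_ge id 2240 with h | h
  · exact chkRange_spec 20 chunk11_01 id (by omega) (by omega)
  rcases Nat.lt_or_ge id 2260 with h | h
  · exact chkRange_spec 20 chunk11_02 id (by omega) (by omega)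
  rcases Nat.lt_or_ge id 2280 with h | h
  · exact chkRange_spec 20 chunk11_03 id (by omega) (by omega)
  rcases Nat.lt_or_ge id 2300 with h | h
  · exact chkRange_spec 20 chunk11_04 id (by omega) (by omega)
  rcases Nat.lt_or_ge id 2320 with h | h
  · exact chkRange_spec 20 chunk11_05 id (by omega) (by omega)
  rcases Nat.lt_or_ge id 2340 with h | h
  · exact chkRange_spec 20 chunk11_06 id (by omega) (by omega)
  rcases Nat.lt_or_ge id 2360 with h | h
  · exact chkRange_spec 20 chunk11_07 id (by omega) (by omega)
  rcases Nat.lt_or_ge id 2380 with h | h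
  · exact chkRange_spec 20 chunk11_08 id (by omega) (by omega)
  exact chkRange_spec 20 chunk11_09 id (by omega) (by omega)

theorem part12 : ∀ id : ℕ, 2400 ≤ id → id < 2600 → chkNode T id = true := by
  intro id h0 h1
  rcases Nat.lt_or_ge id 2420 with h | h
  · exact chkRange_spec 20 chunk12_00 id (by omega) (by omega)
  rcases Nat.lt_or_ge id 2440 with h | h
  · exact chkRange_spec 20 chunk12_01 id (by omega) (by omega)
  rcases Nat.lt_or_ge id 2460 with h | h
  · exact chkRange_spec 20 chunk12_02 id (by omega) (by omega)
  rcases Nat.lt_or_ge id 2480 with h | h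
  · exact chkRange_spec 20 chunk12_03 id (by omega) (by omega)
  rcases Nat.lt_or_ge id 2500 with h | h
  · exact chkRange_spec 20 chunk12_04 id (by omega) (by omega)
  rcases Nat.lt_or_ge id 2520 with h | h
  · exact chkRange_spec 20 chunk12_05 id (by omega) (by omega)
  rcases Nat.lt_or_ge id 2540 with h | h
  · exact chkRange_spec 20 chunk12_06 id (by omega) (by omega)
  rcases Nat.lt_or_ge id 2560 with h | h
  · exact chkRange_spec 20 chunk12_07 id (by omega) (by omega)
  rcases Nat.lt_or_ge id 2580 with h | h
  · exact chkRange_spec 20 chunk12_08 id (by omega) (by omega)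
  exact chkRange_spec 20 chunk12_09 id (by omega) (by omega)

theorem part13 : ∀ id : ℕ, 2600 ≤ id → id < 2800 → chkNode T id = true := by
  intro id h0 h1
  rcases Nat.lt_or_ge id 2620 with h | h
  · exact chkRange_spec 20 chunk13_00 id (by omega) (by omega)
  rcases Nat.lt_or_ge id 2640 with h | h
  · exact chkRange_spec 20 chunk13_01 id (by omega) (by omega)
  rcases Nat.lt_or_ge id 2660 with h | h
  · exact chkRange_spec 20 chunk13_02 id (by omega) (by omega)
  rcases Nat.lt_or_ge id 2680 with h | h
  · exact chkRange_spec 20 chunk13_03 id (by omega) (by omega)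
  rcases Nat.lt_or_ge id 2700 with h | h
  · exact chkRange_spec 20 chunk13_04 id (by omega) (by omega)
  rcases Nat.lt_or_ge id 2720 with h | h
  · exact chkRange_spec 20 chunk13_05 id (by omega) (by omega)
  rcases Nat.lt_or_ge id 2740 with h | h
  · exact chkRange_spec 20 chunk13_06 id (by omega) (by omega)
  rcases Nat.lt_or_ge id 2760 with h | h
  · exact chkRange_spec 20 chunk13_07 id (by omega) (by omega)
  rcases Nat.lt_or_ge id 2780 with h | h
  · exact chkRange_spec 20 chunk13_08 id (by omega) (by omega)
  exact chkRange_spec 20 chunk13_09 id (by omega) (by omega)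

theorem part14 : ∀ id : ℕ, 2800 ≤ id → id < 3000 → chkNode T id = true := by
  intro id h0 h1
  rcases Nat.lt_or_ge id 2820 with h | h
  · exact chkRange_spec 20 chunk14_00 id (by omega) (by omega)
  rcases Nat.lt_or_ge id 2840 with h | h
  · exact chkRange_spec 20 chunk14_01 id (by omega) (by omega)
  rcases Nat.lt_or_ge id 2860 with h | h
  · exact chkRange_spec 20 chunk14_02 id (by omega) (by omega)
  rcases Nat.lt_or_ge id 2880 with h | h
  · exact chkRange_spec 20 chunk14_03 id (by omega) (by omega)
  rcases Nat.lt_or_ge id 2900 with h | h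
  · exact chkRange_spec 20 chunk14_04 id (by omega) (by omega)
  rcases Nat.lt_or_ge id 2920 with h | h
  · exact chkRange_spec 20 chunk14_05 id (by omega) (by omega)
  rcases Nat.lt_or_ge id 2940 with h | h
  · exact chkRange_spec 20 chunk14_06 id (by omega) (by omega)
  rcases Nat.lt_or_ge id 2960 with h | h
  · exact chkRange_spec 20 chunk14_07 id (by omega) (by omega)
  rcases Nat.lt_or_ge id 2980 with h | h
  · exact chkRange_spec 20 chunk14_08 id (by omega) (by omega)
  exact chkRange_spec 20 chunk14_09 id (by omega) (by omega)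

theorem part15 : ∀ id : ℕ, 3000 ≤ id → id < 3200 → chkNode T id = true := by
  intro id h0 h1
  rcases Nat.lt_or_ge id 3020 with h | h
  · exact chkRange_spec 20 chunk15_00 id (by omega) (by omega)
  rcases Nat.lt_or_ge id 3040 with h | h
  · exact chkRange_spec 20 chunk15_01 id (by omega) (by omega)
  rcases Nat.lt_or_ge id 3060 with h | h
  · exact chkRange_spec 20 chunk15_02 id (by omega) (by omega)
  rcases Nat.lt_or_ge id 3080 with h | h
  · exact chkRange_spec 20 chunk15_03 id (by omega) (by omega)
  rcases Nat.lt_or_ge id 3100 with h | h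
  · exact chkRange_spec 20 chunk15_04 id (by omega) (by omega)
  rcases Nat.lt_or_ge id 3120 with h | h
  · exact chkRange_spec 20 chunk15_05 id (by omega) (by omega)
  rcases Nat.lt_or_ge id 3140 with h | h
  · exact chkRange_spec 20 chunk15_06 id (by omega) (by omega)
  rcases Nat.lt_or_ge id 3160 with h | h
  · exact chkRange_spec 20 chunk15_07 id (by omega) (by omega)
  rcases Nat.lt_or_ge id 3180 with h | h
  · exact chkRange_spec 20 chunk15_08 id (by omega) (by omega)
  exact chkRange_spec 20 chunk15_09 id (by omega) (by omega)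

theorem part16 : ∀ id : ℕ, 3200 ≤ id → id < 3400 → chkNode T id = true := by
  intro id h0 h1
  rcases Nat.lt_or_ge id 3220 with h | h
  · exact chkRange_spec 20 chunk16_00 id (by omega) (by omega)
  rcases Nat.lt_or_ge id 3240 with h | h
  · exact chkRange_spec 20 chunk16_01 id (by omega) (by omega)
  rcases Nat.lt_or_ge id 3260 with h | h
  · exact chkRange_spec 20 chunk16_02 id (by omega) (by omega)
  rcases Nat.lt_or_ge id 3280 with h | h
  · exact chkRange_spec 20 chunk16_03 id (by omega) (by omega)
  rcases Nat.lt_or_ge id 3300 with h | h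
  · exact chkRange_spec 20 chunk16_04 id (by omega) (by omega)
  rcases Nat.lt_or_ge id 3320 with h | h
  · exact chkRange_spec 20 chunk16_05 id (by omega) (by omega)
  rcases Nat.lt_or_ge id 3340 with h | h
  · exact chkRange_spec 20 chunk16_06 id (by omega) (by omega)
  rcases Nat.lt_or_ge id 3360 with h | h
  · exact chkRange_spec 20 chunk16_07 id (by omega) (by omega)
  rcases Nat.lt_or_ge id 3380 with h | h
  · exact chkRange_spec 20 chunk16_08 id (by omega) (by omega)
  exact chkRange_spec 20 chunk16_09 id (by omega) (by omega)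

theorem part17 : ∀ id : ℕ, 3400 ≤ id → id < 3600 → chkNode T id = true := by
  intro id h0 h1
  rcases Nat.lt_or_ge id 3420 with h | h
  · exact chkRange_spec 20 chunk17_00 id (by omega) (by omega)
  rcases Nat.lt_or_ge id 3440 with h | h
  · exact chkRange_spec 20 chunk17_01 id (by omega) (by omega)
  rcases Nat.lt_or_ge id 3460 with h | h
  · exact chkRange_spec 20 chunk17_02 id (by omega) (by omega)
  rcases Nat.lt_or_ge id 3480 with h | h
  · exact chkRange_spec 20 chunk17_03 id (by omega) (by omega)
  rcases Nat.lt_or_ge id 3500 with h | h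
  · exact chkRange_spec 20 chunk17_04 id (by omega) (by omega)
  rcases Nat.lt_or_ge id 3520 with h | h
  · exact chkRange_spec 20 chunk17_05 id (by omega) (by omega)
  rcases Nat.lt_or_ge id 3540 with h | h
  · exact chkRange_spec 20 chunk17_06 id (by omega) (by omega)
  rcases Nat.lt_or_ge id 3560 with h | h
  · exact chkRange_spec 20 chunk17_07 id (by omega) (by omega)
  rcases Nat.lt_or_ge id 3580 with h | h
  · exact chkRange_spec 20 chunk17_08 id (by omega) (by omega)
  exact chkRange_spec 20 chunk17_09 id (by omega) (by omega)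

theorem part18 : ∀ id : ℕ, 3600 ≤ id → id < 3638 → chkNode T id = true := by
  intro id h0 h1
  rcases Nat.lt_or_ge id 3620 with h | h
  · exact chkRange_spec 20 chunk18_00 id (by omega) (by omega)
  exact chkRange_spec 18 chunk18_01 id (by omega) (by omega)

theorem all_nodes : ∀ id : ℕ, id < 3638 → chkNode T id = true := by
  intro id hid
  rcases Nat.lt_or_ge id 200 with h | h
  · exact part00 id (by omega) (by omega)
  rcases Nat.lt_or_ge id 400 with h | h
  · exact part01 id (by omega) (by omega)
  rcases Nat.lt_or_ge id 600 with h | h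
  · exact part02 id (by omega) (by omega)
  rcases Nat.lt_or_ge id 800 with h | h
  · exact part03 id (by omega) (by omega)
  rcases Nat.lt_or_ge id 1000 with h | h
  · exact part04 id (by omega) (by omega)
  rcases Nat.lt_or_ge id 1200 with h | h
  · exact part05 id (by omega) (by omega)
  rcases Nat.lt_or_ge id 1400 with h | h
  · exact part06 id (by omega) (by omega)
  rcases Nat.lt_or_ge id 1600 with h | h
  · exact part07 id (by omega) (by omega)
  rcases Nat.lt_or_ge id 1800 with h | h
  · exact part08 id (by omega) (by omega)
  rcases Nat.lt_or_ge id 2000 with h | h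
  · exact part09 id (by omega) (by omega)
  rcases Nat.lt_or_ge id 2200 with h | h
  · exact part10 id (by omega) (by omega)
  rcases Nat.lt_or_ge id 2400 with h | h
  · exact part11 id (by omega) (by omega)
  rcases Nat.lt_or_ge id 2600 with h | h
  · exact part12 id (by omega) (by omega)
  rcases Nat.lt_or_ge id 2800 with h | h
  · exact part13 id (by omega) (by omega)
  rcases Nat.lt_or_ge id 3000 with h | h
  · exact part14 id (by omega) (by omega)
  rcases Nat.lt_or_ge id 3200 with h | h
  · exact part15 id (by omega) (by omega)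
  rcases Nat.lt_or_ge id 3400 with h | h
  · exact part16 id (by omega) (by omega)
  rcases Nat.lt_or_ge id 3600 with h | h
  · exact part17 id (by omega) (by omega)
  exact part18 id (by omega) (by omega)

theorem safe_empty : Safe ∅ ∅ :=
  root_safe (N := 3638) all_nodes (id := 3637) (by norm_num) (by decide +kernel) (by decide +kernel)

end Pool.Agent.H50.Book
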