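import Pool.Agent.H50.Book.Count

set_option autoImplicit false

namespace Pool.Agent.H50.Book

/-- number of one bits of `x < 65536` -/
def popc (x : ℕ) : ℕ :=
  Nat.mod (Nat.land (Nat.mul x 0x1000100010001000100010001000100010001000100010001000100010001)
    0x8000400020001000080004000200010000800040002000100008000400020001) 131071

/-- row `i` of the adjacency matrix `r` -/
def rowOf (r i : ℕ) : ℕ := Nat.land (Nat.shiftRight r (Nat.mul 16 i)) 65535

def bitOf (r i j : ℕ) : ℕ := Nat.land (Nat.shiftRight r (Nat.add (Nat.mul 16 i) j)) 1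

def addE (r i j : ℕ) : ℕ :=
  Nat.lor r (Nat.lor (Nat.shiftLeft 1 (Nat.add (Nat.mul 16 i) j))
    (Nat.shiftLeft 1 (Nat.add (Nat.mul 16 j) i)))

/-- the set of one bits below 16 -/
def rowSet (v : ℕ) : Finset ℕ := (Finset.range 16).filter (fun i => v.testBit i = true)

/-- adjacency matrices of graphs on `0, ..., 15` -/
structure Valid (r : ℕ) : Prop where
  symm : ∀ i j : ℕ, i < 16 → j < 16 → r.testBit (16 * i + j) = r.testBit (16 * j + i)
  irrefl : ∀ i : ℕ, i < 16 → r.testBit (16 * i + i) = false

/-- edge set of an adjacency matrix -/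
def Ed (r : ℕ) : Finset (Sym2 ℕ) :=
  ((Finset.range 16 ×ˢ Finset.range 16).filter
    (fun p => r.testBit (16 * p.1 + p.2) = true)).image (fun p => s(p.1, p.2))

theorem mem_Ed {r : ℕ} (hv : Valid r) (i j : ℕ) :
    s(i, j) ∈ Ed r ↔ i < 16 ∧ j < 16 ∧ r.testBit (16 * i + j) = true := by
  unfold Ed
  rw [Finset.mem_image]
  constructor
  · rintro ⟨⟨a, b⟩, h, heq⟩
    rw [Finset.mem_filter, Finset.mem_product, Finset.mem_range, Finset.mem_range] at h
    simp only at h heq
    rw [Sym2.eq_iff] at heq
    rcases heq with ⟨rfl, rfl⟩ | ⟨rfl, rfl⟩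
    · exact ⟨h.1.1, h.1.2, h.2⟩
    · exact ⟨h.1.2, h.1.1, by rw [hv.symm _ _ h.1.2 h.1.1]; exact h.2⟩
  · rintro ⟨h1, h2, h3⟩
    refine ⟨(i, j), ?_, rfl⟩
    rw [Finset.mem_filter, Finset.mem_product, Finset.mem_range, Finset.mem_range]
    exact ⟨⟨h1, h2⟩, h3⟩

theorem valid_zero : Valid 0 := ⟨by intros; simp, by intros; simp⟩

theorem Ed_zero : Ed 0 = ∅ := by
  unfold Ed
  simp

theorem addE_testBit (r i j a b : ℕ) (hi : i < 16) (hj : j < 16) (_ha : a < 16) (hb : b < 16) :
    (addE r i j).testBit (16 * a + b) =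
      (r.testBit (16 * a + b) || (decide (a = i ∧ b = j) || decide (a = j ∧ b = i))) := by
  have e1 : addE r i j = r ||| (1 <<< (16 * i + j) ||| 1 <<< (16 * j + i)) := rfl
  rw [e1, Nat.testBit_or, Nat.testBit_or, Nat.one_shiftLeft, Nat.one_shiftLeft,
    Nat.testBit_two_pow, Nat.testBit_two_pow]
  congr 2
  · rw [decide_eq_decide]; omega
  · rw [decide_eq_decide]; omega

theorem valid_addE {r i j : ℕ} (hv : Valid r) (hi : i < 16) (hj : j < 16) (hij : i ≠ j) :
    Valid (addE r i j) := by
  refine ⟨?_, ?_⟩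
  · intro a b ha hb
    rw [addE_testBit r i j a b hi hj ha hb, addE_testBit r i j b a hi hj hb ha,
      hv.symm a b ha hb, Bool.or_comm (decide (a = i ∧ b = j))]
    congr 2
    · rw [decide_eq_decide]; tauto
    · rw [decide_eq_decide]; tauto
  · intro a ha
    rw [addE_testBit r i j a a hi hj ha ha, hv.irrefl a ha]
    simp only [Bool.false_or, Bool.or_eq_false_iff, decide_eq_false_iff_not]
    constructor
    · rintro ⟨h1, h2⟩; exact hij (h1.symm.trans h2)
    · rintro ⟨h1, h2⟩; exact hij (h2.symm.trans h1)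

theorem Ed_addE {r i j : ℕ} (hv : Valid r) (hi : i < 16) (hj : j < 16) (hij : i ≠ j) :
    Ed (addE r i j) = insert s(i, j) (Ed r) := by
  ext e
  induction e using Sym2.ind with
  | _ a b =>
    rw [mem_Ed (valid_addE hv hi hj hij), Finset.mem_insert, mem_Ed hv, Sym2.eq_iff]
    constructor
    · rintro ⟨ha, hb, h⟩
      rw [addE_testBit r i j a b hi hj ha hb] at h
      simp only [Bool.or_eq_true, decide_eq_true_eq] at h
      tauto
    · rintro ((⟨rfl, rfl⟩ | ⟨rfl, rfl⟩) | ⟨ha, hb, h⟩)
      · refine ⟨hi, hj, ?_⟩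
        rw [addE_testBit r a b a b hi hj hi hj]
        simp
      · refine ⟨hj, hi, ?_⟩
        rw [addE_testBit r b a a b hi hj hj hi]
        simp
      · refine ⟨ha, hb, ?_⟩
        rw [addE_testBit r i j a b hi hj ha hb, h]
        simp

theorem rowOf_lt (r i : ℕ) : rowOf r i < 65536 := by
  have : rowOf r i = (r >>> (16 * i)) &&& 65535 := rfl
  rw [this]
  exact lt_of_le_of_lt Nat.and_le_right (by norm_num)

theorem rowOf_testBit (r i j : ℕ) :
    (rowOf r i).testBit j = (r.testBit (16 * i + j) && decide (j < 16)) := by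
  have e1 : rowOf r i = (r >>> (16 * i)) &&& (2 ^ 16 - 1) := rfl
  rw [e1, Nat.testBit_and, Nat.testBit_shiftRight, Nat.testBit_two_pow_sub_one]

theorem bitOf_eq (r i j : ℕ) : bitOf r i j = if r.testBit (16 * i + j) then 1 else 0 := by
  have e1 : bitOf r i j = (r >>> (16 * i + j)) &&& 1 := rfl
  rw [e1, Nat.testBit]
  have h2 : (1 &&& r >>> (16 * i + j)) = (r >>> (16 * i + j)) &&& 1 := Nat.land_comm _ _
  rw [h2, Nat.and_one_is_mod]
  rcases Nat.mod_two_eq_zero_or_one (r >>> (16 * i + j)) with h | h <;> simp [h]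

theorem nb_Ed {r : ℕ} (hv : Valid r) {x : ℕ} (hx : x < 16) : nb (Ed r) x = rowSet (rowOf r x) := by
  ext w
  rw [mem_nb, mem_Ed hv]
  unfold rowSet
  rw [Finset.mem_filter, Finset.mem_range, rowOf_testBit]
  simp only [Bool.and_eq_true, decide_eq_true_eq]
  tauto

theorem nb_Ed' {r : ℕ} (hv : Valid r) {x : ℕ} (hx : 16 ≤ x) : nb (Ed r) x = ∅ := by
  ext w
  rw [mem_nb, mem_Ed hv]
  simp only [Finset.notMem_empty, iff_false]
  omega

/-! ### the counting function -/

theorem rowSet_card_bit (v : ℕ) (hv : v < 32768) (c : ℕ) (hc : c = 0 ∨ c = 1) :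
    (rowSet (2 * v + c)).card = (rowSet v).card + c := by
  have key : rowSet (2 * v + c) =
      (rowSet v).map ⟨fun i => i + 1, fun a b h => by simpa using h⟩ ∪
        (if c = 1 then {0} else ∅) := by
    ext i
    unfold rowSet
    rw [Finset.mem_union, Finset.mem_map, Finset.mem_filter, Finset.mem_range]
    rcases i with _ | i
    · have : (2 * v + c).testBit 0 = decide (c = 1) := by
        rw [Nat.testBit_zero, decide_eq_decide]
        omega
      rw [this]
      rcases hc with rfl | rfl <;> simp
    · have : (2 * v + c).testBit (i + 1) = v.testBit i := by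
        rw [Nat.testBit_succ]
        congr 1
        omega
      rw [this]
      constructor
      · rintro ⟨h1, h2⟩
        left
        exact ⟨i, by rw [Finset.mem_filter, Finset.mem_range]; exact ⟨by omega, h2⟩, rfl⟩
      · rintro (⟨a, ha, h⟩ | h)
        · rw [Finset.mem_filter, Finset.mem_range] at ha
          have h' : a + 1 = i + 1 := h
          have : a = i := by omega
          subst this
          refine ⟨?_, ha.2⟩
          by_contra hcon
          have h15 : a = 15 := by omega
          subst h15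
          rw [Nat.testBit_lt_two_pow (by norm_num; omega)] at ha
          exact absurd ha.2 (by simp)
        · split_ifs at h <;> simp at h
  rw [key, Finset.card_union_of_disjoint, Finset.card_map]
  · rcases hc with rfl | rfl <;> simp
  · rw [Finset.disjoint_left]
    intro a ha h
    rw [Finset.mem_map] at ha
    obtain ⟨b, _, hb⟩ := ha
    have hb' : b + 1 = a := hb
    split_ifs at h
    · rw [Finset.mem_singleton] at h; omega
    · simp at h

/-- checks the recursion for the counting function on `base + b`, `b < n` -/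
noncomputable def pchk1 (base n : ℕ) : Bool :=
  Nat.rec true (fun b ih =>
    cond (Nat.beq (popc (Nat.mul 2 (Nat.add base b))) (popc (Nat.add base b)))
      (cond (Nat.beq (popc (Nat.add (Nat.mul 2 (Nat.add base b)) 1))
        (Nat.add (popc (Nat.add base b)) 1)) ih false) false) n

noncomputable def pchk2 (n : ℕ) : Bool :=
  Nat.rec true (fun a ih => cond (pchk1 (Nat.mul 128 a) 128) ih false) n

set_option maxRecDepth 100000 in
theorem pchk_true : pchk2 256 = true := by decide +kernel

theorem cond_true_iff (a b : Bool) : cond a b false = true ↔ a = true ∧ b = true := by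
  cases a <;> simp

theorem beq_true_iff (a b : ℕ) : Nat.beq a b = true ↔ a = b := ⟨Nat.eq_of_beq_eq_true, by
  rintro rfl; exact Nat.beq_refl a⟩

theorem ble_true_iff (a b : ℕ) : Nat.ble a b = true ↔ a ≤ b := by rw [Nat.ble_eq]

theorem pchk1_spec (base n : ℕ) (h : pchk1 base n = true) :
    ∀ b < n, popc (2 * (base + b)) = popc (base + b) ∧
      popc (2 * (base + b) + 1) = popc (base + b) + 1 := by
  induction n with
  | zero => intro b hb; omega
  | succ n ih =>
    have h' : cond (Nat.beq (popc (Nat.mul 2 (Nat.add base n))) (popc (Nat.add base n)))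
      (cond (Nat.beq (popc (Nat.add (Nat.mul 2 (Nat.add base n)) 1))
        (Nat.add (popc (Nat.add base n)) 1)) (pchk1 base n) false) false = true := h
    rw [cond_true_iff, cond_true_iff, beq_true_iff, beq_true_iff] at h'
    intro b hb
    rcases Nat.lt_succ_iff_lt_or_eq.1 hb with h2 | rfl
    · exact ih h'.2.2 b h2
    · exact ⟨h'.1, h'.2.1⟩

theorem pchk2_spec (n : ℕ) (h : pchk2 n = true) :
    ∀ a < n, pchk1 (128 * a) 128 = true := by
  induction n with
  | zero => intro b hb; omega
  | succ n ih =>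
    have h' : cond (pchk1 (Nat.mul 128 n) 128) (pchk2 n) false = true := h
    rw [cond_true_iff] at h'
    intro b hb
    rcases Nat.lt_succ_iff_lt_or_eq.1 hb with h2 | rfl
    · exact ih h'.2 b h2
    · exact h'.1

theorem popc_rec (v : ℕ) (hv : v < 32768) (c : ℕ) (hc : c = 0 ∨ c = 1) :
    popc (2 * v + c) = popc v + c := by
  have h1 := pchk2_spec 256 pchk_true (v / 128) (by omega)
  have h2 := pchk1_spec _ _ h1 (v % 128) (by omega)
  have h3 : 128 * (v / 128) + v % 128 = v := Nat.div_add_mod v 128
  rw [h3] at h2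
  obtain ⟨h4, h5⟩ := h2
  rcases hc with rfl | rfl
  · rw [Nat.add_zero, Nat.add_zero]; exact h4
  · exact h5

theorem popc_eq (v : ℕ) (hv : v < 65536) : popc v = (rowSet v).card := by
  induction v using Nat.strong_induction_on with
  | _ v ih =>
    rcases Nat.eq_zero_or_pos v with rfl | hpos
    · have : rowSet 0 = ∅ := by unfold rowSet; simp
      rw [this]; rfl
    · have h1 : 2 * (v / 2) + v % 2 = v := Nat.div_add_mod v 2
      have h2 : v % 2 = 0 ∨ v % 2 = 1 := by omega
      have h3 := popc_rec (v / 2) (by omega) (v % 2) h2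
      have h4 := rowSet_card_bit (v / 2) (by omega) (v % 2) h2
      rw [h1] at h3 h4
      rw [h3, h4, ih (v / 2) (by omega) (by omega)]

end Pool.Agent.H50.Book
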