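import Pool.Agent.H50.Book.StarSound

set_option autoImplicit false

namespace Pool.Agent.H50.Book

/-- label under the relabelling coded by `pm` -/
def lab (pm p : ℕ) : ℕ := Nat.land (Nat.shiftRight pm (Nat.mul 4 p)) 15

/-- first and second label of the edge code at the head of `s` -/
def la (s : ℕ) : ℕ := Nat.land s 15
def lb (s : ℕ) : ℕ := Nat.land (Nat.shiftRight s 4) 15

/-- adjacency matrix of the next `n` edges of the stream, relabelled by `pm` -/
noncomputable def bldv (pm n : ℕ) : ℕ → ℕ → ℕ :=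
  Nat.rec (fun _ acc => acc)
    (fun _ ih s acc => ih (Nat.shiftRight s 8) (addE acc (lab pm (la s)) (lab pm (lb s)))) n

noncomputable def hdrOK (n : ℕ) : ℕ → Bool :=
  Nat.rec (fun _ => true)
    (fun _ ih s => cond (Nat.beq (la s) (lb s)) false (ih (Nat.shiftRight s 8))) n

noncomputable def pmask (pm n : ℕ) : ℕ :=
  Nat.rec 0 (fun i acc => Nat.lor acc (Nat.shiftLeft 1 (lab pm i))) n

noncomputable def permOK (pm : ℕ) : Bool := Nat.beq (pmask pm 16) 65535

def idp : ℕ := 0xfedcba9876543210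

/-- the edge `i j` may be claimed -/
def legalb (r b i j : ℕ) : Bool :=
  cond (Nat.beq i j) false (Nat.beq (bitOf (Nat.lor r b) i j) 0)

/-- comparison with table entry `s0` relabelled by `pm` -/
noncomputable def refb (pm r b s0 : ℕ) : Bool :=
  cond (permOK pm)
    (cond (Nat.beq (Nat.land r (bldv pm (Nat.land s0 15) (Nat.shiftRight s0 8) 0)) r)
      ((fun b2 => Nat.beq (Nat.land b2 b) b2)
        (bldv pm (Nat.land (Nat.shiftRight s0 4) 15)
          (Nat.shiftRight (Nat.shiftRight s0 8) (Nat.mul 8 (Nat.land s0 15))) 0)) false) false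

noncomputable def opL1b (r b' s2 : ℕ) (k : ℕ → Bool) : Bool :=
  cond (bkb 3 b' (la s2) (lb s2)) (cond (chk 3 2 (lb s2) r b') (k (Nat.shiftRight s2 8)) false)
    false

noncomputable def opL1 (r b s1 : ℕ) (k : ℕ → Bool) : Bool :=
  cond (legalb r b (la s1) (lb s1))
    (opL1b r (addE b (la s1) (lb s1)) (Nat.shiftRight s1 8) k) false

noncomputable def opTB (r b s1 : ℕ) (k : ℕ → Bool) : Bool :=
  cond (bkb 3 b (la s1) (lb s1)) (cond (chk 2 1 (lb s1) r b) (k (Nat.shiftRight s1 8)) false)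
    false

noncomputable def opWb (b' s2 : ℕ) (k : ℕ → Bool) : Bool :=
  cond (bkb 4 b' (la s2) (lb s2)) (k (Nat.shiftRight s2 8)) false

noncomputable def opW (r b s1 : ℕ) (k : ℕ → Bool) : Bool :=
  cond (legalb r b (la s1) (lb s1))
    (opWb (addE b (la s1) (lb s1)) (Nat.shiftRight s1 8) k) false

noncomputable def opDc (ih : ℕ → ℕ → ℕ → (ℕ → Bool) → Bool) (r b' i0 j0 s3 : ℕ)
    (k : ℕ → Bool) : Bool :=
  cond (bkb 3 (addE b' i0 j0) (la s3) (lb s3))
    (cond (chk 4 3 (lb s3) r b') (ih (addE r i0 j0) b' (Nat.shiftRight s3 8) k) false) false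

noncomputable def opDb (ih : ℕ → ℕ → ℕ → (ℕ → Bool) → Bool) (r b' s2 : ℕ)
    (k : ℕ → Bool) : Bool :=
  cond (legalb r b' (la s2) (lb s2))
    (opDc ih r b' (la s2) (lb s2) (Nat.shiftRight s2 8) k) false

noncomputable def opD (ih : ℕ → ℕ → ℕ → (ℕ → Bool) → Bool) (r b s1 : ℕ)
    (k : ℕ → Bool) : Bool :=
  cond (legalb r b (la s1) (lb s1))
    (opDb ih r (addE b (la s1) (lb s1)) (Nat.shiftRight s1 8) k) false

noncomputable def opFc (ih : ℕ → ℕ → ℕ → (ℕ → Bool) → Bool) (r b' i0 j0 s3 : ℕ)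
    (k : ℕ → Bool) : Bool :=
  cond (bkb 4 (addE b' i0 j0) (la s3) (lb s3))
    (cond (chkFar 2 r b') (ih (addE r i0 j0) b' (Nat.shiftRight s3 8) k) false) false

noncomputable def opFb (ih : ℕ → ℕ → ℕ → (ℕ → Bool) → Bool) (r b' s2 : ℕ)
    (k : ℕ → Bool) : Bool :=
  cond (legalb r b' (la s2) (lb s2))
    (opFc ih r b' (la s2) (lb s2) (Nat.shiftRight s2 8) k) false

noncomputable def opF (ih : ℕ → ℕ → ℕ → (ℕ → Bool) → Bool) (r b s1 : ℕ)
    (k : ℕ → Bool) : Bool :=
  cond (legalb r b (la s1) (lb s1))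
    (opFb ih r (addE b (la s1) (lb s1)) (Nat.shiftRight s1 8) k) false

noncomputable def opSc (r b' u v s3 : ℕ) (k : ℕ → Bool) : Bool :=
  cond (s2b r b' u v (lb s3)) (cond (bkb 3 b' (la s3) (lb s3)) (k (Nat.shiftRight s3 8)) false)
    false

noncomputable def opSb (r b' s2 : ℕ) (k : ℕ → Bool) : Bool :=
  opSc r b' (la s2) (lb s2) (Nat.shiftRight s2 8) k

noncomputable def opS (r b s1 : ℕ) (k : ℕ → Bool) : Bool :=
  cond (legalb r b (la s1) (lb s1))
    (opSb r (addE b (la s1) (lb s1)) (Nat.shiftRight s1 8) k) false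

noncomputable def opRb (T : ℕ → ℕ) (lim r b' s2 : ℕ) (k : ℕ → Bool) : Bool :=
  cond (Nat.ble (Nat.add (Nat.land s2 65535) 1) lim)
    (cond (refb (Nat.land (Nat.shiftRight s2 16) 0xffffffffffffffff) r b'
      (T (Nat.land s2 65535))) (k (Nat.shiftRight s2 80)) false) false

noncomputable def opR (T : ℕ → ℕ) (lim r b s1 : ℕ) (k : ℕ → Bool) : Bool :=
  cond (legalb r b (la s1) (lb s1))
    (opRb T lim r (addE b (la s1) (lb s1)) (Nat.shiftRight s1 8) k) false

noncomputable def stepB (T : ℕ → ℕ) (lim : ℕ) (ih : ℕ → ℕ → ℕ → (ℕ → Bool) → Bool)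
    (r b op s1 : ℕ) (k : ℕ → Bool) : Bool :=
  cond (Nat.beq op 2) (opL1 r b s1 k)
  (cond (Nat.beq op 3) (opD ih r b s1 k)
  (cond (Nat.beq op 1) (opTB r b s1 k)
  (cond (Nat.beq op 0) (opW r b s1 k)
  (cond (Nat.beq op 4) (opF ih r b s1 k)
  (cond (Nat.beq op 5) (opS r b s1 k)
  (cond (Nat.beq op 6) (opR T lim r b s1 k) false))))))

/-- the checker for positions with the defender to move -/
noncomputable def chkB (T : ℕ → ℕ) (lim fuel : ℕ) : ℕ → ℕ → ℕ → (ℕ → Bool) → Bool :=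
  Nat.rec (fun _ _ _ _ => false)
  (fun _ ih r b s k => stepB T lim ih r b (Nat.land s 15) (Nat.shiftRight s 4) k) fuel

/-- all edges `i j` with `i < j ≤ i + m` -/
noncomputable def jl (T : ℕ → ℕ) (lim r b i m : ℕ) : ℕ → (ℕ → Bool) → Bool :=
  Nat.rec (fun s k => k s)
    (fun m ih s k =>
      cond (Nat.beq (bitOf (Nat.lor r b) i (Nat.add i (Nat.add m 1))) 0)
        (chkB T lim 12 (addE r i (Nat.add i (Nat.add m 1))) b s (fun s' => ih s' k))
        (ih s k)) m

noncomputable def il (T : ℕ → ℕ) (lim r b n t : ℕ) : ℕ → (ℕ → Bool) → Bool :=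
  Nat.rec (fun s k => k s)
    (fun i ih s k => jl T lim r b i (Nat.sub n i) s (fun s' => ih s' k)) t

noncomputable def chkMain (T : ℕ → ℕ) (lim r b n s : ℕ) : Bool :=
  cond (Nat.beq (Nat.land r b) 0)
  (cond (Nat.beq (Nat.shiftRight (Nat.lor r b) (Nat.mul 16 n)) 0)
  (cond (Nat.ble n 14)
  (cond (chkFar 2 r b)
    (chkB T lim 12 (addE r n (Nat.add n 1)) b s
      (fun s' => il T lim r b n n s' (fun _ => true))) false) false) false) false

noncomputable def chkNode (T : ℕ → ℕ) (id : ℕ) : Bool :=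
  (fun s0 => (fun nR nB sE => (fun sB =>
    cond (hdrOK nR sE) (cond (hdrOK nB sB)
      ((fun s1 => chkMain T id (bldv idp nR sE 0) (bldv idp nB sB 0) (Nat.land s1 15)
        (Nat.shiftRight s1 4)) (Nat.shiftRight sB (Nat.mul 8 nB))) false) false)
    (Nat.shiftRight sE (Nat.mul 8 nR)))
    (Nat.land s0 15) (Nat.land (Nat.shiftRight s0 4) 15) (Nat.shiftRight s0 8)) (T id)

noncomputable def chkRange (T : ℕ → ℕ) (lo cnt : ℕ) : Bool :=
  Nat.rec true (fun t ih => cond (chkNode T (Nat.add lo t)) ih false) cnt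

/-- tables as binary trees, lowest bit first -/
inductive BT
  | leaf (v : ℕ) : BT
  | node (l r : BT) : BT

noncomputable def BT.get (t : BT) : ℕ → ℕ :=
  BT.rec (fun v _ => v) (fun _ _ ihl ihr i =>
    cond (Nat.beq (Nat.land i 1) 0) (ihl (Nat.shiftRight i 1)) (ihr (Nat.shiftRight i 1))) t

end Pool.Agent.H50.Book
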