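import Pool.Agent.H50.Book.Data

set_option autoImplicit false

namespace Pool.Agent.H50.Book

theorem chunk14_00 : chkRange T 2800 20 = true := by decide +kernel

theorem chunk14_01 : chkRange T 2820 20 = true := by decide +kernel

theorem chunk14_02 : chkRange T 2840 20 = true := by decide +kernel

theorem chunk14_03 : chkRange T 2860 20 = true := by decide +kernel

theorem chunk14_04 : chkRange T 2880 20 = true := by decide +kernel

theorem chunk14_05 : chkRange T 2900 20 = true := by decide +kernel

theorem chunk14_06 : chkRange T 2920 20 = true := by decide +kernel

theorem chunk14_07 : chkRange T 2940 20 = true := by decide +kernel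

theorem chunk14_08 : chkRange T 2960 20 = true := by decide +kernel

theorem chunk14_09 : chkRange T 2980 20 = true := by decide +kernel

end Pool.Agent.H50.Book
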