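import Pool.Agent.H50.Book.Rules

set_option autoImplicit false

namespace Pool.Agent.H50.Book

/-- neighbours of `x` in `R` -/
def nb (R : Finset (Sym2 ℕ)) (x : ℕ) : Finset ℕ := (verts R).filter (fun w => s(x, w) ∈ R)

theorem mem_nb {R : Finset (Sym2 ℕ)} {x w : ℕ} : w ∈ nb R x ↔ s(x, w) ∈ R := by
  unfold nb
  rw [Finset.mem_filter]
  exact ⟨fun h => h.2, fun h => ⟨mem_verts h (by simp), h⟩⟩

/-- edges `x w` of `R` such that `w` is not excluded as a page by `y` -/
def nbx (R B : Finset (Sym2 ℕ)) (x y : ℕ) : Finset ℕ :=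
  (nb R x).filter (fun w => w ≠ y ∧ s(y, w) ∉ B)

theorem count {k : ℕ} {R E B : Finset (Sym2 ℕ)} {x y : ℕ} (hB : ∀ e ∈ R ∪ E, e ∉ B)
    (h : Bk k (↑(R ∪ E) : Set (Sym2 ℕ)) x y) :
    k + (if s(x, y) ∈ R then 0 else 1) ≤ E.card + (nb R x ∩ nb R y).card ∧
    2 * k + (if s(x, y) ∈ R then 0 else 1) ≤
      E.card + (nbx R B x y).card + (nbx R B y x).card := by
  obtain ⟨hxy, hs, P, hP, hp⟩ := h
  obtain ⟨Q, hQP, hQ⟩ := Finset.exists_subset_card_eq hP
  have hq : ∀ p ∈ Q, p ≠ x ∧ p ≠ y ∧ s(x, p) ∈ R ∪ E ∧ s(y, p) ∈ R ∪ E := by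
    intro p hp'
    obtain ⟨h1, h2, h3, h4⟩ := hp p (hQP hp')
    exact ⟨h1, h2, by exact_mod_cast h3, by exact_mod_cast h4⟩
  have hs' : s(x, y) ∈ R ∪ E := by exact_mod_cast hs
  set M0 : Finset (Sym2 ℕ) := if s(x, y) ∈ R then ∅ else {s(x, y)} with hM0
  have cM0 : M0.card = if s(x, y) ∈ R then 0 else 1 := by
    rw [hM0]; split_ifs <;> simp
  have hM0E : M0 ⊆ E := by
    intro e he
    rw [hM0] at he
    split_ifs at he with hh
    · simp at he
    · rw [Finset.mem_singleton] at he
      subst he
      rw [Finset.mem_union] at hs'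
      rcases hs' with h | h
      · exact absurd h hh
      · exact h
  have hM0m : ∀ e ∈ M0, e = s(x, y) := by
    intro e he
    rw [hM0] at he
    split_ifs at he with hh
    · simp at he
    · exact Finset.mem_singleton.1 he
  constructor
  · -- one missing edge for each page that is not full
    set F := nb R x ∩ nb R y with hF
    let g : ℕ → Sym2 ℕ := fun p => if s(x, p) ∈ R then s(y, p) else s(x, p)
    have hg : ∀ p ∈ Q \ F, g p ∈ E := by
      intro p hp'
      rw [Finset.mem_sdiff, hF, Finset.mem_inter, mem_nb, mem_nb] at hp'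
      obtain ⟨h1, h2, h3, h4⟩ := hq p hp'.1
      rw [Finset.mem_union] at h3 h4
      simp only [g]
      split_ifs with hh
      · rcases h4 with h4 | h4
        · exact absurd ⟨hh, h4⟩ hp'.2
        · exact h4
      · rcases h3 with h3 | h3
        · exact absurd h3 hh
        · exact h3
    have hinj : Set.InjOn g (↑(Q \ F) : Set ℕ) := by
      intro p hp' q hq' hpq
      rw [Finset.mem_coe, Finset.mem_sdiff] at hp' hq'
      obtain ⟨p1, p2, _, _⟩ := hq p hp'.1
      obtain ⟨q1, q2, _, _⟩ := hq q hq'.1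
      simp only [g] at hpq
      split_ifs at hpq with h1 h2 h2
      · exact Sym2.congr_right.1 hpq
      · rw [Sym2.eq_iff] at hpq
        rcases hpq with ⟨h, _⟩ | ⟨_, h⟩
        · exact absurd h.symm hxy
        · exact absurd h p1
      · rw [Sym2.eq_iff] at hpq
        rcases hpq with ⟨h, _⟩ | ⟨_, h⟩
        · exact absurd h hxy
        · exact absurd h p2
      · exact Sym2.congr_right.1 hpq
    have hdis : Disjoint M0 ((Q \ F).image g) := by
      rw [Finset.disjoint_left]
      intro e he he2
      rw [Finset.mem_image] at he2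
      obtain ⟨p, hp', rfl⟩ := he2
      rw [Finset.mem_sdiff] at hp'
      obtain ⟨p1, p2, _, _⟩ := hq p hp'.1
      have := hM0m _ he
      simp only [g] at this
      split_ifs at this with h1
      · rw [Sym2.eq_iff] at this
        rcases this with ⟨_, h⟩ | ⟨_, h⟩
        · exact p2 h
        · exact p1 h
      · rw [Sym2.eq_iff] at this
        rcases this with ⟨_, h⟩ | ⟨_, h⟩
        · exact p2 h
        · exact p1 h
    have hsub : M0 ∪ (Q \ F).image g ⊆ E := by
      apply Finset.union_subset hM0E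
      intro e he
      rw [Finset.mem_image] at he
      obtain ⟨p, hp', rfl⟩ := he
      exact hg p hp'
    have hc := Finset.card_le_card hsub
    rw [Finset.card_union_of_disjoint hdis, cM0, Finset.card_image_of_injOn hinj] at hc
    have h2 : Q.card ≤ (Q \ F).card + F.card := by
      calc Q.card ≤ ((Q \ F) ∪ F).card := Finset.card_le_card (by
            intro a ha
            rw [Finset.mem_union, Finset.mem_sdiff]
            by_cases haF : a ∈ F
            · exact Or.inr haF
            · exact Or.inl ⟨ha, haF⟩)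
        _ ≤ _ := Finset.card_union_le _ _
    omega
  · set M1 := (Q.filter (fun p => s(x, p) ∉ R)).image (fun p => s(x, p)) with hM1
    set M2 := (Q.filter (fun p => s(y, p) ∉ R)).image (fun p => s(y, p)) with hM2
    have inj : ∀ z : ℕ, Function.Injective (fun p : ℕ => s(z, p)) := by
      intro z p q hpq
      exact Sym2.congr_right.1 hpq
    have cM1 : M1.card = (Q.filter (fun p => s(x, p) ∉ R)).card :=
      Finset.card_image_of_injective _ (inj x)
    have cM2 : M2.card = (Q.filter (fun p => s(y, p) ∉ R)).card :=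
      Finset.card_image_of_injective _ (inj y)
    have hM1E : M1 ⊆ E := by
      intro e he
      rw [hM1, Finset.mem_image] at he
      obtain ⟨p, hp', rfl⟩ := he
      rw [Finset.mem_filter] at hp'
      have := (hq p hp'.1).2.2.1
      rw [Finset.mem_union] at this
      rcases this with h | h
      · exact absurd h hp'.2
      · exact h
    have hM2E : M2 ⊆ E := by
      intro e he
      rw [hM2, Finset.mem_image] at he
      obtain ⟨p, hp', rfl⟩ := he
      rw [Finset.mem_filter] at hp'
      have := (hq p hp'.1).2.2.2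
      rw [Finset.mem_union] at this
      rcases this with h | h
      · exact absurd h hp'.2
      · exact h
    have d12 : Disjoint M1 M2 := by
      rw [Finset.disjoint_left]
      intro e he he2
      rw [hM1, Finset.mem_image] at he
      rw [hM2, Finset.mem_image] at he2
      obtain ⟨p, hp', rfl⟩ := he
      obtain ⟨q, hq', h⟩ := he2
      rw [Finset.mem_filter] at hp' hq'
      rw [Sym2.eq_iff] at h
      rcases h with ⟨h, _⟩ | ⟨_, h⟩
      · exact hxy h.symm
      · exact (hq q hq'.1).1 h
    have d0 : Disjoint M0 (M1 ∪ M2) := by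
      rw [Finset.disjoint_left]
      intro e he he2
      have := hM0m e he
      subst this
      rw [Finset.mem_union] at he2
      rcases he2 with he2 | he2
      · rw [hM1, Finset.mem_image] at he2
        obtain ⟨p, hp', h⟩ := he2
        rw [Finset.mem_filter] at hp'
        exact (hq p hp'.1).2.1 (Sym2.congr_right.1 h)
      · rw [hM2, Finset.mem_image] at he2
        obtain ⟨p, hp', h⟩ := he2
        rw [Finset.mem_filter] at hp'
        rw [Sym2.eq_iff] at h
        rcases h with ⟨h, _⟩ | ⟨_, h⟩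
        · exact hxy h.symm
        · exact (hq p hp'.1).1 h
    have hsub : M0 ∪ (M1 ∪ M2) ⊆ E :=
      Finset.union_subset hM0E (Finset.union_subset hM1E hM2E)
    have hc := Finset.card_le_card hsub
    rw [Finset.card_union_of_disjoint d0, Finset.card_union_of_disjoint d12, cM0, cM1, cM2] at hc
    have s1 : (Q.filter (fun p => s(x, p) ∈ R)) ⊆ nbx R B x y := by
      intro p hp'
      rw [Finset.mem_filter] at hp'
      obtain ⟨h1, h2, h3, h4⟩ := hq p hp'.1
      unfold nbx
      rw [Finset.mem_filter, mem_nb]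
      exact ⟨hp'.2, h2, hB _ h4⟩
    have s2 : (Q.filter (fun p => s(y, p) ∈ R)) ⊆ nbx R B y x := by
      intro p hp'
      rw [Finset.mem_filter] at hp'
      obtain ⟨h1, h2, h3, h4⟩ := hq p hp'.1
      unfold nbx
      rw [Finset.mem_filter, mem_nb]
      exact ⟨hp'.2, h1, hB _ h3⟩
    have c1 := Finset.card_le_card s1
    have c2 := Finset.card_le_card s2
    have p1 := Finset.card_filter_add_card_filter_not (s := Q) (fun p => s(x, p) ∈ R)
    have p2 := Finset.card_filter_add_card_filter_not (s := Q) (fun p => s(y, p) ∈ R)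
    omega

/-- numerical condition: the book with `k` pages at spine `x y` is at distance at least `m` -/
def PairOK (k m : ℕ) (R B : Finset (Sym2 ℕ)) (x y : ℕ) : Prop :=
  s(x, y) ∈ B ∨
  m + (if s(x, y) ∈ R then 1 else 0) + (nb R x ∩ nb R y).card ≤ k + 1 ∨
  m + (if s(x, y) ∈ R then 1 else 0) + (nbx R B x y).card + (nbx R B y x).card ≤ 2 * k + 1

theorem no_bk {k m : ℕ} {R E B : Finset (Sym2 ℕ)} {x y : ℕ} (h : PairOK k m R B x y)
    (hR : ∀ e ∈ R, e ∉ B) (hE : ∀ e ∈ E, e ∉ B) (hm : E.card < m) :
    ¬ Bk k (↑(R ∪ E) : Set (Sym2 ℕ)) x y := by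
  intro hb
  have hB : ∀ e ∈ R ∪ E, e ∉ B := by
    intro e he
    rw [Finset.mem_union] at he
    rcases he with he | he
    · exact hR e he
    · exact hE e he
  have hc := count hB hb
  have hs : s(x, y) ∉ B := hB _ (by exact_mod_cast hb.2.1)
  rcases h with h | h | h
  · exact hs h
  · have := hc.1
    split_ifs at h this <;> omega
  · have := hc.2
    split_ifs at h this <;> omega

theorem PairOK.symm {k m : ℕ} {R B : Finset (Sym2 ℕ)} {x y : ℕ} (h : PairOK k m R B x y) :
    PairOK k m R B y x := by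
  unfold PairOK at h ⊢
  rw [sw y x, Finset.inter_comm (nb R y)]
  rcases h with h | h | h
  · exact Or.inl h
  · exact Or.inr (Or.inl h)
  · exact Or.inr (Or.inr (by omega))

theorem far_of_pairs {m : ℕ} {R B : Finset (Sym2 ℕ)} (hR : ∀ e ∈ R, e ∉ B)
    (h : ∀ x y : ℕ, x ≠ y → PairOK 4 m R B x y) : Far m R B := by
  rintro E hE hEB ⟨x, y, hb⟩
  exact no_bk (h x y hb.1) hR hEB hE hb

theorem farB_of_pairs {m : ℕ} {R B : Finset (Sym2 ℕ)} {b : ℕ} (hR : ∀ e ∈ R, e ∉ B)
    (h : ∀ y : ℕ, b ≠ y → PairOK 3 m R B b y) : FarB m R B b := by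
  intro E hE hEB y hb
  exact no_bk (h y hb.1) hR hEB hE hb

end Pool.Agent.H50.Book
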