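import Pool.Agent.H50.Book.Bits

set_option autoImplicit false

namespace Pool.Agent.H50.Book

/-- list of vertices with their rows -/
inductive HL
  | nil : HL
  | cons (x rx cx : ℕ) (t : HL) : HL

def cmask (bx i : ℕ) : ℕ := Nat.xor 65535 (Nat.lor bx (Nat.shiftLeft 1 i))

/-- the vertices of degree at least two -/
noncomputable def heavy (fuel : ℕ) : ℕ → ℕ → ℕ → HL :=
  Nat.rec (fun _ _ _ => HL.nil)
    (fun _ ih i r b =>
      cond (Nat.beq r 0) HL.nil
        (cond (Nat.ble (popc (Nat.land r 65535)) 1)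
          (ih (Nat.add i 1) (Nat.shiftRight r 16) (Nat.shiftRight b 16))
          (HL.cons i (Nat.land r 65535) (cmask (Nat.land b 65535) i)
            (ih (Nat.add i 1) (Nat.shiftRight r 16) (Nat.shiftRight b 16))))) fuel

def pairb (k1 k2 m x rx cx y ry cy : ℕ) : Bool :=
  cond (Nat.beq (Nat.land (Nat.shiftRight cy x) 1) 0) true
   (cond (Nat.ble (Nat.add (Nat.add m (Nat.land (Nat.shiftRight rx y) 1))
      (popc (Nat.land rx ry))) k1) true
     (Nat.ble (Nat.add (Nat.add (Nat.add m (Nat.land (Nat.shiftRight rx y) 1))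
      (popc (Nat.land rx cy))) (popc (Nat.land ry cx))) k2))

noncomputable def inner (k1 k2 m x rx cx : ℕ) (l : HL) : Bool :=
  HL.rec true (fun y ry cy _ ih => cond (pairb k1 k2 m x rx cx y ry cy) ih false) l

noncomputable def outer (k1 k2 m : ℕ) (l : HL) : Bool :=
  HL.rec true (fun x rx cx t ih => cond (inner k1 k2 m x rx cx t) ih false) l

/-- `Far m` and `FarB j` at `c` -/
noncomputable def chk (m j c r b : ℕ) : Bool :=
  (fun l => cond (outer 5 9 m l)
    (inner 4 7 j c (rowOf r c) (cmask (rowOf b c) c) l) false) (heavy 16 0 r b)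

noncomputable def chkFar (m r b : ℕ) : Bool := outer 5 9 m (heavy 16 0 r b)

theorem heavy_zero (i r b : ℕ) : heavy 0 i r b = HL.nil := rfl

theorem heavy_succ (fuel i r b : ℕ) : heavy (fuel + 1) i r b =
    cond (Nat.beq r 0) HL.nil
        (cond (Nat.ble (popc (Nat.land r 65535)) 1)
          (heavy fuel (Nat.add i 1) (Nat.shiftRight r 16) (Nat.shiftRight b 16))
          (HL.cons i (Nat.land r 65535) (cmask (Nat.land b 65535) i)
            (heavy fuel (Nat.add i 1) (Nat.shiftRight r 16) (Nat.shiftRight b 16)))) := rfl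

theorem inner_nil (k1 k2 m x rx cx : ℕ) : inner k1 k2 m x rx cx HL.nil = true := rfl

theorem inner_cons (k1 k2 m x rx cx y ry cy : ℕ) (t : HL) :
    inner k1 k2 m x rx cx (HL.cons y ry cy t) =
      cond (pairb k1 k2 m x rx cx y ry cy) (inner k1 k2 m x rx cx t) false := rfl

theorem outer_cons (k1 k2 m x rx cx : ℕ) (t : HL) :
    outer k1 k2 m (HL.cons x rx cx t) =
      cond (inner k1 k2 m x rx cx t) (outer k1 k2 m t) false := rfl

theorem shift_row (r i : ℕ) : Nat.land (r >>> (16 * i)) 65535 = rowOf r i := rfl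

theorem shift_succ (r i : ℕ) : Nat.shiftRight (r >>> (16 * i)) 16 = r >>> (16 * (i + 1)) := by
  have : Nat.shiftRight (r >>> (16 * i)) 16 = (r >>> (16 * i)) >>> 16 := rfl
  rw [this, ← Nat.shiftRight_add]
  congr 1

theorem row_zero_of {r i y : ℕ} (h : r >>> (16 * i) = 0) (hy : i ≤ y) : rowOf r y = 0 := by
  have : r >>> (16 * y) = 0 := by
    have e : 16 * y = 16 * i + 16 * (y - i) := by omega
    rw [e, Nat.shiftRight_add, h, Nat.zero_shiftRight]
  have e2 : rowOf r y = (r >>> (16 * y)) &&& 65535 := rfl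
  rw [e2, this, Nat.zero_and]

theorem popc_zero : popc 0 = 0 := by decide +kernel

theorem inner_heavy (k1 k2 m x rx cx r b : ℕ) (fuel : ℕ) : ∀ i : ℕ,
    inner k1 k2 m x rx cx (heavy fuel i (r >>> (16 * i)) (b >>> (16 * i))) = true →
    ∀ y : ℕ, i ≤ y → y < i + fuel → 1 < popc (rowOf r y) →
      pairb k1 k2 m x rx cx y (rowOf r y) (cmask (rowOf b y) y) = true := by
  induction fuel with
  | zero => intro i _ y h1 h2; omega
  | succ fuel ih =>
    intro i h y h1 h2 h3
    rw [heavy_succ] at h
    by_cases hz : r >>> (16 * i) = 0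
    · rw [row_zero_of hz h1, popc_zero] at h3
      omega
    · have hb : Nat.beq (r >>> (16 * i)) 0 = false := by
        rcases hh : Nat.beq (r >>> (16 * i)) 0 with _ | _
        · rfl
        · exact absurd ((beq_true_iff _ _).1 hh) hz
      rw [hb, cond_false, shift_row, shift_row, shift_succ, shift_succ] at h
      rcases hh : Nat.ble (popc (rowOf r i)) 1 with _ | _
      · rw [hh, cond_false, inner_cons, cond_true_iff] at h
        rcases Nat.eq_or_lt_of_le h1 with rfl | h1
        · exact h.1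
        · exact ih (i + 1) h.2 y h1 (by omega) h3
      · rw [hh, cond_true] at h
        rw [ble_true_iff] at hh
        have hne : i ≠ y := by rintro rfl; omega
        exact ih (i + 1) h y (by omega) (by omega) h3

theorem outer_heavy (k1 k2 m r b : ℕ) (fuel : ℕ) : ∀ i : ℕ,
    outer k1 k2 m (heavy fuel i (r >>> (16 * i)) (b >>> (16 * i))) = true →
    ∀ x y : ℕ, i ≤ x → x < y → y < i + fuel → 1 < popc (rowOf r x) → 1 < popc (rowOf r y) →
      pairb k1 k2 m x (rowOf r x) (cmask (rowOf b x) x) y (rowOf r y) (cmask (rowOf b y) y)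
        = true := by
  induction fuel with
  | zero => intro i _ x y h0 h1 h2; omega
  | succ fuel ih =>
    intro i h x y h0 h1 h2 hx hy
    rw [heavy_succ] at h
    by_cases hz : r >>> (16 * i) = 0
    · rw [row_zero_of hz h0, popc_zero] at hx
      omega
    · have hb : Nat.beq (r >>> (16 * i)) 0 = false := by
        rcases hh : Nat.beq (r >>> (16 * i)) 0 with _ | _
        · rfl
        · exact absurd ((beq_true_iff _ _).1 hh) hz
      rw [hb, cond_false, shift_row, shift_row, shift_succ, shift_succ] at h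
      rcases hh : Nat.ble (popc (rowOf r i)) 1 with _ | _
      · rw [hh, cond_false, outer_cons, cond_true_iff] at h
        rcases Nat.eq_or_lt_of_le h0 with rfl | h0
        · exact inner_heavy k1 k2 m _ _ _ r b fuel (i + 1) h.1 y (by omega) (by omega) hy
        · exact ih (i + 1) h.2 x y h0 h1 (by omega) hx hy
      · rw [hh, cond_true] at h
        rw [ble_true_iff] at hh
        have hne : i ≠ x := by rintro rfl; omega
        exact ih (i + 1) h x y (by omega) h1 (by omega) hx hy

theorem cmask_testBit {bx x : ℕ} (hb : bx < 65536) (hx : x < 16) (w : ℕ) :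
    (cmask bx x).testBit w = (decide (w < 16) && (!(bx.testBit w) && decide (w ≠ x))) := by
  have e1 : cmask bx x = (2 ^ 16 - 1) ^^^ (bx ||| 1 <<< x) := rfl
  rw [e1, Nat.testBit_xor, Nat.testBit_or, Nat.one_shiftLeft, Nat.testBit_two_pow,
    Nat.testBit_two_pow_sub_one]
  by_cases h : w < 16
  · by_cases hwx : x = w
    · subst hwx; simp [h]
    · have : w ≠ x := fun h => hwx h.symm
      cases hh : bx.testBit w <;> simp [h, hwx, this]
  · have h1 : bx.testBit w = false := by
      apply Nat.testBit_lt_two_pow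
      calc bx < 2 ^ 16 := by norm_num; omega
        _ ≤ 2 ^ w := Nat.pow_le_pow_right (by norm_num) (by omega)
    have h2 : x ≠ w := by omega
    simp [h, h1, h2]

theorem mem_rowSet {v i : ℕ} : i ∈ rowSet v ↔ i < 16 ∧ v.testBit i = true := by
  unfold rowSet; rw [Finset.mem_filter, Finset.mem_range]

theorem rowSet_land (a b : ℕ) : rowSet (Nat.land a b) = rowSet a ∩ rowSet b := by
  ext i
  have : Nat.land a b = a &&& b := rfl
  rw [Finset.mem_inter, mem_rowSet, mem_rowSet, mem_rowSet, this, Nat.testBit_and]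
  simp only [Bool.and_eq_true]
  tauto

theorem land_lt {a b : ℕ} (h : a < 65536) : Nat.land a b < 65536 := by
  have : Nat.land a b = a &&& b := rfl
  rw [this]
  exact lt_of_le_of_lt Nat.and_le_left h

theorem shift_bit (v y : ℕ) : Nat.land (Nat.shiftRight v y) 1 = if v.testBit y then 1 else 0 := by
  have e1 : Nat.land (Nat.shiftRight v y) 1 = (v >>> y) &&& 1 := rfl
  rw [e1, Nat.testBit]
  have h2 : (1 &&& v >>> y) = (v >>> y) &&& 1 := Nat.land_comm _ _
  rw [h2, Nat.and_one_is_mod]
  rcases Nat.mod_two_eq_zero_or_one (v >>> y) with h | h <;> simp [h]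

theorem nbx_Ed {r b : ℕ} (hr : Valid r) (hb : Valid b) {x y : ℕ} (hx : x < 16) (hy : y < 16) :
    nbx (Ed r) (Ed b) x y = rowSet (Nat.land (rowOf r x) (cmask (rowOf b y) y)) := by
  ext w
  unfold nbx
  rw [Finset.mem_filter, nb_Ed hr hx, rowSet_land, Finset.mem_inter, mem_rowSet, mem_rowSet,
    cmask_testBit (rowOf_lt b y) hy, rowOf_testBit b, mem_Ed hb]
  simp only [Bool.and_eq_true, decide_eq_true_eq, Bool.not_eq_true', ne_eq]
  constructor
  · rintro ⟨⟨h1, h2⟩, h3, h4⟩
    refine ⟨⟨h1, h2⟩, h1, h1, ?_, h3⟩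
    cases hh : b.testBit (16 * y + w)
    · simp
    · exact absurd ⟨hy, h1, hh⟩ h4
  · rintro ⟨⟨h1, h2⟩, _, _, h3, h4⟩
    refine ⟨⟨h1, h2⟩, h4, ?_⟩
    rintro ⟨_, _, h⟩
    rw [h] at h3
    simp [h1] at h3

theorem pairb_spec {k m r b x y : ℕ} (hr : Valid r) (hb : Valid b) (hx : x < 16) (hy : y < 16)
    (hxy : x ≠ y)
    (h : pairb (k + 1) (2 * k + 1) m x (rowOf r x) (cmask (rowOf b x) x) y (rowOf r y)
      (cmask (rowOf b y) y) = true) : PairOK k m (Ed r) (Ed b) x y := by
  unfold pairb at h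
  rw [shift_bit, cmask_testBit (rowOf_lt b y) hy, shift_bit, rowOf_testBit b,
    rowOf_testBit r] at h
  unfold PairOK
  rcases hh : b.testBit (16 * y + x) with _ | _
  · right
    rw [hh] at h
    have e1 : (decide (x < 16) && (!(false && decide (x < 16)) && decide (x ≠ y))) = true := by
      simp [hx, hxy]
    rw [e1] at h
    have e2 : Nat.beq (if true = true then 1 else 0) 0 = false := rfl
    rw [e2, cond_false] at h
    have e3 : (if (r.testBit (16 * x + y) && decide (y < 16)) = true then 1 else 0) =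
        (if s(x, y) ∈ Ed r then 1 else 0) := by
      congr 1
      rw [mem_Ed hr]
      simp [hx, hy]
    rw [e3] at h
    rw [nb_Ed hr hx, nb_Ed hr hy, ← rowSet_land, ← popc_eq _ (land_lt (rowOf_lt r x)),
      nbx_Ed hr hb hx hy, nbx_Ed hr hb hy hx, ← popc_eq _ (land_lt (rowOf_lt r x)),
      ← popc_eq _ (land_lt (rowOf_lt r y))]
    rcases h2 : Nat.ble (Nat.add (Nat.add m (if s(x, y) ∈ Ed r then 1 else 0))
      (popc (Nat.land (rowOf r x) (rowOf r y)))) (k + 1) with _ | _
    · rw [h2, cond_false, ble_true_iff] at h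
      right
      exact h
    · left
      rw [ble_true_iff] at h2
      exact h2
  · left
    rw [mem_Ed hb]
    exact ⟨hx, hy, by rw [hb.symm x y hx hy]; exact hh⟩

theorem light_pair {k m r : ℕ} {B : Finset (Sym2 ℕ)} {x y : ℕ} (hr : Valid r)
    (hm : m ≤ k) (hx : (nb (Ed r) x).card ≤ 1) : PairOK k m (Ed r) B x y := by
  right; left
  by_cases h : s(x, y) ∈ Ed r
  · rw [if_pos h]
    have h1 : nb (Ed r) x = {y} := by
      apply Finset.eq_of_superset_of_card_ge
      · rw [Finset.singleton_subset_iff, mem_nb]; exact h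
      · simpa using hx
    have h2 : y ∉ nb (Ed r) y := by
      rw [mem_nb, mem_Ed hr]
      rintro ⟨h3, _, h4⟩
      rw [hr.irrefl y h3] at h4
      exact absurd h4 (by simp)
    have h3 : nb (Ed r) x ∩ nb (Ed r) y = ∅ := by
      rw [h1, Finset.singleton_inter_of_notMem h2]
    rw [h3, Finset.card_empty]
    omega
  · rw [if_neg h]
    have := Finset.card_le_card (Finset.inter_subset_left (s₁ := nb (Ed r) x)
      (s₂ := nb (Ed r) y))
    omega

theorem chkFar_spec {m r b : ℕ} (hr : Valid r) (hb : Valid b) (hm : m ≤ 4)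
    (hd : ∀ e ∈ Ed r, e ∉ Ed b) (h : chkFar m r b = true) : Far m (Ed r) (Ed b) := by
  apply far_of_pairs hd
  have key : ∀ x y : ℕ, x < y → PairOK 4 m (Ed r) (Ed b) x y := by
    intro x y hxy
    by_cases hx : x < 16
    · by_cases hy : y < 16
      · by_cases h1 : 1 < popc (rowOf r x)
        · by_cases h2 : 1 < popc (rowOf r y)
          · exact pairb_spec (k := 4) hr hb hx hy (by omega)
              (outer_heavy 5 9 m r b 16 0 h x y (Nat.zero_le _) hxy (by omega) h1 h2)
          · apply PairOK.symm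
            apply light_pair hr hm
            rw [nb_Ed hr hy, ← popc_eq _ (rowOf_lt r y)]; omega
        · apply light_pair hr hm
          rw [nb_Ed hr hx, ← popc_eq _ (rowOf_lt r x)]; omega
      · apply PairOK.symm
        apply light_pair hr hm
        rw [nb_Ed' hr (by omega)]; simp
    · apply light_pair hr hm
      rw [nb_Ed' hr (by omega)]; simp
  intro x y hxy
  rcases lt_or_gt_of_ne hxy with h | h
  · exact key x y h
  · exact (key y x h).symm

theorem chkB_spec {m r b c : ℕ} (hr : Valid r) (hb : Valid b) (hm : m ≤ 3) (hc : c < 16)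
    (hd : ∀ e ∈ Ed r, e ∉ Ed b)
    (h : inner 4 7 m c (rowOf r c) (cmask (rowOf b c) c) (heavy 16 0 r b) = true) :
    FarB m (Ed r) (Ed b) c := by
  apply farB_of_pairs hd
  intro y hcy
  by_cases hy : y < 16
  · by_cases h2 : 1 < popc (rowOf r y)
    · exact pairb_spec (k := 3) hr hb hc hy hcy
        (inner_heavy 4 7 m c _ _ r b 16 0 h y (Nat.zero_le _) (by omega) h2)
    · apply PairOK.symm
      apply light_pair hr hm
      rw [nb_Ed hr hy, ← popc_eq _ (rowOf_lt r y)]; omega
  · apply PairOK.symm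
    apply light_pair hr hm
    rw [nb_Ed' hr (by omega)]; simp

theorem chk_spec {m j r b c : ℕ} (hr : Valid r) (hb : Valid b) (hm : m ≤ 4) (hj : j ≤ 3)
    (hc : c < 16) (hd : ∀ e ∈ Ed r, e ∉ Ed b) (h : chk m j c r b = true) :
    Far m (Ed r) (Ed b) ∧ FarB j (Ed r) (Ed b) c := by
  have h' : cond (outer 5 9 m (heavy 16 0 r b))
    (inner 4 7 j c (rowOf r c) (cmask (rowOf b c) c) (heavy 16 0 r b)) false = true := h
  rw [cond_true_iff] at h'
  exact ⟨chkFar_spec hr hb hm hd h'.1, chkB_spec hr hb hj hc hd h'.2⟩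

/-- the graph `b` has a book with `k` pages and spine `x y` -/
def bkb (k b x y : ℕ) : Bool :=
  cond (Nat.beq (bitOf b x y) 1) (Nat.ble k (popc (Nat.land (rowOf b x) (rowOf b y)))) false

theorem bkb_spec {k b x y : ℕ} (hb : Valid b) (hx : x < 16) (hy : y < 16)
    (h : bkb k b x y = true) : Bk k (↑(Ed b) : Set (Sym2 ℕ)) x y := by
  unfold bkb at h
  rw [cond_true_iff, beq_true_iff, ble_true_iff, bitOf_eq] at h
  obtain ⟨h1, h2⟩ := h
  have hbit : b.testBit (16 * x + y) = true := by
    by_contra hcon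
    rw [if_neg hcon] at h1
    omega
  have hxy : x ≠ y := by
    rintro rfl
    rw [hb.irrefl x hx] at hbit
    exact absurd hbit (by simp)
  refine ⟨hxy, by exact_mod_cast (mem_Ed hb x y).2 ⟨hx, hy, hbit⟩,
    rowSet (Nat.land (rowOf b x) (rowOf b y)), ?_, ?_⟩
  · rw [← popc_eq _ (land_lt (rowOf_lt b x))]; exact h2
  · intro p hp
    rw [rowSet_land, Finset.mem_inter, ← nb_Ed hb hx, ← nb_Ed hb hy, mem_nb, mem_nb] at hp
    refine ⟨?_, ?_, by exact_mod_cast hp.1, by exact_mod_cast hp.2⟩
    · rintro rfl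
      have := (mem_Ed hb p p).1 hp.1
      rw [hb.irrefl p this.1] at this
      exact absurd this.2.2 (by simp)
    · rintro rfl
      have := (mem_Ed hb p p).1 hp.2
      rw [hb.irrefl p this.1] at this
      exact absurd this.2.2 (by simp)

end Pool.Agent.H50.Book
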