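import Mathlib

set_option autoImplicit false

namespace Pool.Agent.H50.Book

/-- the `j`-th move of a play is a new edge of the complete graph on `ℕ` -/
def Legal (m : ℕ → Sym2 ℕ) (j : ℕ) : Prop :=
  ¬ (m j).IsDiag ∧ ∀ i : ℕ, i < j → m i ≠ m j

/-- the edge set `S` contains a copy of `H` -/
def Copy {k : ℕ} (H : SimpleGraph (Fin k)) (S : Set (Sym2 ℕ)) : Prop :=
  ∃ f : Fin k → ℕ, Function.Injective f ∧ ∀ a b : Fin k, H.Adj a b → s(f a, f b) ∈ S

/-- first player has a winning strategy in the strong Ramsey game on `K_ω` with target `H` -/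
def P1Win {k : ℕ} (H : SimpleGraph (Fin k)) : Prop :=
  ∃ σ : List (Sym2 ℕ) → Sym2 ℕ, ∀ m : ℕ → Sym2 ℕ,
    (∀ n : ℕ, m (2 * n) = σ ((List.range (2 * n)).map m)) →
    (∀ n : ℕ, Legal m (2 * n + 1)) →
    ∃ N : ℕ, (∀ j : ℕ, j ≤ N → Even j → Legal m j) ∧
      Copy H {e | ∃ i : ℕ, i ≤ N ∧ Even i ∧ m i = e} ∧
      ¬ Copy H {e | ∃ i : ℕ, i < N ∧ Odd i ∧ m i = e}

/-- second player has a winning strategy in the strong Ramsey game on `K_ω` with target `H` -/
def P2Win {k : ℕ} (H : SimpleGraph (Fin k)) : Prop :=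
  ∃ τ : List (Sym2 ℕ) → Sym2 ℕ, ∀ m : ℕ → Sym2 ℕ,
    (∀ n : ℕ, m (2 * n + 1) = τ ((List.range (2 * n + 1)).map m)) →
    (∀ n : ℕ, Legal m (2 * n)) →
    ∃ N : ℕ, (∀ j : ℕ, j ≤ N → Odd j → Legal m j) ∧
      Copy H {e | ∃ i : ℕ, i ≤ N ∧ Odd i ∧ m i = e} ∧
      ¬ Copy H {e | ∃ i : ℕ, i < N ∧ Even i ∧ m i = e}

/-- the graph `K_6 \ K_4` -/
def G64 : SimpleGraph (Fin 6) where
  Adj i j := i ≠ j ∧ (i.val < 2 ∨ j.val < 2)
  symm := ⟨fun _ _ h => ⟨h.1.symm, h.2.symm⟩⟩
  loopless := ⟨fun _ h => h.1 rfl⟩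

/-- `S` contains a book with `k` pages and spine `a b` -/
def Bk (k : ℕ) (S : Set (Sym2 ℕ)) (a b : ℕ) : Prop :=
  a ≠ b ∧ s(a, b) ∈ S ∧ ∃ P : Finset ℕ, k ≤ P.card ∧
    ∀ p ∈ P, p ≠ a ∧ p ≠ b ∧ s(a, p) ∈ S ∧ s(b, p) ∈ S

/-- `S` contains a book with four pages -/
def HasBook (S : Set (Sym2 ℕ)) : Prop := ∃ a b : ℕ, Bk 4 S a b

theorem Bk.mono {k : ℕ} {S T : Set (Sym2 ℕ)} (h : S ⊆ T) {a b : ℕ} (H : Bk k S a b) :
    Bk k T a b := by
  obtain ⟨hab, hs, P, hP, hp⟩ := H
  exact ⟨hab, h hs, P, hP, fun p hpP => ⟨(hp p hpP).1, (hp p hpP).2.1, h (hp p hpP).2.2.1,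
    h (hp p hpP).2.2.2⟩⟩

theorem Bk.symm {k : ℕ} {S : Set (Sym2 ℕ)} {a b : ℕ} (H : Bk k S a b) : Bk k S b a := by
  obtain ⟨hab, hs, P, hP, hp⟩ := H
  refine ⟨hab.symm, by rwa [Sym2.eq_swap], P, hP, fun p hpP => ⟨(hp p hpP).2.1, (hp p hpP).1,
    (hp p hpP).2.2.2, (hp p hpP).2.2.1⟩⟩

theorem HasBook.mono {S T : Set (Sym2 ℕ)} (h : S ⊆ T) (H : HasBook S) : HasBook T := by
  obtain ⟨a, b, hab⟩ := H
  exact ⟨a, b, hab.mono h⟩

theorem copy_iff (S : Set (Sym2 ℕ)) : Copy G64 S ↔ HasBook S := by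
  constructor
  · rintro ⟨f, hf, hS⟩
    refine ⟨f 0, f 1, ?_, hS 0 1 ⟨by decide, by decide⟩, ?_⟩
    · intro h; exact absurd (hf h) (by decide)
    · refine ⟨Finset.image f {2, 3, 4, 5}, ?_, ?_⟩
      · rw [Finset.card_image_of_injective _ hf]; decide
      · intro p hp
        rw [Finset.mem_image] at hp
        obtain ⟨i, hi, rfl⟩ := hp
        have hi2 : 2 ≤ i.val := by
          fin_cases i <;> simp_all
        have h0 : (0 : Fin 6) ≠ i := by
          intro h; rw [← h] at hi2; simp at hi2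
        have h1 : (1 : Fin 6) ≠ i := by
          intro h; rw [← h] at hi2; simp at hi2
        refine ⟨fun h => h0 (hf h).symm, fun h => h1 (hf h).symm,
          hS 0 i ⟨h0, Or.inl (by decide)⟩, hS 1 i ⟨h1, Or.inl (by decide)⟩⟩
  · rintro ⟨a, b, hab, hs, P, hP, hp⟩
    obtain ⟨Q, hQP, hQ⟩ := Finset.exists_subset_card_eq hP
    have e := Q.orderIsoOfFin hQ
    let g : Fin 6 → ℕ := fun i =>
      if h0 : i.val = 0 then a else if h1 : i.val = 1 then b else
        (e ⟨i.val - 2, by omega⟩ : ℕ)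
    have g0 : g 0 = a := rfl
    have g1 : g 1 = b := rfl
    have gi : ∀ i : Fin 6, 2 ≤ i.val → g i ∈ Q := by
      intro i hi
      have : g i = (e ⟨i.val - 2, by omega⟩ : ℕ) := by
        simp only [g]
        rw [dif_neg (by omega), dif_neg (by omega)]
      rw [this]
      exact (e ⟨i.val - 2, by omega⟩).2
    have hinj : Function.Injective g := by
      intro i j hij
      by_cases hi : 2 ≤ i.val
      · by_cases hj : 2 ≤ j.val
        · have hi' : g i = (e ⟨i.val - 2, by omega⟩ : ℕ) := by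
            simp only [g]
            rw [dif_neg (by omega), dif_neg (by omega)]
          have hj' : g j = (e ⟨j.val - 2, by omega⟩ : ℕ) := by
            simp only [g]
            rw [dif_neg (by omega), dif_neg (by omega)]
          rw [hi', hj'] at hij
          have := e.injective (Subtype.ext hij)
          have h2 : i.val - 2 = j.val - 2 := by simpa using this
          exact Fin.ext (by omega)
        · exfalso
          have h := hp _ (hQP (gi i hi))
          have hj2 : j = 0 ∨ j = 1 := by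
            have : j.val = 0 ∨ j.val = 1 := by omega
            rcases this with h | h
            · left; exact Fin.ext h
            · right; exact Fin.ext h
          rcases hj2 with rfl | rfl
          · exact h.1 (hij.trans g0)
          · exact h.2.1 (hij.trans g1)
      · by_cases hj : 2 ≤ j.val
        · exfalso
          have h := hp _ (hQP (gi j hj))
          have hi2 : i = 0 ∨ i = 1 := by
            have : i.val = 0 ∨ i.val = 1 := by omega
            rcases this with h | h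
            · left; exact Fin.ext h
            · right; exact Fin.ext h
          rcases hi2 with rfl | rfl
          · exact h.1 (hij.symm.trans g0)
          · exact h.2.1 (hij.symm.trans g1)
        · have hi2 : i = 0 ∨ i = 1 := by
            have : i.val = 0 ∨ i.val = 1 := by omega
            rcases this with h | h
            · left; exact Fin.ext h
            · right; exact Fin.ext h
          have hj2 : j = 0 ∨ j = 1 := by
            have : j.val = 0 ∨ j.val = 1 := by omega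
            rcases this with h | h
            · left; exact Fin.ext h
            · right; exact Fin.ext h
          rcases hi2 with rfl | rfl <;> rcases hj2 with rfl | rfl
          · rfl
          · exact absurd (g0.symm.trans (hij.trans g1)) hab
          · exact absurd (g0.symm.trans (hij.symm.trans g1)) hab
          · rfl
    have key : ∀ i j : Fin 6, i ≠ j → i.val < 2 → s(g i, g j) ∈ S := by
      intro i j hij hi
      have hi2 : i = 0 ∨ i = 1 := by
        have : i.val = 0 ∨ i.val = 1 := by omega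
        rcases this with h | h
        · left; exact Fin.ext h
        · right; exact Fin.ext h
      by_cases hj : 2 ≤ j.val
      · have h := hp _ (hQP (gi j hj))
        rcases hi2 with rfl | rfl
        · rw [g0]; exact h.2.2.1
        · rw [g1]; exact h.2.2.2
      · have hj2 : j = 0 ∨ j = 1 := by
          have : j.val = 0 ∨ j.val = 1 := by omega
          rcases this with h | h
          · left; exact Fin.ext h
          · right; exact Fin.ext h
        rcases hi2 with rfl | rfl <;> rcases hj2 with rfl | rfl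
        · exact absurd rfl hij
        · rw [g0, g1]; exact hs
        · rw [g0, g1, Sym2.eq_swap]; exact hs
        · exact absurd rfl hij
    refine ⟨g, hinj, fun i j hij => ?_⟩
    rcases hij.2 with h | h
    · exact key i j hij.1 h
    · rw [Sym2.eq_swap]; exact key j i hij.1.symm h

/-- a position: edges of the attacker (red) and of the defender (blue) -/
abbrev Pos := Finset (Sym2 ℕ) × Finset (Sym2 ℕ)

/-- `e` may be claimed at position `(R, B)` -/
def Ok (R B : Finset (Sym2 ℕ)) (e : Sym2 ℕ) : Prop := ¬ e.IsDiag ∧ e ∉ R ∧ e ∉ B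

/-- a set of positions (attacker to move) which the defender can maintain -/
def Closed (S : Set Pos) : Prop :=
  ∀ p ∈ S, ∀ e : Sym2 ℕ, Ok p.1 p.2 e →
    ¬ HasBook (↑(insert e p.1) : Set (Sym2 ℕ)) ∧
    ∃ f : Sym2 ℕ, Ok (insert e p.1) p.2 f ∧
      (HasBook (↑(insert f p.2) : Set (Sym2 ℕ)) ∨ (insert e p.1, insert f p.2) ∈ S)

/-- attacker to move; the defender can prevent the attacker from completing a book first -/
def Safe (R B : Finset (Sym2 ℕ)) : Prop := ∃ S : Set Pos, Closed S ∧ (R, B) ∈ S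

/-- defender to move -/
def SafeB (R B : Finset (Sym2 ℕ)) : Prop :=
  ∃ f : Sym2 ℕ, Ok R B f ∧ (HasBook (↑(insert f B) : Set (Sym2 ℕ)) ∨ Safe R (insert f B))

theorem safe_iff (R B : Finset (Sym2 ℕ)) :
    Safe R B ↔ ∀ e : Sym2 ℕ, Ok R B e →
      ¬ HasBook (↑(insert e R) : Set (Sym2 ℕ)) ∧ SafeB (insert e R) B := by
  constructor
  · rintro ⟨S, hS, hm⟩ e he
    obtain ⟨h1, f, hf, h2⟩ := hS _ hm e he
    refine ⟨h1, f, hf, ?_⟩
    rcases h2 with h2 | h2
    · exact Or.inl h2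
    · exact Or.inr ⟨S, hS, h2⟩
  · intro h
    refine ⟨{p | p = (R, B) ∨ Safe p.1 p.2}, ?_, Or.inl rfl⟩
    rintro p (rfl | hp) e he
    · obtain ⟨h1, f, hf, h2⟩ := h e he
      refine ⟨h1, f, hf, ?_⟩
      rcases h2 with h2 | h2
      · exact Or.inl h2
      · exact Or.inr (Or.inr h2)
    · obtain ⟨S, hS, hm⟩ := hp
      obtain ⟨h1, f, hf, h2⟩ := hS _ hm e he
      refine ⟨h1, f, hf, ?_⟩
      rcases h2 with h2 | h2
      · exact Or.inl h2
      · exact Or.inr (Or.inr ⟨S, hS, h2⟩)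

theorem exists_fresh (F : Finset ℕ) : ∃ w : ℕ, w ∉ F := Infinite.exists_notMem_finset F

/-- the vertices touched by a finite set of edges -/
def verts (R : Finset (Sym2 ℕ)) : Finset ℕ := R.biUnion (fun e => e.toFinset)

theorem mem_verts {R : Finset (Sym2 ℕ)} {e : Sym2 ℕ} (he : e ∈ R) {x : ℕ} (hx : x ∈ e) :
    x ∈ verts R := by
  unfold verts
  rw [Finset.mem_biUnion]
  exact ⟨e, he, by simpa using hx⟩

theorem not_mem_of_fresh {R : Finset (Sym2 ℕ)} {x y : ℕ} (h : x ∉ verts R) : s(x, y) ∉ R :=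
  fun h2 => h (mem_verts h2 (by simp))

theorem exists_ok (R B : Finset (Sym2 ℕ)) : ∃ f : Sym2 ℕ, Ok R B f := by
  obtain ⟨x, hx⟩ := exists_fresh (verts R ∪ verts B)
  obtain ⟨y, hy⟩ := exists_fresh {x}
  rw [Finset.notMem_union] at hx
  refine ⟨s(x, y), ?_, not_mem_of_fresh hx.1, not_mem_of_fresh hx.2⟩
  rw [Sym2.mk_isDiag_iff]
  intro h
  exact hy (by simp [h])

theorem Safe.mono {R B R' B' : Finset (Sym2 ℕ)} (h : Safe R' B') (hR : R ⊆ R') (hB : B' ⊆ B) :
    Safe R B := by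
  obtain ⟨S, hS, hm⟩ := h
  refine ⟨{p | ∃ q ∈ S, p.1 ⊆ q.1 ∧ q.2 ⊆ p.2}, ?_, ⟨(R', B'), hm, hR, hB⟩⟩
  rintro ⟨R, B⟩ ⟨⟨R', B'⟩, hq, hR, hB⟩ e he
  simp only at hR hB he ⊢
  -- the virtual attacker move
  obtain ⟨e', he', hsub⟩ : ∃ e', Ok R' B' e' ∧ insert e R ⊆ insert e' R' := by
    by_cases h : e ∈ R'
    · obtain ⟨e', he'⟩ := exists_ok R' B'
      refine ⟨e', he', ?_⟩
      intro x hx
      rw [Finset.mem_insert] at hx ⊢
      rcases hx with rfl | hx
      · exact Or.inr h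
      · exact Or.inr (hR hx)
    · exact ⟨e, ⟨he.1, h, fun h2 => he.2.2 (hB h2)⟩, Finset.insert_subset_insert _ hR⟩
  obtain ⟨h1, f, hf, h2⟩ := hS _ hq e' he'
  simp only at h1 hf h2
  refine ⟨fun hb => h1 (hb.mono (by exact_mod_cast hsub)), ?_⟩
  by_cases hfB : f ∈ B
  · obtain ⟨g, hg⟩ := exists_ok (insert e R) B
    have hs : insert f B' ⊆ insert g B := by
      intro x hx
      rw [Finset.mem_insert] at hx ⊢
      rcases hx with rfl | hx
      · exact Or.inr hfB
      · exact Or.inr (hB hx)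
    refine ⟨g, hg, ?_⟩
    rcases h2 with h2 | h2
    · exact Or.inl (h2.mono (by exact_mod_cast hs))
    · exact Or.inr ⟨_, h2, hsub, hs⟩
  · have hs : insert f B' ⊆ insert f B := Finset.insert_subset_insert _ hB
    refine ⟨f, ⟨hf.1, fun h => hf.2.1 (hsub h), hfB⟩, ?_⟩
    rcases h2 with h2 | h2
    · exact Or.inl (h2.mono (by exact_mod_cast hs))
    · exact Or.inr ⟨_, h2, hsub, hs⟩

theorem SafeB.mono {R B R' B' : Finset (Sym2 ℕ)} (h : SafeB R' B') (hR : R ⊆ R') (hB : B' ⊆ B) :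
    SafeB R B := by
  obtain ⟨f, hf, h2⟩ := h
  by_cases hfB : f ∈ B
  · obtain ⟨g, hg⟩ := exists_ok R B
    have hs : insert f B' ⊆ insert g B := by
      intro x hx
      rw [Finset.mem_insert] at hx ⊢
      rcases hx with rfl | hx
      · exact Or.inr hfB
      · exact Or.inr (hB hx)
    refine ⟨g, hg, ?_⟩
    rcases h2 with h2 | h2
    · exact Or.inl (h2.mono (by exact_mod_cast hs))
    · exact Or.inr (h2.mono hR hs)
  · have hs : insert f B' ⊆ insert f B := Finset.insert_subset_insert _ hB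
    refine ⟨f, ⟨hf.1, fun h => hf.2.1 (hR h), hfB⟩, ?_⟩
    rcases h2 with h2 | h2
    · exact Or.inl (h2.mono (by exact_mod_cast hs))
    · exact Or.inr (h2.mono hR hs)

/-- relabelling of vertices -/
def rel (π : Equiv.Perm ℕ) (R : Finset (Sym2 ℕ)) : Finset (Sym2 ℕ) := R.image (Sym2.map π)

theorem map_inj (π : Equiv.Perm ℕ) : Function.Injective (Sym2.map π) :=
  Sym2.map.injective π.injective

theorem rel_insert (π : Equiv.Perm ℕ) (R : Finset (Sym2 ℕ)) (e : Sym2 ℕ) :
    rel π (insert e R) = insert (Sym2.map π e) (rel π R) := by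
  unfold rel; rw [Finset.image_insert]

theorem map_symm_map (π : Equiv.Perm ℕ) (e : Sym2 ℕ) : Sym2.map π (Sym2.map π.symm e) = e := by
  rw [Sym2.map_map]
  simp

theorem map_map_symm (π : Equiv.Perm ℕ) (e : Sym2 ℕ) : Sym2.map π.symm (Sym2.map π e) = e := by
  rw [Sym2.map_map]
  simp

theorem isDiag_map (π : Equiv.Perm ℕ) (e : Sym2 ℕ) : (Sym2.map π e).IsDiag ↔ e.IsDiag :=
  Sym2.isDiag_map π.injective

theorem mem_rel (π : Equiv.Perm ℕ) (R : Finset (Sym2 ℕ)) (e : Sym2 ℕ) :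
    Sym2.map π e ∈ rel π R ↔ e ∈ R := by
  unfold rel
  rw [Finset.mem_image]
  constructor
  · rintro ⟨a, ha, h⟩
    rwa [← map_inj π h]
  · intro h
    exact ⟨e, h, rfl⟩

theorem ok_rel (π : Equiv.Perm ℕ) (R B : Finset (Sym2 ℕ)) (e : Sym2 ℕ) :
    Ok (rel π R) (rel π B) (Sym2.map π e) ↔ Ok R B e := by
  unfold Ok
  rw [isDiag_map, mem_rel, mem_rel]

theorem hasBook_rel (π : Equiv.Perm ℕ) (R : Finset (Sym2 ℕ)) (h : HasBook (↑R : Set (Sym2 ℕ))) :
    HasBook (↑(rel π R) : Set (Sym2 ℕ)) := by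
  obtain ⟨a, b, hab, hs, P, hP, hp⟩ := h
  have key : ∀ x y : ℕ, s(x, y) ∈ (↑R : Set (Sym2 ℕ)) → s(π x, π y) ∈ (↑(rel π R) : Set (Sym2 ℕ)) := by
    intro x y h
    have := (mem_rel π R s(x, y)).2 (by exact_mod_cast h)
    rw [Sym2.map_mk] at this
    exact_mod_cast this
  refine ⟨π a, π b, fun h => hab (π.injective h), key _ _ hs, P.image π, ?_, ?_⟩
  · rwa [Finset.card_image_of_injective _ π.injective]
  · intro p hp'
    rw [Finset.mem_image] at hp'
    obtain ⟨q, hq, rfl⟩ := hp'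
    have := hp q hq
    exact ⟨fun h => this.1 (π.injective h), fun h => this.2.1 (π.injective h),
      key _ _ this.2.2.1, key _ _ this.2.2.2⟩

theorem rel_symm_rel (π : Equiv.Perm ℕ) (R : Finset (Sym2 ℕ)) : rel π.symm (rel π R) = R := by
  ext e
  constructor
  · intro h
    have h2 := (mem_rel π.symm (rel π R) (Sym2.map π e)).1 (by rwa [map_map_symm])
    exact (mem_rel π R e).1 h2
  · intro h
    have h2 : Sym2.map π.symm (Sym2.map π e) ∈ rel π.symm (rel π R) :=
      (mem_rel π.symm (rel π R) _).2 ((mem_rel π R e).2 h)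
    rwa [map_map_symm] at h2

theorem rel_rel_symm (π : Equiv.Perm ℕ) (R : Finset (Sym2 ℕ)) : rel π (rel π.symm R) = R := by
  have := rel_symm_rel π.symm R
  simpa using this

theorem Safe.rel {R B : Finset (Sym2 ℕ)} (h : Safe R B) (π : Equiv.Perm ℕ) :
    Safe (rel π R) (rel π B) := by
  obtain ⟨S, hS, hm⟩ := h
  refine ⟨{p | ∃ q ∈ S, p.1 = Book.rel π q.1 ∧ p.2 = Book.rel π q.2}, ?_, ⟨(R, B), hm, rfl, rfl⟩⟩
  rintro ⟨R, B⟩ ⟨⟨R', B'⟩, hq, hR, hB⟩ e he
  simp only at hR hB he ⊢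
  subst hR hB
  obtain ⟨e', rfl⟩ : ∃ e', Sym2.map π e' = e := ⟨Sym2.map π.symm e, map_symm_map π e⟩
  rw [ok_rel] at he
  obtain ⟨h1, f, hf, h2⟩ := hS _ hq e' he
  simp only at h1 hf h2
  rw [← rel_insert]
  refine ⟨fun hb => h1 ?_, Sym2.map π f, ?_, ?_⟩
  · have := hasBook_rel π.symm _ hb
    rwa [rel_symm_rel] at this
  · rwa [ok_rel]
  · rw [← rel_insert]
    rcases h2 with h2 | h2
    · exact Or.inl (hasBook_rel π _ h2)
    · exact Or.inr ⟨_, h2, rfl, rfl⟩

theorem SafeB.rel {R B : Finset (Sym2 ℕ)} (h : SafeB R B) (π : Equiv.Perm ℕ) :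
    SafeB (rel π R) (rel π B) := by
  obtain ⟨f, hf, h2⟩ := h
  refine ⟨Sym2.map π f, by rwa [ok_rel], ?_⟩
  rw [← rel_insert]
  rcases h2 with h2 | h2
  · exact Or.inl (hasBook_rel π _ h2)
  · exact Or.inr (h2.rel π)

end Pool.Agent.H50.Book
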