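import Pool.Agent.H50.Book.Sound

set_option autoImplicit false

namespace Pool.Agent.H50.Book

theorem bit_zero {r b i j : ℕ} (h : Nat.beq (bitOf (Nat.lor r b) i j) 0 = true) :
    r.testBit (16 * i + j) = false ∧ b.testBit (16 * i + j) = false := by
  rw [beq_true_iff, bitOf_eq, lor_testBit] at h
  by_cases h2 : (r.testBit (16 * i + j) || b.testBit (16 * i + j)) = true
  · rw [if_pos h2] at h; exact absurd h one_ne_zero
  · rw [Bool.not_eq_true, Bool.or_eq_false_iff] at h2
    exact h2

theorem bit_nonzero {r b i j : ℕ} (h : Nat.beq (bitOf (Nat.lor r b) i j) 0 = false) :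
    r.testBit (16 * i + j) = true ∨ b.testBit (16 * i + j) = true := by
  by_contra hc
  rw [not_or, Bool.not_eq_true, Bool.not_eq_true] at hc
  have : Nat.beq (bitOf (Nat.lor r b) i j) 0 = true := by
    rw [beq_true_iff, bitOf_eq, lor_testBit, hc.1, hc.2]
    rfl
  rw [this] at h
  exact absurd h (by simp)

/-- safe after every attacker move inside `s` of the form `i j` -/
def RowGood (r b i m : ℕ) : Prop :=
  ∀ j : ℕ, i < j → j ≤ i + m → s(i, j) ∉ Ed r → s(i, j) ∉ Ed b →
    SafeB (insert s(i, j) (Ed r)) (Ed b)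

theorem jl_succ (T : ℕ → ℕ) (lim r b i m s : ℕ) (k : ℕ → Bool) : jl T lim r b i (m + 1) s k =
    cond (Nat.beq (bitOf (Nat.lor r b) i (Nat.add i (Nat.add m 1))) 0)
        (chkB T lim 12 (addE r i (Nat.add i (Nat.add m 1))) b s (fun s' => jl T lim r b i m s' k))
        (jl T lim r b i m s k) := rfl

theorem jl_sound {T : ℕ → ℕ} {lim : ℕ} (hT : ∀ id < lim, NodeSafe (T id)) {r b i : ℕ}
    (hr : Valid r) (hb : Valid b) (hd : ∀ e ∈ Ed r, e ∉ Ed b) (m : ℕ) :
    ∀ (k : ℕ → Bool) (s : ℕ), i + m < 16 → jl T lim r b i m s k = true →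
      RowGood r b i m ∧ ∃ s', k s' = true := by
  induction m with
  | zero =>
    intro k s _ h
    refine ⟨?_, s, h⟩
    intro j h1 h2
    omega
  | succ m ih =>
    intro k s hm h
    rw [jl_succ] at h
    have ej : Nat.add i (Nat.add m 1) = i + (m + 1) := rfl
    rw [ej] at h
    rcases cond_cases h with ⟨h0, h1⟩ | ⟨h0, h1⟩
    · obtain ⟨hb1, hb2⟩ := bit_zero h0
      have hij : i ≠ i + (m + 1) := by omega
      have hnb : s(i, i + (m + 1)) ∉ Ed b := by
        rw [mem_Ed hb]
        rintro ⟨_, _, h3⟩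
        rw [hb2] at h3
        exact absurd h3 (by simp)
      have hr2 := valid_addE hr (show i < 16 by omega) (show i + (m + 1) < 16 by omega) hij
      have hd2 := disj_addR hr (show i < 16 by omega) (show i + (m + 1) < 16 by omega) hij hd hnb
      obtain ⟨h3, s', h4⟩ := chkB_sound hT 12 _ _ _ _ hr2 hb hd2 h1
      obtain ⟨h5, h6⟩ := ih k s' (by omega) h4
      refine ⟨?_, h6⟩
      intro j hj1 hj2 hj3 hj4
      by_cases hj : j = i + (m + 1)
      · subst hj
        rw [← Ed_addE hr (show i < 16 by omega) (show i + (m + 1) < 16 by omega) hij]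
        exact h3
      · exact h5 j hj1 (by omega) hj3 hj4
    · obtain ⟨h5, h6⟩ := ih k s (by omega) h1
      refine ⟨?_, h6⟩
      intro j hj1 hj2 hj3 hj4
      by_cases hj : j = i + (m + 1)
      · subst hj
        exfalso
        rcases bit_nonzero h0 with h2 | h2
        · exact hj3 ((mem_Ed hr _ _).2 ⟨by omega, by omega, h2⟩)
        · exact hj4 ((mem_Ed hb _ _).2 ⟨by omega, by omega, h2⟩)
      · exact h5 j hj1 (by omega) hj3 hj4

theorem il_succ (T : ℕ → ℕ) (lim r b n t s : ℕ) (k : ℕ → Bool) : il T lim r b n (t + 1) s k =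
    jl T lim r b t (Nat.sub n t) s (fun s' => il T lim r b n t s' k) := rfl

theorem il_sound {T : ℕ → ℕ} {lim : ℕ} (hT : ∀ id < lim, NodeSafe (T id)) {r b n : ℕ}
    (hn : n ≤ 14) (hr : Valid r) (hb : Valid b) (hd : ∀ e ∈ Ed r, e ∉ Ed b) (t : ℕ) :
    ∀ (k : ℕ → Bool) (s : ℕ), t ≤ n → il T lim r b n t s k = true →
      (∀ i < t, RowGood r b i (n - i)) ∧ ∃ s', k s' = true := by
  induction t with
  | zero =>
    intro k s _ h
    exact ⟨fun i hi => absurd hi (Nat.not_lt_zero _), s, h⟩
  | succ t ih =>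
    intro k s ht h
    rw [il_succ] at h
    have ej : Nat.sub n t = n - t := rfl
    rw [ej] at h
    obtain ⟨h1, s', h2⟩ := jl_sound hT hr hb hd (n - t) _ s (by omega) h
    obtain ⟨h3, h4⟩ := ih k s' (by omega) h2
    refine ⟨?_, h4⟩
    intro i hi
    by_cases hit : i = t
    · subst hit; exact h1
    · exact h3 i (by omega)

theorem rel_fix {R : Finset (Sym2 ℕ)} {n : ℕ} (hR : ∀ x y : ℕ, s(x, y) ∈ R → x < n ∧ y < n)
    {π : Equiv.Perm ℕ} (hπ : ∀ w < n, π w = w) : rel π R = R := by
  have key : ∀ x y : ℕ, s(x, y) ∈ R → Sym2.map π s(x, y) = s(x, y) := by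
    intro x y h
    obtain ⟨hx, hy⟩ := hR x y h
    rw [Sym2.map_mk, hπ x hx, hπ y hy]
  ext e
  unfold rel
  rw [Finset.mem_image]
  constructor
  · rintro ⟨a, ha, h⟩
    induction a using Sym2.ind with
    | _ x y =>
      rw [key x y ha] at h
      rwa [← h]
  · intro h
    refine ⟨e, h, ?_⟩
    induction e using Sym2.ind with
    | _ x y => exact key x y h

theorem labels_lt {r b n : ℕ} (h : Nat.beq (Nat.shiftRight (Nat.lor r b) (Nat.mul 16 n)) 0 = true) :
    ∀ p : ℕ, 16 * n ≤ p → r.testBit p = false ∧ b.testBit p = false := by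
  intro p hp
  rw [beq_true_iff] at h
  have e1 : Nat.shiftRight (Nat.lor r b) (Nat.mul 16 n) = (r ||| b) >>> (16 * n) := rfl
  rw [e1] at h
  have h2 : ((r ||| b) >>> (16 * n)).testBit (p - 16 * n) = false := by rw [h]; simp
  rw [Nat.testBit_shiftRight, Nat.testBit_or, show 16 * n + (p - 16 * n) = p by omega,
    Bool.or_eq_false_iff] at h2
  exact h2

theorem ed_lt {r n : ℕ} (hr : Valid r) (h : ∀ p : ℕ, 16 * n ≤ p → r.testBit p = false)
    (x y : ℕ) (hxy : s(x, y) ∈ Ed r) : x < n ∧ y < n := by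
  have h1 := (mem_Ed hr x y).1 hxy
  have h2 := (mem_Ed hr y x).1 (by rwa [Sym2.eq_swap])
  constructor
  · by_contra hc
    have := h (16 * x + y) (by omega)
    rw [h1.2.2] at this
    exact absurd this (by simp)
  · by_contra hc
    have := h (16 * y + x) (by omega)
    rw [h2.2.2] at this
    exact absurd this (by simp)

theorem land_disj {r b : ℕ} (hr : Valid r) (hb : Valid b)
    (h : Nat.beq (Nat.land r b) 0 = true) : ∀ e ∈ Ed r, e ∉ Ed b := by
  intro e
  induction e using Sym2.ind with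
  | _ x y =>
    rw [mem_Ed hr, mem_Ed hb]
    rintro ⟨_, _, h1⟩ ⟨_, _, h2⟩
    rw [beq_true_iff] at h
    have h3 : (Nat.land r b).testBit (16 * x + y) = false := by rw [h]; simp
    rw [land_testBit, h1, h2] at h3
    exact absurd h3 (by simp)

theorem main_sound {T : ℕ → ℕ} {lim : ℕ} (hT : ∀ id < lim, NodeSafe (T id)) {r b n s : ℕ}
    (hr : Valid r) (hb : Valid b) (h : chkMain T lim r b n s = true) : Safe (Ed r) (Ed b) := by
  unfold chkMain at h
  rw [cond_true_iff, cond_true_iff, cond_true_iff, cond_true_iff, ble_true_iff] at h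
  obtain ⟨h1, h2, h3, h4, h5⟩ := h
  have hd := land_disj hr hb h1
  have hlab := labels_lt h2
  have lr := ed_lt hr (fun p hp => (hlab p hp).1)
  have lb := ed_lt hb (fun p hp => (hlab p hp).2)
  have hfar := chkFar_spec hr hb (by norm_num) hd h4
  have en : Nat.add n 1 = n + 1 := rfl
  rw [en] at h5
  have hnn : n ≠ n + 1 := by omega
  have hnb : s(n, n + 1) ∉ Ed b := fun hc => by have := (lb _ _ hc).1; omega
  have hr2 := valid_addE hr (show n < 16 by omega) (show n + 1 < 16 by omega) hnn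
  have hd2 := disj_addR hr (show n < 16 by omega) (show n + 1 < 16 by omega) hnn hd hnb
  obtain ⟨h6, s', h7⟩ := chkB_sound hT 12 _ _ _ _ hr2 hb hd2 h5
  rw [Ed_addE hr (show n < 16 by omega) (show n + 1 < 16 by omega) hnn] at h6
  obtain ⟨h8, -⟩ := il_sound hT h3 hr hb hd n _ s' le_rfl h7
  rw [safe_iff]
  intro e he
  refine ⟨Far.noBook (k := 0) hfar he.2.2, ?_⟩
  -- reduce to x < y
  have key : ∀ x y : ℕ, x < y → Ok (Ed r) (Ed b) s(x, y) →
      SafeB (insert s(x, y) (Ed r)) (Ed b) := by
    intro x y hxy hok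
    by_cases hx : x < n
    · by_cases hy : y ≤ n
      · exact h8 x hx y hxy (by omega) hok.2.1 hok.2.2
      · have h9 := h8 x hx n hx (by omega) (fun hc => by have := (lr _ _ hc).2; omega)
          (fun hc => by have := (lb _ _ hc).2; omega)
        have h10 := h9.rel (Equiv.swap n y)
        have hfix : ∀ w < n, Equiv.swap n y w = w := by
          intro w hw
          exact Equiv.swap_apply_of_ne_of_ne (by omega) (by omega)
        rw [rel_insert, rel_fix lr hfix, rel_fix lb hfix, Sym2.map_mk, hfix x hx,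
          Equiv.swap_apply_left] at h10
        exact h10
    · have hy0 : Equiv.swap n x y ≠ n := by
        intro hc
        have h9 : Equiv.swap n x y = Equiv.swap n x x := by rw [hc, Equiv.swap_apply_right]
        have := (Equiv.swap n x).injective h9
        omega
      have hy1 : n ≤ Equiv.swap n x y := by
        rcases eq_or_ne y n with h9 | h9
        · rw [h9, Equiv.swap_apply_left]; omega
        · rw [Equiv.swap_apply_of_ne_of_ne h9 (by omega)]; omega
      obtain ⟨z, hz⟩ : ∃ z, z = Equiv.swap n x y := ⟨_, rfl⟩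
      rw [← hz] at hy0 hy1
      have hzy : Equiv.swap n x z = y := by rw [hz, Equiv.swap_apply_self]
      let π : Equiv.Perm ℕ := (Equiv.swap n x) * (Equiv.swap (n + 1) z)
      have hπ1 : π n = x := by
        change Equiv.swap n x (Equiv.swap (n + 1) z n) = x
        rw [Equiv.swap_apply_of_ne_of_ne hnn (Ne.symm hy0), Equiv.swap_apply_left]
      have hπ2 : π (n + 1) = y := by
        change Equiv.swap n x (Equiv.swap (n + 1) z (n + 1)) = y
        rw [Equiv.swap_apply_left, hzy]
      have hfix : ∀ w < n, π w = w := by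
        intro w hw
        change Equiv.swap n x (Equiv.swap (n + 1) z w) = w
        rw [Equiv.swap_apply_of_ne_of_ne (show w ≠ n + 1 by omega) (show w ≠ z by omega),
          Equiv.swap_apply_of_ne_of_ne (show w ≠ n by omega) (show w ≠ x by omega)]
      have h10 := h6.rel π
      rw [rel_insert, rel_fix lr hfix, rel_fix lb hfix, Sym2.map_mk, hπ1, hπ2] at h10
      exact h10
  induction e using Sym2.ind with
  | _ x y =>
    rcases lt_trichotomy x y with hlt | heq | hgt
    · exact key x y hlt he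
    · exact absurd ((Sym2.mk_isDiag_iff).2 heq) he.1
    · rw [sw x y] at he ⊢
      exact key y x hgt he

theorem node_sound {T : ℕ → ℕ} {id : ℕ} (hT : ∀ i < id, NodeSafe (T i))
    (h : chkNode T id = true) : NodeSafe (T id) := by
  have h' : cond (hdrOK (hnR (T id)) (hsE (T id))) (cond (hdrOK (hnB (T id)) (hsB (T id)))
      (chkMain T id (bldv idp (hnR (T id)) (hsE (T id)) 0) (bldv idp (hnB (T id)) (hsB (T id)) 0)
        (Nat.land (Nat.shiftRight (hsB (T id)) (Nat.mul 8 (hnB (T id)))) 15)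
        (Nat.shiftRight (Nat.shiftRight (hsB (T id)) (Nat.mul 8 (hnB (T id)))) 4)) false) false
        = true := h
  rw [cond_true_iff, cond_true_iff] at h'
  obtain ⟨h1, h2, h3⟩ := h'
  have hid : ∀ p < 16, (Equiv.refl ℕ) p = lab idp p := fun p hp => (lab_idp p hp).symm
  have e0 : Ed 0 = rel (Equiv.refl ℕ) (Ed 0) := by rw [Ed_zero]; rfl
  obtain ⟨-, v1, -⟩ := bldv_rel hid _ (hsE (T id)) 0 0 h1 valid_zero valid_zero e0
  obtain ⟨-, v2, -⟩ := bldv_rel hid _ (hsB (T id)) 0 0 h2 valid_zero valid_zero e0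
  exact ⟨h1, h2, main_sound hT v1 v2 h3⟩

theorem all_safe {T : ℕ → ℕ} {N : ℕ} (h : ∀ id < N, chkNode T id = true) :
    ∀ id < N, NodeSafe (T id) := by
  intro id
  induction id using Nat.strong_induction_on with
  | _ id ih =>
    intro hid
    exact node_sound (fun i hi => ih i hi (by omega)) (h id hid)

theorem root_safe {T : ℕ → ℕ} {N : ℕ} (h : ∀ id < N, chkNode T id = true) {id : ℕ} (hid : id < N)
    (h0 : hnR (T id) = 0) (h1 : hnB (T id) = 0) : Safe ∅ ∅ := by
  obtain ⟨-, -, hs⟩ := all_safe h id hid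
  rw [h0, h1] at hs
  have e : ∀ s : ℕ, bldv idp 0 s 0 = 0 := fun s => rfl
  rw [e, e, Ed_zero] at hs
  exact hs

theorem chkRange_succ (T : ℕ → ℕ) (lo cnt : ℕ) : chkRange T lo (cnt + 1) =
    cond (chkNode T (Nat.add lo cnt)) (chkRange T lo cnt) false := rfl

theorem chkRange_spec {T : ℕ → ℕ} {lo : ℕ} (cnt : ℕ) (h : chkRange T lo cnt = true) :
    ∀ id : ℕ, lo ≤ id → id < lo + cnt → chkNode T id = true := by
  induction cnt with
  | zero => intro id h1 h2; omega
  | succ cnt ih =>
    intro id h1 h2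
    rw [chkRange_succ, cond_true_iff] at h
    by_cases hc : id = lo + cnt
    · rw [hc]; exact h.1
    · exact ih h.2 id h1 (by omega)

end Pool.Agent.H50.Book
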