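import Pool.Agent.H50.Book.Game

set_option autoImplicit false

namespace Pool.Agent.H50.Book

theorem sw (x y : ℕ) : s(x, y) = s(y, x) := Sym2.eq_swap

/-- fewer than `k` further edges outside `B` never complete a book -/
def Far (k : ℕ) (R B : Finset (Sym2 ℕ)) : Prop :=
  ∀ E : Finset (Sym2 ℕ), E.card < k → (∀ e ∈ E, e ∉ B) →
    ¬ HasBook (↑(R ∪ E) : Set (Sym2 ℕ))

/-- fewer than `k` further edges outside `B` never complete a three page book with spine at `b` -/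
def FarB (k : ℕ) (R B : Finset (Sym2 ℕ)) (b : ℕ) : Prop :=
  ∀ E : Finset (Sym2 ℕ), E.card < k → (∀ e ∈ E, e ∉ B) →
    ∀ z : ℕ, ¬ Bk 3 (↑(R ∪ E) : Set (Sym2 ℕ)) b z

theorem Far.ins {k : ℕ} {R B : Finset (Sym2 ℕ)} (h : Far (k + 1) R B) {e : Sym2 ℕ} (he : e ∉ B) :
    Far k (insert e R) B := by
  intro E hE hEB
  have h2 := h (insert e E) (lt_of_le_of_lt (Finset.card_insert_le _ _) (by omega)) (by
    intro f hf
    rw [Finset.mem_insert] at hf
    rcases hf with rfl | hf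
    · exact he
    · exact hEB f hf)
  rwa [Finset.union_insert, ← Finset.insert_union] at h2

theorem FarB.ins {k : ℕ} {R B : Finset (Sym2 ℕ)} {b : ℕ} (h : FarB (k + 1) R B b) {e : Sym2 ℕ}
    (he : e ∉ B) : FarB k (insert e R) B b := by
  intro E hE hEB
  have h2 := h (insert e E) (lt_of_le_of_lt (Finset.card_insert_le _ _) (by omega)) (by
    intro f hf
    rw [Finset.mem_insert] at hf
    rcases hf with rfl | hf
    · exact he
    · exact hEB f hf)
  rwa [Finset.union_insert, ← Finset.insert_union] at h2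

theorem Far.monoB {k : ℕ} {R B B' : Finset (Sym2 ℕ)} (h : Far k R B) (hB : B ⊆ B') :
    Far k R B' := fun E hE hEB => h E hE (fun e he h2 => hEB e he (hB h2))

theorem FarB.monoB {k : ℕ} {R B B' : Finset (Sym2 ℕ)} {b : ℕ} (h : FarB k R B b) (hB : B ⊆ B') :
    FarB k R B' b := fun E hE hEB => h E hE (fun e he h2 => hEB e he (hB h2))

theorem Far.le {k l : ℕ} {R B : Finset (Sym2 ℕ)} (h : Far k R B) (hl : l ≤ k) :
    Far l R B := fun E hE hEB => h E (by omega) hEB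

theorem FarB.le {k l : ℕ} {R B : Finset (Sym2 ℕ)} {b : ℕ} (h : FarB k R B b) (hl : l ≤ k) :
    FarB l R B b := fun E hE hEB => h E (by omega) hEB

theorem Far.noBook {k : ℕ} {R B : Finset (Sym2 ℕ)} (h : Far (k + 2) R B) {e : Sym2 ℕ} (he : e ∉ B) :
    ¬ HasBook (↑(insert e R) : Set (Sym2 ℕ)) := by
  have := (Far.ins (k := k + 1) h he) ∅ (by simp) (by simp)
  simpa using this

theorem FarB.noB3 {k : ℕ} {R B : Finset (Sym2 ℕ)} {b : ℕ} (h : FarB (k + 1) R B b) (z : ℕ) :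
    ¬ Bk 3 (↑R : Set (Sym2 ℕ)) b z := by
  have := h ∅ (by simp) (by simp) z
  simpa using this

/-- the perpetual threat invariant -/
def TP (a b : ℕ) (R B : Finset (Sym2 ℕ)) : Prop :=
  ∃ w : ℕ, w ≠ a ∧ w ≠ b ∧ a ≠ b ∧ s(a, b) ∈ B ∧
    (∃ P : Finset ℕ, 3 ≤ P.card ∧ w ∉ P ∧
      ∀ p ∈ P, p ≠ a ∧ p ≠ b ∧ s(a, p) ∈ B ∧ s(b, p) ∈ B) ∧
    s(a, w) ∈ B ∧ s(b, w) ∉ B ∧ (∀ y : ℕ, s(w, y) ∉ R) ∧ Far 2 R B ∧
    ∀ z : ℕ, ¬ Bk 3 (↑R : Set (Sym2 ℕ)) b z

theorem tp_start {R B : Finset (Sym2 ℕ)} {a b : ℕ} (h3 : Bk 3 (↑B : Set (Sym2 ℕ)) a b)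
    (hF : Far 2 R B) (hN : ∀ z : ℕ, ¬ Bk 3 (↑R : Set (Sym2 ℕ)) b z) :
    ∃ f : Sym2 ℕ, Ok R B f ∧ TP a b R (insert f B) := by
  obtain ⟨hab, hs, P, hP, hp⟩ := h3
  obtain ⟨w, hw⟩ := exists_fresh (verts R ∪ verts B ∪ {a, b})
  simp only [Finset.mem_union, not_or, Finset.mem_insert, Finset.mem_singleton] at hw
  obtain ⟨⟨hwR, hwB⟩, hwa, hwb⟩ := hw
  have hwP : w ∉ P := by
    intro h
    have := (hp w h).2.2.1
    rw [Sym2.eq_swap] at this
    exact not_mem_of_fresh hwB (by exact_mod_cast this)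
  refine ⟨s(a, w), ⟨?_, ?_, ?_⟩, w, hwa, hwb, hab, ?_, ⟨P, hP, hwP, ?_⟩, ?_, ?_, ?_, ?_, hN⟩
  · rw [Sym2.mk_isDiag_iff]; exact fun h => hwa h.symm
  · rw [Sym2.eq_swap]; exact not_mem_of_fresh hwR
  · rw [Sym2.eq_swap]; exact not_mem_of_fresh hwB
  · exact Finset.mem_insert_of_mem (by exact_mod_cast hs)
  · intro p hpP
    obtain ⟨h1, h2, h3, h4⟩ := hp p hpP
    exact ⟨h1, h2, Finset.mem_insert_of_mem (by exact_mod_cast h3),
      Finset.mem_insert_of_mem (by exact_mod_cast h4)⟩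
  · exact Finset.mem_insert_self _ _
  · rw [Finset.mem_insert, not_or]
    refine ⟨?_, ?_⟩
    · intro h
      rw [Sym2.eq_iff] at h
      rcases h with ⟨h, _⟩ | ⟨h, _⟩
      · exact hab h.symm
      · exact hwb h.symm
    · rw [Sym2.eq_swap]; exact not_mem_of_fresh hwB
  · intro y; exact not_mem_of_fresh hwR
  · exact hF.monoB (Finset.subset_insert _ _)

theorem far_step {R B : Finset (Sym2 ℕ)} {b w : ℕ} (hwb : w ≠ b)
    (hiso : ∀ y : ℕ, s(w, y) ∉ R) (hF : Far 2 R B)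
    (hN : ∀ z : ℕ, ¬ Bk 3 (↑R : Set (Sym2 ℕ)) b z) : Far 2 (insert s(b, w) R) B := by
  intro E hE hEB hb
  obtain ⟨α, β, hαβ, hs, P, hP, hp⟩ := hb
  have hcard : E.card ≤ 1 := by omega
  have mem : ∀ x y : ℕ, s(x, y) ∈ (↑(insert s(b, w) R ∪ E) : Set (Sym2 ℕ)) →
      x = w ∨ y = w ∨ s(x, y) ∈ R ∪ E := by
    intro x y h
    have h' : s(x, y) ∈ insert s(b, w) R ∪ E := by exact_mod_cast h
    rw [Finset.mem_union, Finset.mem_insert] at h'
    rcases h' with (h' | h') | h'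
    · rw [Sym2.eq_iff] at h'
      rcases h' with ⟨_, h⟩ | ⟨h, _⟩
      · exact Or.inr (Or.inl h)
      · exact Or.inl h
    · exact Or.inr (Or.inr (Finset.mem_union_left _ h'))
    · exact Or.inr (Or.inr (Finset.mem_union_right _ h'))
  have memw : ∀ y : ℕ, s(w, y) ∈ (↑(insert s(b, w) R ∪ E) : Set (Sym2 ℕ)) →
      y = b ∨ s(w, y) ∈ E := by
    intro y h
    have h' : s(w, y) ∈ insert s(b, w) R ∪ E := by exact_mod_cast h
    rw [Finset.mem_union, Finset.mem_insert] at h'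
    rcases h' with (h' | h') | h'
    · rw [Sym2.eq_iff] at h'
      rcases h' with ⟨h1, _⟩ | ⟨_, h2⟩
      · exact absurd h1 hwb
      · exact Or.inl h2
    · exact absurd h' (hiso y)
    · exact Or.inr h'
  -- w is not a spine vertex
  have spine : ∀ γ : ℕ, (∀ p ∈ P, s(γ, p) ∈ (↑(insert s(b, w) R ∪ E) : Set (Sym2 ℕ))) → γ ≠ w := by
    rintro γ hγ rfl
    have h1 : (P.erase b).image (fun p => s(γ, p)) ⊆ E := by
      intro e he
      rw [Finset.mem_image] at he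
      obtain ⟨p, hp', rfl⟩ := he
      rw [Finset.mem_erase] at hp'
      rcases memw p (hγ p hp'.2) with h | h
      · exact absurd h hp'.1
      · exact h
    have h2 := Finset.card_le_card h1
    rw [Finset.card_image_of_injective] at h2
    · have := Finset.pred_card_le_card_erase (s := P) (a := b)
      omega
    · intro p q hpq
      exact Sym2.congr_right.1 hpq
  have hα : α ≠ w := spine α (fun p hpP => (hp p hpP).2.2.1)
  have hβ : β ≠ w := spine β (fun p hpP => (hp p hpP).2.2.2)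
  by_cases hwP : w ∈ P
  · have h1 := memw α (by rw [sw w α]; exact (hp w hwP).2.2.1)
    have h2 := memw β (by rw [sw w β]; exact (hp w hwP).2.2.2)
    have hne : s(w, α) ≠ s(w, β) := fun h => hαβ (Sym2.congr_right.1 h)
    -- general closing argument
    have close : ∀ γ δ : ℕ, γ ≠ δ → γ ≠ w → δ ≠ w → γ = b → s(w, δ) ∈ E →
        s(γ, δ) ∈ (↑(insert s(b, w) R ∪ E) : Set (Sym2 ℕ)) →
        (∀ p ∈ P, p ≠ γ ∧ p ≠ δ ∧ s(γ, p) ∈ (↑(insert s(b, w) R ∪ E) : Set (Sym2 ℕ)) ∧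
          s(δ, p) ∈ (↑(insert s(b, w) R ∪ E) : Set (Sym2 ℕ))) → False := by
      intro γ δ hγδ hγw hδw hγb hE2 hsp hpp
      have hEq : ∀ e ∈ E, e = s(w, δ) := by
        intro e he
        exact Finset.card_le_one.1 hcard e he _ hE2
      have inR : ∀ x y : ℕ, x ≠ w → y ≠ w →
          s(x, y) ∈ (↑(insert s(b, w) R ∪ E) : Set (Sym2 ℕ)) → s(x, y) ∈ R := by
        intro x y hx hy h
        rcases mem x y h with h | h | h
        · exact absurd h hx
        · exact absurd h hy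
        · rw [Finset.mem_union] at h
          rcases h with h | h
          · exact h
          · exfalso
            have := hEq _ h
            rw [Sym2.eq_iff] at this
            rcases this with ⟨h, _⟩ | ⟨_, h⟩
            · exact hx h
            · exact hy h
      refine hN δ ⟨by rw [← hγb]; exact hγδ, ?_, P.erase w, ?_, ?_⟩
      · rw [← hγb]; exact_mod_cast inR γ δ hγw hδw hsp
      · rw [Finset.card_erase_of_mem hwP]; omega
      · intro p hp'
        rw [Finset.mem_erase] at hp'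
        obtain ⟨q1, q2, q3, q4⟩ := hpp p hp'.2
        rw [← hγb]
        exact ⟨q1, q2, by exact_mod_cast inR γ p hγw hp'.1 q3,
          by exact_mod_cast inR δ p hδw hp'.1 q4⟩
    rcases h1 with h1 | h1
    · rcases h2 with h2 | h2
      · exact hαβ (h1.trans h2.symm)
      · exact close α β hαβ hα hβ h1 h2 hs hp
    · rcases h2 with h2 | h2
      · exact close β α hαβ.symm hβ hα h2 h1 (by rw [sw β α]; exact hs)
          (fun p hpP => ⟨(hp p hpP).2.1, (hp p hpP).1, (hp p hpP).2.2.2, (hp p hpP).2.2.1⟩)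
      · exact hne (Finset.card_le_one.1 hcard _ h1 _ h2)
  · -- the book avoids w
    apply hF E hE hEB
    have inRE : ∀ x y : ℕ, x ≠ w → y ≠ w →
        s(x, y) ∈ (↑(insert s(b, w) R ∪ E) : Set (Sym2 ℕ)) → s(x, y) ∈ (↑(R ∪ E) : Set (Sym2 ℕ)) := by
      intro x y hx hy h
      rcases mem x y h with h | h | h
      · exact absurd h hx
      · exact absurd h hy
      · exact_mod_cast h
    refine ⟨α, β, hαβ, inRE α β hα hβ hs, P, hP, ?_⟩
    intro p hpP
    have hpw : p ≠ w := fun h => hwP (h ▸ hpP)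
    obtain ⟨q1, q2, q3, q4⟩ := hp p hpP
    exact ⟨q1, q2, inRE α p hα hpw q3, inRE β p hβ hpw q4⟩

theorem nob3_step {R : Finset (Sym2 ℕ)} {b w : ℕ} (hwb : w ≠ b)
    (hiso : ∀ y : ℕ, s(w, y) ∉ R)
    (hN : ∀ z : ℕ, ¬ Bk 3 (↑R : Set (Sym2 ℕ)) b z) :
    ∀ z : ℕ, ¬ Bk 3 (↑(insert s(b, w) R) : Set (Sym2 ℕ)) b z := by
  rintro z ⟨hbz, hs, P, hP, hp⟩
  have mem : ∀ x y : ℕ, s(x, y) ∈ (↑(insert s(b, w) R) : Set (Sym2 ℕ)) →
      s(x, y) = s(b, w) ∨ s(x, y) ∈ R := by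
    intro x y h
    have h' : s(x, y) ∈ insert s(b, w) R := by exact_mod_cast h
    rwa [Finset.mem_insert] at h'
  have hne : P.Nonempty := Finset.card_pos.1 (by omega)
  have hz : z ≠ w := by
    rintro rfl
    obtain ⟨p, hpP⟩ := hne
    obtain ⟨q1, q2, q3, q4⟩ := hp p hpP
    rcases mem _ _ q4 with h | h
    · rw [Sym2.eq_iff] at h
      rcases h with ⟨h, _⟩ | ⟨_, h⟩
      · exact hwb h
      · exact q1 h
    · exact hiso _ h
  have hwP : w ∉ P := by
    intro h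
    obtain ⟨q1, q2, q3, q4⟩ := hp w h
    rcases mem _ _ q4 with h | h
    · rw [Sym2.eq_iff] at h
      rcases h with ⟨h, _⟩ | ⟨_, h⟩
      · exact hbz h.symm
      · exact hwb h
    · rw [Sym2.eq_swap] at h; exact hiso _ h
  have inR : ∀ x y : ℕ, x ≠ w → y ≠ w →
      s(x, y) ∈ (↑(insert s(b, w) R) : Set (Sym2 ℕ)) → s(x, y) ∈ (↑R : Set (Sym2 ℕ)) := by
    intro x y hx hy h
    rcases mem x y h with h | h
    · rw [Sym2.eq_iff] at h
      rcases h with ⟨_, h⟩ | ⟨h, _⟩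
      · exact absurd h hy
      · exact absurd h hx
    · exact_mod_cast h
  refine hN z ⟨hbz, inR _ _ (Ne.symm hwb) hz hs, P, hP, ?_⟩
  intro p hpP
  have hpw : p ≠ w := fun h => hwP (h ▸ hpP)
  obtain ⟨q1, q2, q3, q4⟩ := hp p hpP
  exact ⟨q1, q2, inR _ _ (Ne.symm hwb) hpw q3, inR _ _ hz hpw q4⟩

theorem tp_safe {a b : ℕ} {R B : Finset (Sym2 ℕ)} (h : TP a b R B) : Safe R B := by
  refine ⟨{p | TP a b p.1 p.2}, ?_, h⟩
  rintro ⟨R, B⟩ ⟨w, hwa, hwb, hab, hs, ⟨P, hP, hwP, hp⟩, haw, hbw, hiso, hF, hN⟩ e he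
  simp only at he ⊢
  refine ⟨Far.noBook (k := 0) hF he.2.2, ?_⟩
  by_cases heq : e = s(b, w)
  · subst heq
    obtain ⟨f, hf, htp⟩ := tp_start (R := insert s(b, w) R) (B := B) (a := a) (b := b)
      ⟨hab, by exact_mod_cast hs, P, hP, fun p hpP => ⟨(hp p hpP).1, (hp p hpP).2.1,
        by exact_mod_cast (hp p hpP).2.2.1, by exact_mod_cast (hp p hpP).2.2.2⟩⟩
      (far_step hwb hiso hF hN) (nob3_step hwb hiso hN)
    exact ⟨f, hf, Or.inr htp⟩
  · refine ⟨s(b, w), ⟨?_, ?_, hbw⟩, Or.inl ?_⟩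
    · rw [Sym2.mk_isDiag_iff]; exact fun h => hwb h.symm
    · rw [Finset.mem_insert, not_or]
      refine ⟨fun h => heq h.symm, ?_⟩
      rw [Sym2.eq_swap]; exact hiso b
    · refine ⟨a, b, hab, ?_, insert w P, ?_, ?_⟩
      · exact_mod_cast Finset.mem_insert_of_mem hs
      · rw [Finset.card_insert_of_notMem hwP]; omega
      · intro p hp'
        rw [Finset.mem_insert] at hp'
        rcases hp' with rfl | hp'
        · refine ⟨hwa, hwb, ?_, ?_⟩
          · exact_mod_cast Finset.mem_insert_of_mem haw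
          · exact_mod_cast Finset.mem_insert_self _ _
        · obtain ⟨q1, q2, q3, q4⟩ := hp p hp'
          refine ⟨q1, q2, ?_, ?_⟩
          · exact_mod_cast Finset.mem_insert_of_mem q3
          · exact_mod_cast Finset.mem_insert_of_mem q4

/-- rule TB -/
theorem ruleTB {R B : Finset (Sym2 ℕ)} {a b : ℕ} (h3 : Bk 3 (↑B : Set (Sym2 ℕ)) a b)
    (hF : Far 2 R B) (hN : FarB 1 R B b) : SafeB R B := by
  obtain ⟨f, hf, h⟩ := tp_start h3 hF (fun z => hN.noB3 z)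
  exact ⟨f, hf, Or.inr (tp_safe h)⟩

/-- rule L1 -/
theorem ruleL1 {R B : Finset (Sym2 ℕ)} {a b : ℕ} (h3 : Bk 3 (↑B : Set (Sym2 ℕ)) a b)
    (hF : Far 3 R B) (hN : FarB 2 R B b) : Safe R B := by
  rw [safe_iff]
  intro e he
  exact ⟨Far.noBook (k := 1) hF he.2.2, ruleTB h3 (hF.ins he.2.2) (hN.ins he.2.2)⟩

/-- rule D -/
theorem ruleD {R B : Finset (Sym2 ℕ)} {a b : ℕ} {f : Sym2 ℕ} (hf : Ok R B f)
    (h3 : Bk 3 (↑(insert f B) : Set (Sym2 ℕ)) a b)
    (hF : Far 4 R B) (hN : FarB 3 R B b) (hex : SafeB (insert f R) B) : Safe R B := by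
  rw [safe_iff]
  intro e he
  refine ⟨Far.noBook (k := 2) hF he.2.2, ?_⟩
  by_cases h : e = f
  · subst h; exact hex
  · refine ⟨f, ⟨hf.1, ?_, hf.2.2⟩, Or.inr ?_⟩
    · rw [Finset.mem_insert, not_or]; exact ⟨fun h2 => h h2.symm, hf.2.1⟩
    · exact ruleL1 h3 ((hF.ins he.2.2).monoB (Finset.subset_insert _ _))
        ((hN.ins he.2.2).monoB (Finset.subset_insert _ _))

/-- rule F -/
theorem ruleF {R B : Finset (Sym2 ℕ)} {g : Sym2 ℕ} (hg : Ok R B g)
    (h4 : HasBook (↑(insert g B) : Set (Sym2 ℕ))) (hF : Far 2 R B)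
    (hex : SafeB (insert g R) B) : Safe R B := by
  rw [safe_iff]
  intro e he
  refine ⟨Far.noBook (k := 0) hF he.2.2, ?_⟩
  by_cases h : e = g
  · subst h; exact hex
  · refine ⟨g, ⟨hg.1, ?_, hg.2.2⟩, Or.inl h4⟩
    rw [Finset.mem_insert, not_or]; exact ⟨fun h2 => h h2.symm, hg.2.1⟩

end Pool.Agent.H50.Book
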