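import Pool.Agent.H50.Book.Checker

set_option autoImplicit false

namespace Pool.Agent.H50.Book

theorem land_le_right (a b : ℕ) : Nat.land a b ≤ b := by
  have : Nat.land a b = a &&& b := rfl
  rw [this]; exact Nat.and_le_right

theorem la_lt (s : ℕ) : la s < 16 := lt_of_le_of_lt (land_le_right _ _) (by norm_num)
theorem lb_lt (s : ℕ) : lb s < 16 := lt_of_le_of_lt (land_le_right _ _) (by norm_num)
theorem lab_lt (pm p : ℕ) : lab pm p < 16 := lt_of_le_of_lt (land_le_right _ _) (by norm_num)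

theorem lab_idp : ∀ p : ℕ, p < 16 → lab idp p = p := by
  intro p hp
  have h : ∀ p : Fin 16, lab idp p.val = p.val := by decide +kernel
  exact h ⟨p, hp⟩

theorem legalb_spec {r b i j : ℕ} (hr : Valid r) (hb : Valid b) (hi : i < 16) (hj : j < 16)
    (h : legalb r b i j = true) : i ≠ j ∧ Ok (Ed r) (Ed b) s(i, j) := by
  unfold legalb at h
  have hij : i ≠ j := by
    rintro rfl
    rw [(beq_true_iff i i).2 rfl, cond_true] at h
    exact absurd h (by simp)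
  rw [beq_false_of_ne hij, cond_false, beq_true_iff, bitOf_eq, lor_testBit] at h
  refine ⟨hij, ?_, ?_, ?_⟩
  · rw [Sym2.mk_isDiag_iff]; exact hij
  · rw [mem_Ed hr]
    rintro ⟨_, _, h2⟩
    rw [h2] at h
    simp at h
  · rw [mem_Ed hb]
    rintro ⟨_, _, h2⟩
    rw [h2] at h
    simp at h

theorem disj_addB {r b i j : ℕ} (hb : Valid b) (hi : i < 16) (hj : j < 16)
    (hij : i ≠ j) (hd : ∀ e ∈ Ed r, e ∉ Ed b) (h : s(i, j) ∉ Ed r) :
    ∀ e ∈ Ed r, e ∉ Ed (addE b i j) := by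
  intro e he
  rw [Ed_addE hb hi hj hij, Finset.mem_insert, not_or]
  exact ⟨fun h2 => h (h2 ▸ he), hd e he⟩

theorem disj_addR {r b i j : ℕ} (hr : Valid r) (hi : i < 16) (hj : j < 16)
    (hij : i ≠ j) (hd : ∀ e ∈ Ed r, e ∉ Ed b) (h : s(i, j) ∉ Ed b) :
    ∀ e ∈ Ed (addE r i j), e ∉ Ed b := by
  intro e he
  rw [Ed_addE hr hi hj hij, Finset.mem_insert] at he
  rcases he with rfl | he
  · exact h
  · exact hd e he

/-! ### relabelling -/

theorem pmask_bit (pm n y : ℕ) : (pmask pm n).testBit y = true → ∃ i < n, lab pm i = y := by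
  induction n with
  | zero =>
    intro h
    have h0 : pmask pm 0 = 0 := rfl
    rw [h0] at h
    simp at h
  | succ n ih =>
    intro h
    have h0 : pmask pm (n + 1) = Nat.lor (pmask pm n) (Nat.shiftLeft 1 (lab pm n)) := rfl
    rw [h0, lor_testBit, shl_testBit, Bool.or_eq_true, decide_eq_true_eq] at h
    rcases h with h | h
    · obtain ⟨i, hi, h2⟩ := ih h
      exact ⟨i, by omega, h2⟩
    · exact ⟨n, by omega, h⟩

theorem permOK_spec {pm : ℕ} (h : permOK pm = true) :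
    ∃ π : Equiv.Perm ℕ, ∀ p < 16, π p = lab pm p := by
  unfold permOK at h
  rw [beq_true_iff] at h
  have hsurj : Function.Surjective (fun i : Fin 16 => (⟨lab pm i.val, lab_lt pm i.val⟩ : Fin 16)) := by
    intro y
    have hb : (pmask pm 16).testBit y.val = true := by
      rw [h]
      have e : (65535 : ℕ) = 2 ^ 16 - 1 := by norm_num
      rw [e, Nat.testBit_two_pow_sub_one]
      simp
    obtain ⟨i, hi, h2⟩ := pmask_bit pm 16 y.val hb
    exact ⟨⟨i, hi⟩, Fin.ext h2⟩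
  have hinj := Finite.injective_iff_surjective.2 hsurj
  let f : ℕ → ℕ := fun x => if x < 16 then lab pm x else x
  have hf : Function.Bijective f := by
    constructor
    · intro x y hxy
      simp only [f] at hxy
      split_ifs at hxy with h1 h2 h2
      · have := @hinj ⟨x, h1⟩ ⟨y, h2⟩ (Fin.ext hxy)
        exact Fin.mk.inj_iff.1 this
      · have := lab_lt pm x; omega
      · have := lab_lt pm y; omega
      · exact hxy
    · intro y
      by_cases hy : y < 16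
      · obtain ⟨x, hx⟩ := hsurj ⟨y, hy⟩
        refine ⟨x.val, ?_⟩
        simp only [f]
        rw [if_pos x.2]
        exact Fin.mk.inj_iff.1 hx
      · exact ⟨y, by simp [f, hy]⟩
  refine ⟨Equiv.ofBijective f hf, ?_⟩
  intro p hp
  simp [f, hp]

theorem bldv_succ (pm n s acc : ℕ) : bldv pm (n + 1) s acc =
    bldv pm n (Nat.shiftRight s 8) (addE acc (lab pm (la s)) (lab pm (lb s))) := rfl

theorem hdrOK_succ (n s : ℕ) : hdrOK (n + 1) s =
    cond (Nat.beq (la s) (lb s)) false (hdrOK n (Nat.shiftRight s 8)) := rfl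

theorem hdrOK_step {n s : ℕ} (h : hdrOK (n + 1) s = true) :
    la s ≠ lb s ∧ hdrOK n (Nat.shiftRight s 8) = true := by
  rw [hdrOK_succ] at h
  have hne : la s ≠ lb s := by
    intro h2
    rw [(beq_true_iff _ _).2 h2, cond_true] at h
    exact absurd h (by simp)
  rw [beq_false_of_ne hne, cond_false] at h
  exact ⟨hne, h⟩

theorem bldv_rel {pm : ℕ} {π : Equiv.Perm ℕ} (hπ : ∀ p < 16, π p = lab pm p) (n : ℕ) :
    ∀ s acc acc' : ℕ, hdrOK n s = true → Valid acc → Valid acc' → Ed acc' = rel π (Ed acc) →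
      Valid (bldv pm n s acc') ∧ Valid (bldv idp n s acc) ∧
        Ed (bldv pm n s acc') = rel π (Ed (bldv idp n s acc)) := by
  induction n with
  | zero => intro s acc acc' _ h1 h2 h3; exact ⟨h2, h1, h3⟩
  | succ n ih =>
    intro s acc acc' h h1 h2 h3
    obtain ⟨hne, h⟩ := hdrOK_step h
    rw [bldv_succ, bldv_succ, lab_idp _ (la_lt s), lab_idp _ (lb_lt s)]
    have hne' : lab pm (la s) ≠ lab pm (lb s) := by
      rw [← hπ _ (la_lt s), ← hπ _ (lb_lt s)]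
      exact fun h => hne (π.injective h)
    apply ih _ _ _ h (valid_addE h1 (la_lt s) (lb_lt s) hne)
      (valid_addE h2 (lab_lt _ _) (lab_lt _ _) hne')
    rw [Ed_addE h1 (la_lt s) (lb_lt s) hne, Ed_addE h2 (lab_lt _ _) (lab_lt _ _) hne',
      rel_insert, h3, Sym2.map_mk, hπ _ (la_lt s), hπ _ (lb_lt s)]

/-- header of a table entry -/
def hnR (s0 : ℕ) : ℕ := Nat.land s0 15
def hnB (s0 : ℕ) : ℕ := Nat.land (Nat.shiftRight s0 4) 15
def hsE (s0 : ℕ) : ℕ := Nat.shiftRight s0 8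
def hsB (s0 : ℕ) : ℕ := Nat.shiftRight (Nat.shiftRight s0 8) (Nat.mul 8 (Nat.land s0 15))

/-- the position of a table entry is safe -/
def NodeSafe (s0 : ℕ) : Prop :=
  hdrOK (hnR s0) (hsE s0) = true ∧ hdrOK (hnB s0) (hsB s0) = true ∧
    Safe (Ed (bldv idp (hnR s0) (hsE s0) 0)) (Ed (bldv idp (hnB s0) (hsB s0) 0))

theorem sub_of_land {a b : ℕ} (ha : Valid a) (hb : Valid b) (h : Nat.land a b = a) :
    Ed a ⊆ Ed b := by
  intro e
  induction e using Sym2.ind with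
  | _ x y =>
    rw [mem_Ed ha, mem_Ed hb]
    rintro ⟨h1, h2, h3⟩
    refine ⟨h1, h2, ?_⟩
    rw [← h, land_testBit, Bool.and_eq_true] at h3
    exact h3.2

theorem refb_spec {pm r b s0 : ℕ} (hr : Valid r) (hb : Valid b) (hN : NodeSafe s0)
    (h : refb pm r b s0 = true) : Safe (Ed r) (Ed b) := by
  unfold refb at h
  rw [cond_true_iff, cond_true_iff, beq_true_iff] at h
  obtain ⟨h1, h2, h3⟩ := h
  have h3' := (beq_true_iff _ _).1 h3
  obtain ⟨π, hπ⟩ := permOK_spec h1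
  obtain ⟨n1, n2, n3⟩ := hN
  have e0 : Ed 0 = rel π (Ed 0) := by rw [Ed_zero]; rfl
  obtain ⟨v1, v2, e1⟩ := bldv_rel hπ _ (hsE s0) 0 0 n1 valid_zero valid_zero e0
  obtain ⟨v3, v4, e2⟩ := bldv_rel hπ _ (hsB s0) 0 0 n2 valid_zero valid_zero e0
  have hs := n3.rel π
  rw [← e1, ← e2] at hs
  exact hs.mono (sub_of_land hr v1 h2) (sub_of_land v3 hb h3')

/-- what the checker establishes -/
def Good (r b : ℕ) (k : ℕ → Bool) : Prop := SafeB (Ed r) (Ed b) ∧ ∃ s', k s' = true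

theorem opTB_sound {r b s1 : ℕ} {k : ℕ → Bool} (hr : Valid r) (hb : Valid b)
    (hd : ∀ e ∈ Ed r, e ∉ Ed b) (h : opTB r b s1 k = true) : Good r b k := by
  unfold opTB at h
  rw [cond_true_iff, cond_true_iff] at h
  obtain ⟨h1, h2, h3⟩ := h
  obtain ⟨h4, h5⟩ := chk_spec hr hb (by norm_num) (by norm_num) (lb_lt s1) hd h2
  exact ⟨ruleTB (bkb_spec hb (la_lt _) (lb_lt _) h1) h4 h5, _, h3⟩

theorem mv_safe {r b i j : ℕ} (hb : Valid b) (hi : i < 16) (hj : j < 16)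
    (hij : i ≠ j) (hok : Ok (Ed r) (Ed b) s(i, j)) (h : Safe (Ed r) (Ed (addE b i j))) :
    SafeB (Ed r) (Ed b) := by
  rw [Ed_addE hb hi hj hij] at h
  exact ⟨_, hok, Or.inr h⟩

theorem opL1_sound {r b s1 : ℕ} {k : ℕ → Bool} (hr : Valid r) (hb : Valid b)
    (hd : ∀ e ∈ Ed r, e ∉ Ed b) (h : opL1 r b s1 k = true) : Good r b k := by
  unfold opL1 opL1b at h
  rw [cond_true_iff, cond_true_iff, cond_true_iff] at h
  obtain ⟨h0, h1, h2, h3⟩ := h
  obtain ⟨hij, hok⟩ := legalb_spec hr hb (la_lt _) (lb_lt _) h0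
  have hb' := valid_addE hb (la_lt s1) (lb_lt s1) hij
  have hd' := disj_addB hb (la_lt s1) (lb_lt s1) hij hd hok.2.1
  obtain ⟨h4, h5⟩ := chk_spec hr hb' (by norm_num) (by norm_num) (lb_lt _) hd' h2
  exact ⟨mv_safe hb (la_lt _) (lb_lt _) hij hok
    (ruleL1 (bkb_spec hb' (la_lt _) (lb_lt _) h1) h4 h5), _, h3⟩

theorem opW_sound {r b s1 : ℕ} {k : ℕ → Bool} (hr : Valid r) (hb : Valid b)
    (h : opW r b s1 k = true) : Good r b k := by
  unfold opW opWb at h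
  rw [cond_true_iff, cond_true_iff] at h
  obtain ⟨h0, h1, h3⟩ := h
  obtain ⟨hij, hok⟩ := legalb_spec hr hb (la_lt _) (lb_lt _) h0
  have hb' := valid_addE hb (la_lt s1) (lb_lt s1) hij
  have h2 := bkb_spec hb' (la_lt _) (lb_lt _) h1
  rw [Ed_addE hb (la_lt s1) (lb_lt s1) hij] at h2
  exact ⟨⟨_, hok, Or.inl ⟨_, _, h2⟩⟩, _, h3⟩

theorem opS_sound {r b s1 : ℕ} {k : ℕ → Bool} (hr : Valid r) (hb : Valid b)
    (hd : ∀ e ∈ Ed r, e ∉ Ed b) (h : opS r b s1 k = true) : Good r b k := by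
  unfold opS opSb opSc at h
  rw [cond_true_iff, cond_true_iff, cond_true_iff] at h
  obtain ⟨h0, h1, h2, h3⟩ := h
  obtain ⟨hij, hok⟩ := legalb_spec hr hb (la_lt _) (lb_lt _) h0
  have hb' := valid_addE hb (la_lt s1) (lb_lt s1) hij
  have hd' := disj_addB hb (la_lt s1) (lb_lt s1) hij hd hok.2.1
  exact ⟨mv_safe hb (la_lt _) (lb_lt _) hij hok
    (s2b_sound hr hb' hd' (la_lt _) (lb_lt _) (la_lt _) (lb_lt _) h1 h2), _, h3⟩

theorem opR_sound {T : ℕ → ℕ} {lim r b s1 : ℕ} {k : ℕ → Bool} (hr : Valid r) (hb : Valid b)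
    (hT : ∀ id < lim, NodeSafe (T id)) (h : opR T lim r b s1 k = true) : Good r b k := by
  unfold opR opRb at h
  rw [cond_true_iff, cond_true_iff, cond_true_iff, ble_true_iff] at h
  obtain ⟨h0, h1, h2, h3⟩ := h
  obtain ⟨hij, hok⟩ := legalb_spec hr hb (la_lt _) (lb_lt _) h0
  have hb' := valid_addE hb (la_lt s1) (lb_lt s1) hij
  exact ⟨mv_safe hb (la_lt _) (lb_lt _) hij hok (refb_spec hr hb' (hT _ h1) h2), _, h3⟩

theorem opD_sound {ih : ℕ → ℕ → ℕ → (ℕ → Bool) → Bool} {r b s1 : ℕ} {k : ℕ → Bool}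
    (hr : Valid r) (hb : Valid b) (hd : ∀ e ∈ Ed r, e ∉ Ed b)
    (hih : ∀ r b s, Valid r → Valid b → (∀ e ∈ Ed r, e ∉ Ed b) → ih r b s k = true → Good r b k)
    (h : opD ih r b s1 k = true) : Good r b k := by
  unfold opD opDb opDc at h
  rw [cond_true_iff, cond_true_iff, cond_true_iff, cond_true_iff] at h
  obtain ⟨h0, h1, h2, h3, h4⟩ := h
  obtain ⟨hij, hok⟩ := legalb_spec hr hb (la_lt _) (lb_lt _) h0
  have hb' := valid_addE hb (la_lt s1) (lb_lt s1) hij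
  have hd' := disj_addB hb (la_lt s1) (lb_lt s1) hij hd hok.2.1
  obtain ⟨hij2, hok2⟩ := legalb_spec hr hb' (la_lt _) (lb_lt _) h1
  have hr2 := valid_addE hr (la_lt (Nat.shiftRight s1 8)) (lb_lt (Nat.shiftRight s1 8)) hij2
  have hb2 := valid_addE hb' (la_lt (Nat.shiftRight s1 8)) (lb_lt (Nat.shiftRight s1 8)) hij2
  have hd2 := disj_addR hr (la_lt (Nat.shiftRight s1 8)) (lb_lt (Nat.shiftRight s1 8)) hij2 hd'
    hok2.2.2
  obtain ⟨h5, h6⟩ := chk_spec hr hb' (by norm_num) (by norm_num) (lb_lt _) hd' h3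
  obtain ⟨h7, h8⟩ := hih _ _ _ hr2 hb' hd2 h4
  refine ⟨mv_safe hb (la_lt _) (lb_lt _) hij hok ?_, h8⟩
  rw [Ed_addE hr (la_lt _) (lb_lt _) hij2] at h7
  have h9 := bkb_spec hb2 (la_lt _) (lb_lt _) h2
  rw [Ed_addE hb' (la_lt _) (lb_lt _) hij2] at h9
  exact ruleD hok2 h9 h5 h6 h7

theorem opF_sound {ih : ℕ → ℕ → ℕ → (ℕ → Bool) → Bool} {r b s1 : ℕ} {k : ℕ → Bool}
    (hr : Valid r) (hb : Valid b) (hd : ∀ e ∈ Ed r, e ∉ Ed b)
    (hih : ∀ r b s, Valid r → Valid b → (∀ e ∈ Ed r, e ∉ Ed b) → ih r b s k = true → Good r b k)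
    (h : opF ih r b s1 k = true) : Good r b k := by
  unfold opF opFb opFc at h
  rw [cond_true_iff, cond_true_iff, cond_true_iff, cond_true_iff] at h
  obtain ⟨h0, h1, h2, h3, h4⟩ := h
  obtain ⟨hij, hok⟩ := legalb_spec hr hb (la_lt _) (lb_lt _) h0
  have hb' := valid_addE hb (la_lt s1) (lb_lt s1) hij
  have hd' := disj_addB hb (la_lt s1) (lb_lt s1) hij hd hok.2.1
  obtain ⟨hij2, hok2⟩ := legalb_spec hr hb' (la_lt _) (lb_lt _) h1
  have hr2 := valid_addE hr (la_lt (Nat.shiftRight s1 8)) (lb_lt (Nat.shiftRight s1 8)) hij2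
  have hb2 := valid_addE hb' (la_lt (Nat.shiftRight s1 8)) (lb_lt (Nat.shiftRight s1 8)) hij2
  have hd2 := disj_addR hr (la_lt (Nat.shiftRight s1 8)) (lb_lt (Nat.shiftRight s1 8)) hij2 hd'
    hok2.2.2
  have h5 := chkFar_spec hr hb' (by norm_num) hd' h3
  obtain ⟨h7, h8⟩ := hih _ _ _ hr2 hb' hd2 h4
  refine ⟨mv_safe hb (la_lt _) (lb_lt _) hij hok ?_, h8⟩
  rw [Ed_addE hr (la_lt _) (lb_lt _) hij2] at h7
  have h9 := bkb_spec hb2 (la_lt _) (lb_lt _) h2
  rw [Ed_addE hb' (la_lt _) (lb_lt _) hij2] at h9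
  exact ruleF hok2 ⟨_, _, h9⟩ h5 h7

theorem cond_cases {c x y : Bool} (h : cond c x y = true) :
    (c = true ∧ x = true) ∨ (c = false ∧ y = true) := by
  cases c
  · exact Or.inr ⟨rfl, h⟩
  · exact Or.inl ⟨rfl, h⟩

theorem chkB_sound {T : ℕ → ℕ} {lim : ℕ} (hT : ∀ id < lim, NodeSafe (T id)) (fuel : ℕ) :
    ∀ (k : ℕ → Bool) (r b s : ℕ), Valid r → Valid b → (∀ e ∈ Ed r, e ∉ Ed b) →
      chkB T lim fuel r b s k = true → Good r b k := by
  induction fuel with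
  | zero => intro k r b s _ _ _ h; exact absurd h (by simp [chkB])
  | succ fuel ih =>
    intro k r b s hr hb hd h
    have h' : stepB T lim (chkB T lim fuel) r b (Nat.land s 15) (Nat.shiftRight s 4) k = true := h
    unfold stepB at h'
    rcases cond_cases h' with ⟨_, h'⟩ | ⟨_, h'⟩
    · exact opL1_sound hr hb hd h'
    rcases cond_cases h' with ⟨_, h'⟩ | ⟨_, h'⟩
    · exact opD_sound hr hb hd (fun r b s h1 h2 h3 h4 => ih k r b s h1 h2 h3 h4) h'
    rcases cond_cases h' with ⟨_, h'⟩ | ⟨_, h'⟩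
    · exact opTB_sound hr hb hd h'
    rcases cond_cases h' with ⟨_, h'⟩ | ⟨_, h'⟩
    · exact opW_sound hr hb h'
    rcases cond_cases h' with ⟨_, h'⟩ | ⟨_, h'⟩
    · exact opF_sound hr hb hd (fun r b s h1 h2 h3 h4 => ih k r b s h1 h2 h3 h4) h'
    rcases cond_cases h' with ⟨_, h'⟩ | ⟨_, h'⟩
    · exact opS_sound hr hb hd h'
    rcases cond_cases h' with ⟨_, h'⟩ | ⟨_, h'⟩
    · exact opR_sound hr hb hT h'
    · exact absurd h' (by simp)

end Pool.Agent.H50.Book
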