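import Pool.Agent.H50.Book.Count

set_option autoImplicit false

namespace Pool.Agent.H50.Book

/-- both edges from `x` to `u` and `v` are unclaimed -/
def Fr (R B : Finset (Sym2 ℕ)) (u v x : ℕ) : Prop :=
  (s(u, x) ∉ R ∧ s(u, x) ∉ B) ∧ (s(v, x) ∉ R ∧ s(v, x) ∉ B)

theorem Fr.swap {R B : Finset (Sym2 ℕ)} {u v x : ℕ} (h : Fr R B u v x) : Fr R B v u x :=
  ⟨h.2, h.1⟩

/-- `(R', B')` arises from `(R, B)` by answered star moves at `u v` -/
structure Ext (u v : ℕ) (R B R' B' : Finset (Sym2 ℕ)) : Prop where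
  hR : R ⊆ R'
  hB : B ⊆ B'
  eR : ∀ e ∈ R', e ∈ R ∨ ∃ x : ℕ, x ≠ u ∧ x ≠ v ∧ Fr R B u v x ∧
    ((e = s(u, x) ∧ s(v, x) ∈ B') ∨ (e = s(v, x) ∧ s(u, x) ∈ B'))
  eB : ∀ e ∈ B', e ∈ B ∨ ∃ x : ℕ, x ≠ u ∧ x ≠ v ∧ Fr R B u v x ∧
    ((e = s(v, x) ∧ s(u, x) ∈ R') ∨ (e = s(u, x) ∧ s(v, x) ∈ R'))
  dis : ∀ e ∈ R', e ∉ B'

theorem Ext.swap {u v : ℕ} {R B R' B' : Finset (Sym2 ℕ)} (h : Ext u v R B R' B') :
    Ext v u R B R' B' := by
  refine ⟨h.hR, h.hB, ?_, ?_, h.dis⟩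
  · intro e he
    rcases h.eR e he with h1 | ⟨x, h1, h2, h3, h4⟩
    · exact Or.inl h1
    · exact Or.inr ⟨x, h2, h1, h3.swap, h4.symm⟩
  · intro e he
    rcases h.eB e he with h1 | ⟨x, h1, h2, h3, h4⟩
    · exact Or.inl h1
    · exact Or.inr ⟨x, h2, h1, h3.swap, h4.symm⟩

theorem Ext.refl {u v : ℕ} {R B : Finset (Sym2 ℕ)} (hd : ∀ e ∈ R, e ∉ B) : Ext u v R B R B :=
  ⟨Finset.Subset.refl _, Finset.Subset.refl _, fun _ he => Or.inl he, fun _ he => Or.inl he, hd⟩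

/-- red edge at `u` in an extension -/
theorem Ext.redu {u v : ℕ} {R B R' B' : Finset (Sym2 ℕ)} (h : Ext u v R B R' B') (huv : u ≠ v)
    {w : ℕ} (hw : s(u, w) ∈ R') : s(u, w) ∈ R ∨ (w ≠ u ∧ w ≠ v ∧ Fr R B u v w ∧ s(v, w) ∈ B') := by
  rcases h.eR _ hw with h1 | ⟨x, h1, h2, h3, (⟨h4, h5⟩ | ⟨h4, h5⟩)⟩
  · exact Or.inl h1
  · rw [Sym2.congr_right] at h4
    subst h4
    exact Or.inr ⟨h1, h2, h3, h5⟩
  · rw [Sym2.eq_iff] at h4
    rcases h4 with ⟨h, _⟩ | ⟨h, _⟩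
    · exact absurd h huv
    · exact absurd h.symm h1

/-- red edge away from `u, v` -/
theorem Ext.redx {u v : ℕ} {R B R' B' : Finset (Sym2 ℕ)} (h : Ext u v R B R' B')
    {x w : ℕ} (hxu : x ≠ u) (hxv : x ≠ v) (hw : s(x, w) ∈ R') : s(x, w) ∈ R ∨
      (w = u ∧ Fr R B u v x ∧ s(v, x) ∈ B') ∨ (w = v ∧ Fr R B u v x ∧ s(u, x) ∈ B') := by
  rcases h.eR _ hw with h1 | ⟨y, h1, h2, h3, (⟨h4, h5⟩ | ⟨h4, h5⟩)⟩
  · exact Or.inl h1
  · rw [Sym2.eq_iff] at h4
    rcases h4 with ⟨h, _⟩ | ⟨h, h'⟩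
    · exact absurd h hxu
    · subst h; exact Or.inr (Or.inl ⟨h', h3, h5⟩)
  · rw [Sym2.eq_iff] at h4
    rcases h4 with ⟨h, _⟩ | ⟨h, h'⟩
    · exact absurd h hxv
    · subst h; exact Or.inr (Or.inr ⟨h', h3, h5⟩)

/-- blue edge away from `u, v` -/
theorem Ext.bluex {u v : ℕ} {R B R' B' : Finset (Sym2 ℕ)} (h : Ext u v R B R' B')
    {x w : ℕ} (hxu : x ≠ u) (hxv : x ≠ v) (hw : s(x, w) ∈ B') : s(x, w) ∈ B ∨
      (w = v ∧ Fr R B u v x ∧ s(u, x) ∈ R') ∨ (w = u ∧ Fr R B u v x ∧ s(v, x) ∈ R') := by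
  rcases h.eB _ hw with h1 | ⟨y, h1, h2, h3, (⟨h4, h5⟩ | ⟨h4, h5⟩)⟩
  · exact Or.inl h1
  · rw [Sym2.eq_iff] at h4
    rcases h4 with ⟨h, _⟩ | ⟨h, h'⟩
    · exact absurd h hxv
    · subst h; exact Or.inr (Or.inl ⟨h', h3, h5⟩)
  · rw [Sym2.eq_iff] at h4
    rcases h4 with ⟨h, _⟩ | ⟨h, h'⟩
    · exact absurd h hxu
    · subst h; exact Or.inr (Or.inr ⟨h', h3, h5⟩)

theorem Ext.nodiag {u v : ℕ} {R B R' B' : Finset (Sym2 ℕ)} (h : Ext u v R B R' B')
    (hnd : ∀ e ∈ R, ¬ e.IsDiag) : ∀ e ∈ R', ¬ e.IsDiag := by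
  intro e he
  rcases h.eR _ he with h1 | ⟨y, h1, h2, _, (⟨h4, _⟩ | ⟨h4, _⟩)⟩
  · exact hnd e h1
  · rw [h4, Sym2.mk_isDiag_iff]; exact fun h => h1 h.symm
  · rw [h4, Sym2.mk_isDiag_iff]; exact fun h => h2 h.symm

/-- obtainable at `u` -/
def Ob (R B : Finset (Sym2 ℕ)) (u v w : ℕ) : Prop := s(u, w) ∈ R ∨ Fr R B u v w

open Classical in
/-- numerical condition for spines through `u` -/
def CondA (R B : Finset (Sym2 ℕ)) (u v : ℕ) : Prop :=
  ∀ x : ℕ, x ≠ u → x ≠ v → s(u, x) ∉ B →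
    ((nb R x).filter (fun w => Ob R B u v w)).card ≤ 1 ∨
    (((nb R x).filter (fun w => Ob R B u v w)).card ≤ 2 ∧ ¬ Ob R B u v x)

theorem claimA {u v : ℕ} {R B R' B' : Finset (Sym2 ℕ)} (h : Ext u v R B R' B') (huv : u ≠ v)
    (hnd : ∀ e ∈ R, ¬ e.IsDiag) (hA : CondA R B u v)
    {x : ℕ} (hxu : x ≠ u) (hxv : x ≠ v) {E : Finset (Sym2 ℕ)} (hE : ∀ e ∈ E, e ∉ B') {k : ℕ}
    (hk : E.card + 2 ≤ k) : ¬ Bk k (↑(R' ∪ E) : Set (Sym2 ℕ)) u x := by
  classical
  intro hb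
  have hB : ∀ e ∈ R' ∪ E, e ∉ B' := by
    intro e he
    rw [Finset.mem_union] at he
    rcases he with he | he
    · exact h.dis e he
    · exact hE e he
  have hsp : s(u, x) ∉ B' := hB _ (by exact_mod_cast hb.2.1)
  have hc := (count hB hb).1
  have hsub : nb R' u ∩ nb R' x ⊆ (nb R x).filter (fun w => Ob R B u v w) := by
    intro w hw
    rw [Finset.mem_inter, mem_nb, mem_nb] at hw
    rw [Finset.mem_filter, mem_nb]
    have h1 := h.redu huv hw.1
    have h2 := h.redx hxu hxv hw.2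
    refine ⟨?_, ?_⟩
    · rcases h2 with h2 | ⟨h2, _, _⟩ | ⟨_, _, h2⟩
      · exact h2
      · exfalso
        subst h2
        exact h.nodiag hnd _ hw.1 (by rw [Sym2.mk_isDiag_iff])
      · exact absurd h2 hsp
    · rcases h1 with h1 | ⟨_, _, h1, _⟩
      · exact Or.inl h1
      · exact Or.inr h1
  have hcard := Finset.card_le_card hsub
  have hxB : s(u, x) ∉ B := fun hh => hsp (h.hB hh)
  rcases hA x hxu hxv hxB with h1 | ⟨h1, h2⟩
  · split_ifs at hc <;> omega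
  · have hno : s(u, x) ∉ R' := by
      intro hh
      apply h2
      rcases h.redu huv hh with h3 | ⟨_, _, h3, _⟩
      · exact Or.inl h3
      · exact Or.inr h3
    rw [if_neg hno] at hc
    omega

theorem nohalf {u v : ℕ} {R B R' B' : Finset (Sym2 ℕ)} (h : Ext u v R B R' B') (huv : u ≠ v)
    (hH : ∀ w : ℕ, w ≠ u → w ≠ v → s(u, w) ∈ R → s(v, w) ∈ R ∨ s(v, w) ∈ B)
    {w : ℕ} (hwu : w ≠ u) (hwv : w ≠ v) (hw : s(u, w) ∈ R') : s(v, w) ∈ R' ∨ s(v, w) ∈ B' := by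
  rcases h.redu huv hw with h1 | ⟨_, _, _, h1⟩
  · rcases hH w hwu hwv h1 with h2 | h2
    · exact Or.inl (h.hR h2)
    · exact Or.inr (h.hB h2)
  · exact Or.inr h1

theorem common {u v : ℕ} {R B R' B' : Finset (Sym2 ℕ)} (h : Ext u v R B R' B') (huv : u ≠ v)
    {w : ℕ} (hw : s(u, w) ∈ R') (hw2 : s(v, w) ∈ R') : s(u, w) ∈ R ∧ s(v, w) ∈ R := by
  constructor
  · rcases h.redu huv hw with h1 | ⟨_, _, _, h1⟩
    · exact h1
    · exact absurd h1 (h.dis _ hw2)
  · rcases h.swap.redu huv.symm hw2 with h1 | ⟨_, _, _, h1⟩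
    · exact h1
    · exact absurd h1 (h.dis _ hw)

/-- the spine `u v` itself -/
theorem claimUV {u v : ℕ} {R B R' B' : Finset (Sym2 ℕ)} (h : Ext u v R B R' B') (huv : u ≠ v)
    (hH : ∀ w : ℕ, w ≠ u → w ≠ v → s(u, w) ∈ R → s(v, w) ∈ R ∨ s(v, w) ∈ B)
    (hH' : ∀ w : ℕ, w ≠ u → w ≠ v → s(v, w) ∈ R → s(u, w) ∈ R ∨ s(u, w) ∈ B)
    (hC : (nb R u ∩ nb R v).card ≤ 3) {E : Finset (Sym2 ℕ)} (hE : ∀ e ∈ E, e ∉ B')
    (hE2 : ∀ w : ℕ, w ≠ u → w ≠ v → s(u, w) ∉ R' → s(v, w) ∉ R' → ¬ (s(u, w) ∈ E ∧ s(v, w) ∈ E)) :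
    ¬ Bk 4 (↑(R' ∪ E) : Set (Sym2 ℕ)) u v := by
  rintro ⟨_, _, P, hP, hp⟩
  have hsub : P ⊆ nb R u ∩ nb R v := by
    intro w hw
    obtain ⟨hwu, hwv, h1, h2⟩ := hp w hw
    have h1' : s(u, w) ∈ R' ∪ E := by exact_mod_cast h1
    have h2' : s(v, w) ∈ R' ∪ E := by exact_mod_cast h2
    rw [Finset.mem_union] at h1' h2'
    rw [Finset.mem_inter, mem_nb, mem_nb]
    by_cases c1 : s(u, w) ∈ R'
    · by_cases c2 : s(v, w) ∈ R'
      · exact common h huv c1 c2
      · exfalso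
        have c3 : s(v, w) ∈ E := by
          rcases h2' with h | h
          · exact absurd h c2
          · exact h
        rcases nohalf h huv hH hwu hwv c1 with c4 | c4
        · exact c2 c4
        · exact hE _ c3 c4
    · exfalso
      have c3 : s(u, w) ∈ E := by
        rcases h1' with h | h
        · exact absurd h c1
        · exact h
      by_cases c2 : s(v, w) ∈ R'
      · rcases nohalf h.swap huv.symm (fun w h1 h2 h3 => hH' w h2 h1 h3) hwv hwu c2 with c4 | c4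
        · exact c1 c4
        · exact hE _ c3 c4
      · have c4 : s(v, w) ∈ E := by
          rcases h2' with h | h
          · exact absurd h c2
          · exact h
        exact hE2 w hwu hwv c1 c2 ⟨c3, c4⟩
  have := Finset.card_le_card hsub
  omega

theorem ext_step {u v : ℕ} {R B R' B' : Finset (Sym2 ℕ)} (h : Ext u v R B R' B') (huv : u ≠ v)
    {x : ℕ} (hxu : x ≠ u) (hxv : x ≠ v) (h1 : s(u, x) ∉ R') (h2 : s(u, x) ∉ B')
    (h3 : s(v, x) ∉ R') (h4 : s(v, x) ∉ B') :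
    Ext u v R B (insert s(u, x) R') (insert s(v, x) B') := by
  have hfr : Fr R B u v x := ⟨⟨fun hh => h1 (h.hR hh), fun hh => h2 (h.hB hh)⟩,
    ⟨fun hh => h3 (h.hR hh), fun hh => h4 (h.hB hh)⟩⟩
  have hne : s(u, x) ≠ s(v, x) := by
    intro hh
    rw [Sym2.eq_iff] at hh
    rcases hh with ⟨h, _⟩ | ⟨h, _⟩
    · exact huv h
    · exact hxu h.symm
  refine ⟨h.hR.trans (Finset.subset_insert _ _), h.hB.trans (Finset.subset_insert _ _), ?_, ?_, ?_⟩
  · intro e he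
    rw [Finset.mem_insert] at he
    rcases he with rfl | he
    · exact Or.inr ⟨x, hxu, hxv, hfr, Or.inl ⟨rfl, Finset.mem_insert_self _ _⟩⟩
    · rcases h.eR e he with h5 | ⟨y, h5, h6, h7, h8⟩
      · exact Or.inl h5
      · refine Or.inr ⟨y, h5, h6, h7, ?_⟩
        rcases h8 with ⟨h8, h9⟩ | ⟨h8, h9⟩
        · exact Or.inl ⟨h8, Finset.mem_insert_of_mem h9⟩
        · exact Or.inr ⟨h8, Finset.mem_insert_of_mem h9⟩
  · intro e he
    rw [Finset.mem_insert] at he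
    rcases he with rfl | he
    · exact Or.inr ⟨x, hxu, hxv, hfr, Or.inl ⟨rfl, Finset.mem_insert_self _ _⟩⟩
    · rcases h.eB e he with h5 | ⟨y, h5, h6, h7, h8⟩
      · exact Or.inl h5
      · refine Or.inr ⟨y, h5, h6, h7, ?_⟩
        rcases h8 with ⟨h8, h9⟩ | ⟨h8, h9⟩
        · exact Or.inl ⟨h8, Finset.mem_insert_of_mem h9⟩
        · exact Or.inr ⟨h8, Finset.mem_insert_of_mem h9⟩
  · intro e he he2
    rw [Finset.mem_insert] at he he2
    rcases he with rfl | he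
    · rcases he2 with he2 | he2
      · exact hne he2
      · exact h2 he2
    · rcases he2 with rfl | he2
      · exact h3 he
      · exact h.dis e he he2

/-- rule S2 -/
theorem ruleS2 {u v a b : ℕ} {R B : Finset (Sym2 ℕ)} (huv : u ≠ v)
    (hd : ∀ e ∈ R, e ∉ B) (hnd : ∀ e ∈ R, ¬ e.IsDiag)
    (hH : ∀ w : ℕ, w ≠ u → w ≠ v → s(u, w) ∈ R → s(v, w) ∈ R ∨ s(v, w) ∈ B)
    (hH' : ∀ w : ℕ, w ≠ u → w ≠ v → s(v, w) ∈ R → s(u, w) ∈ R ∨ s(u, w) ∈ B)
    (hC : (nb R u ∩ nb R v).card ≤ 3)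
    (hA : CondA R B u v) (hA' : CondA R B v u)
    (h2 : ∀ R' B' : Finset (Sym2 ℕ), Ext u v R B R' B' → ∀ x y : ℕ, x ≠ u → x ≠ v → y ≠ u →
      y ≠ v → x ≠ y → PairOK 4 3 R' B' x y)
    (h3 : ∀ R' B' : Finset (Sym2 ℕ), Ext u v R B R' B' → ∀ y : ℕ, y ≠ u → y ≠ v → b ≠ y →
      PairOK 3 2 R' B' b y)
    (hbu : b ≠ u) (hbv : b ≠ v) (hB3 : Bk 3 (↑B : Set (Sym2 ℕ)) a b) : Safe R B := by
  -- books in extensions
  have far : ∀ R' B' : Finset (Sym2 ℕ), Ext u v R B R' B' → ∀ E : Finset (Sym2 ℕ), E.card ≤ 2 →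
      (∀ e ∈ E, e ∉ B') →
      (∀ w : ℕ, w ≠ u → w ≠ v → s(u, w) ∉ R' → s(v, w) ∉ R' → ¬ (s(u, w) ∈ E ∧ s(v, w) ∈ E)) →
      ¬ HasBook (↑(R' ∪ E) : Set (Sym2 ℕ)) := by
    rintro R' B' hX E hE hEB hE2 ⟨α, β, hb⟩
    by_cases c1 : α = u
    · subst c1
      by_cases c2 : β = v
      · subst c2
        exact claimUV hX huv hH hH' hC hEB hE2 hb
      · exact claimA hX huv hnd hA (Ne.symm hb.1) c2 hEB (by omega) hb
    · by_cases c2 : α = v
      · subst c2
        by_cases c3 : β = u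
        · subst c3
          exact claimUV hX huv hH hH' hC hEB hE2 hb.symm
        · exact claimA hX.swap huv.symm hnd hA' (Ne.symm hb.1) c3 hEB (by omega) hb
      · by_cases c3 : β = u
        · subst c3
          exact claimA hX huv hnd hA c1 c2 hEB (by omega) hb.symm
        · by_cases c4 : β = v
          · subst c4
            exact claimA hX.swap huv.symm hnd hA' c2 c1 hEB (by omega) hb.symm
          · exact no_bk (h2 R' B' hX α β c1 c2 c3 c4 hb.1) hX.dis hEB (by omega) hb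
  have farb : ∀ R' B' : Finset (Sym2 ℕ), Ext u v R B R' B' → ∀ E : Finset (Sym2 ℕ), E.card ≤ 1 →
      (∀ e ∈ E, e ∉ B') → ∀ z : ℕ, ¬ Bk 3 (↑(R' ∪ E) : Set (Sym2 ℕ)) b z := by
    intro R' B' hX E hE hEB z hb
    by_cases c1 : z = u
    · subst c1
      exact claimA hX huv hnd hA hbu hbv hEB (by omega) hb.symm
    · by_cases c2 : z = v
      · subst c2
        exact claimA hX.swap huv.symm hnd hA' hbv hbu hEB (by omega) hb.symm
      · exact no_bk (h3 R' B' hX z c1 c2 hb.1) hX.dis hEB (by omega) hb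
  refine ⟨{p | Ext u v R B p.1 p.2 ∨ Safe p.1 p.2}, ?_, Or.inl (Ext.refl hd)⟩
  rintro ⟨R', B'⟩ hp e he
  simp only at he ⊢
  rcases hp with hX | hS
  · simp only at hX
    -- no immediate book
    have nob : ¬ HasBook (↑(insert e R') : Set (Sym2 ℕ)) := by
      have hh := far R' B' hX {e} (by simp) (by
        intro f hf
        rw [Finset.mem_singleton] at hf
        subst hf; exact he.2.2) (by
        intro w hwu hwv _ _ hw
        rw [Finset.mem_singleton, Finset.mem_singleton] at hw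
        have := hw.1.trans hw.2.symm
        rw [Sym2.eq_iff] at this
        rcases this with ⟨h, _⟩ | ⟨h, _⟩
        · exact huv h
        · exact hwu h.symm)
      rwa [Finset.union_comm, ← Finset.insert_eq] at hh
    refine ⟨nob, ?_⟩
    by_cases hs1 : ∃ x : ℕ, x ≠ u ∧ x ≠ v ∧ e = s(u, x) ∧ s(v, x) ∉ R' ∧ s(v, x) ∉ B'
    · obtain ⟨x, hxu, hxv, rfl, h5, h6⟩ := hs1
      refine ⟨s(v, x), ⟨?_, ?_, h6⟩, Or.inr (Or.inl (ext_step hX huv hxu hxv he.2.1 he.2.2 h5 h6))⟩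
      · rw [Sym2.mk_isDiag_iff]; exact fun h => hxv h.symm
      · rw [Finset.mem_insert, not_or]
        refine ⟨?_, h5⟩
        intro hh
        rw [Sym2.eq_iff] at hh
        rcases hh with ⟨h, _⟩ | ⟨h, _⟩
        · exact huv h.symm
        · exact hxv h.symm
    · by_cases hs2 : ∃ x : ℕ, x ≠ u ∧ x ≠ v ∧ e = s(v, x) ∧ s(u, x) ∉ R' ∧ s(u, x) ∉ B'
      · obtain ⟨x, hxu, hxv, rfl, h5, h6⟩ := hs2
        have hst := (ext_step hX.swap huv.symm hxv hxu he.2.1 he.2.2 h5 h6).swap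
        refine ⟨s(u, x), ⟨?_, ?_, h6⟩, Or.inr (Or.inl hst)⟩
        · rw [Sym2.mk_isDiag_iff]; exact fun h => hxu h.symm
        · rw [Finset.mem_insert, not_or]
          refine ⟨?_, h5⟩
          intro hh
          rw [Sym2.eq_iff] at hh
          rcases hh with ⟨h, _⟩ | ⟨h, _⟩
          · exact huv h
          · exact hxu h.symm
      · have hTB : SafeB (insert e R') B' := by
          refine ruleTB (a := a) (b := b) (hB3.mono (by exact_mod_cast hX.hB)) ?_ ?_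
          · intro E hE hEB
            have hh := far R' B' hX (insert e E)
              ((Finset.card_insert_le _ _).trans (by omega)) (by
                intro f hf
                rw [Finset.mem_insert] at hf
                rcases hf with rfl | hf
                · exact he.2.2
                · exact hEB f hf) (by
                intro w hwu hwv hw1 hw2 hw
                rw [Finset.mem_insert, Finset.mem_insert] at hw
                rcases hw with ⟨hwa, hwb⟩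
                rcases hwa with hwa | hwa
                · rcases hwb with hwb | hwb
                  · have := hwa.trans hwb.symm
                    rw [Sym2.eq_iff] at this
                    rcases this with ⟨h, _⟩ | ⟨h, _⟩
                    · exact huv h
                    · exact hwu h.symm
                  · exact hs1 ⟨w, hwu, hwv, hwa.symm, hw2, hEB _ hwb⟩
                · rcases hwb with hwb | hwb
                  · exact hs2 ⟨w, hwu, hwv, hwb.symm, hw1, hEB _ hwa⟩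
                  · have hc : E.card ≤ 1 := by omega
                    have := Finset.card_le_one.1 hc _ hwa _ hwb
                    rw [Sym2.eq_iff] at this
                    rcases this with ⟨h, _⟩ | ⟨h, _⟩
                    · exact huv h
                    · exact hwu h.symm)
            rwa [Finset.union_insert, ← Finset.insert_union] at hh
          · intro E hE hEB z
            have hE0 : E = ∅ := Finset.card_eq_zero.1 (by omega)
            subst hE0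
            have hh := farb R' B' hX {e} (by simp) (by
              intro f hf
              rw [Finset.mem_singleton] at hf
              subst hf; exact he.2.2) z
            rw [Finset.union_comm, ← Finset.insert_eq] at hh
            rwa [Finset.union_empty]
        obtain ⟨f, hf, h4⟩ := hTB
        refine ⟨f, hf, ?_⟩
        rcases h4 with h4 | h4
        · exact Or.inl h4
        · exact Or.inr (Or.inr h4)
  · simp only at hS
    obtain ⟨h4, f, hf, h5⟩ := (safe_iff R' B').1 hS e he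
    refine ⟨h4, f, hf, ?_⟩
    rcases h5 with h5 | h5
    · exact Or.inl h5
    · exact Or.inr (Or.inr h5)

end Pool.Agent.H50.Book
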