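import Pool.Agent.H50.Book.FarChk
import Pool.Agent.H50.Book.Star

set_option autoImplicit false

namespace Pool.Agent.H50.Book

theorem light_pair' {k m : ℕ} {R B : Finset (Sym2 ℕ)} {x y : ℕ} (hnd : ∀ e ∈ R, ¬ e.IsDiag)
    (hm : m ≤ k) (hx : (nb R x).card ≤ 1) : PairOK k m R B x y := by
  right; left
  by_cases h : s(x, y) ∈ R
  · rw [if_pos h]
    have h1 : nb R x = {y} := by
      apply Finset.eq_of_superset_of_card_ge
      · rw [Finset.singleton_subset_iff, mem_nb]; exact h
      · simpa using hx
    have h2 : y ∉ nb R y := by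
      rw [mem_nb]
      intro h3
      exact hnd _ h3 (by rw [Sym2.mk_isDiag_iff])
    have h3 : nb R x ∩ nb R y = ∅ := by
      rw [h1, Finset.singleton_inter_of_notMem h2]
    rw [h3, Finset.card_empty]
    omega
  · rw [if_neg h]
    have := Finset.card_le_card (Finset.inter_subset_left (s₁ := nb R x) (s₂ := nb R y))
    omega

/-- `rx`, `cx` describe the neighbourhood of `x` in `R` and `B` -/
structure RowAt (R B : Finset (Sym2 ℕ)) (x rx cx : ℕ) : Prop where
  lt : rx < 65536
  red : ∀ w : ℕ, s(x, w) ∈ R ↔ w < 16 ∧ rx.testBit w = true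
  blue : ∀ w : ℕ, w < 16 → (cx.testBit w = true ↔ w ≠ x ∧ s(x, w) ∉ B)

theorem RowAt.nb_eq {R B : Finset (Sym2 ℕ)} {x rx cx : ℕ} (h : RowAt R B x rx cx) :
    nb R x = rowSet rx := by
  ext w
  rw [mem_nb, mem_rowSet, h.red]

theorem RowAt.nbx_eq {R B : Finset (Sym2 ℕ)} {x rx cx y ry cy : ℕ} (h : RowAt R B x rx cx)
    (h' : RowAt R B y ry cy) : nbx R B x y = rowSet (Nat.land rx cy) := by
  ext w
  unfold nbx
  rw [Finset.mem_filter, h.nb_eq, rowSet_land, Finset.mem_inter, mem_rowSet, mem_rowSet]
  constructor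
  · rintro ⟨⟨h1, h2⟩, h3⟩
    exact ⟨⟨h1, h2⟩, h1, (h'.blue w h1).2 h3⟩
  · rintro ⟨⟨h1, h2⟩, _, h3⟩
    exact ⟨⟨h1, h2⟩, (h'.blue w h1).1 h3⟩

theorem pairb_gen {k m : ℕ} {R B : Finset (Sym2 ℕ)} {x rx cx y ry cy : ℕ} (hx : x < 16)
    (hy : y < 16) (hxy : x ≠ y) (h : RowAt R B x rx cx) (h' : RowAt R B y ry cy)
    (hp : pairb (k + 1) (2 * k + 1) m x rx cx y ry cy = true) : PairOK k m R B x y := by
  unfold pairb at hp
  rw [shift_bit, shift_bit] at hp
  unfold PairOK
  rcases hh : cy.testBit x with _ | _
  · left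
    by_contra hcon
    have := (h'.blue x hx).2 ⟨hxy, by rw [sw y x]; exact hcon⟩
    rw [hh] at this
    exact absurd this (by simp)
  · right
    rw [hh] at hp
    have e2 : Nat.beq (if true = true then 1 else 0) 0 = false := rfl
    rw [e2, cond_false] at hp
    have e3 : (if rx.testBit y = true then 1 else 0) = (if s(x, y) ∈ R then 1 else 0) := by
      congr 1
      rw [h.red]
      simp [hy]
    rw [e3] at hp
    rw [h.nb_eq, h'.nb_eq, ← rowSet_land, ← popc_eq _ (land_lt h.lt), h.nbx_eq h',
      h'.nbx_eq h, ← popc_eq _ (land_lt h.lt), ← popc_eq _ (land_lt h'.lt)]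
    rcases h2 : Nat.ble (Nat.add (Nat.add m (if s(x, y) ∈ R then 1 else 0))
      (popc (Nat.land rx ry))) (k + 1) with _ | _
    · rw [h2, cond_false, ble_true_iff] at hp
      right
      exact hp
    · left
      rw [ble_true_iff] at h2
      exact h2

/-- cons unless the row has at most one bit -/
def consIf (x rx cx : ℕ) (t : HL) : HL := cond (Nat.ble (popc rx) 1) t (HL.cons x rx cx t)

/-- list of all rows that can occur in star extensions -/
noncomputable def hstar (r b fr u v : ℕ) (fuel : ℕ) : HL :=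
  Nat.rec HL.nil (fun i ih =>
    cond (Nat.beq i u) ih (cond (Nat.beq i v) ih
      (consIf i (rowOf r i) (cmask (rowOf b i) i)
        (cond (Nat.beq (Nat.land (Nat.shiftRight fr i) 1) 0) ih
          (consIf i (Nat.lor (rowOf r i) (Nat.shiftLeft 1 u))
              (cmask (Nat.lor (rowOf b i) (Nat.shiftLeft 1 v)) i)
            (consIf i (Nat.lor (rowOf r i) (Nat.shiftLeft 1 v))
              (cmask (Nat.lor (rowOf b i) (Nat.shiftLeft 1 u)) i) ih)))))) fuel

/-- possible rows at `i` -/
def IsOpt (r b fr u v i rx cx : ℕ) : Prop :=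
  i ≠ u ∧ i ≠ v ∧
  ((rx = rowOf r i ∧ cx = cmask (rowOf b i) i) ∨
    (fr.testBit i = true ∧
      ((rx = Nat.lor (rowOf r i) (Nat.shiftLeft 1 u) ∧
        cx = cmask (Nat.lor (rowOf b i) (Nat.shiftLeft 1 v)) i) ∨
       (rx = Nat.lor (rowOf r i) (Nat.shiftLeft 1 v) ∧
        cx = cmask (Nat.lor (rowOf b i) (Nat.shiftLeft 1 u)) i))))

theorem hstar_succ (r b fr u v n : ℕ) : hstar r b fr u v (n + 1) =
    cond (Nat.beq n u) (hstar r b fr u v n) (cond (Nat.beq n v) (hstar r b fr u v n)
      (consIf n (rowOf r n) (cmask (rowOf b n) n)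
        (cond (Nat.beq (Nat.land (Nat.shiftRight fr n) 1) 0) (hstar r b fr u v n)
          (consIf n (Nat.lor (rowOf r n) (Nat.shiftLeft 1 u))
              (cmask (Nat.lor (rowOf b n) (Nat.shiftLeft 1 v)) n)
            (consIf n (Nat.lor (rowOf r n) (Nat.shiftLeft 1 v))
              (cmask (Nat.lor (rowOf b n) (Nat.shiftLeft 1 u)) n) (hstar r b fr u v n))))))
    := rfl

theorem inner_consIf {k1 k2 m x rx cx y ry cy : ℕ} {t : HL}
    (h : inner k1 k2 m x rx cx (consIf y ry cy t) = true) :
    (1 < popc ry → pairb k1 k2 m x rx cx y ry cy = true) ∧ inner k1 k2 m x rx cx t = true := by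
  unfold consIf at h
  rcases hh : Nat.ble (popc ry) 1 with _ | _
  · rw [hh, cond_false, inner_cons, cond_true_iff] at h
    exact ⟨fun _ => h.1, h.2⟩
  · rw [hh, cond_true] at h
    rw [ble_true_iff] at hh
    exact ⟨fun h2 => by omega, h⟩

theorem outer_consIf {k1 k2 m y ry cy : ℕ} {t : HL}
    (h : outer k1 k2 m (consIf y ry cy t) = true) :
    (1 < popc ry → inner k1 k2 m y ry cy t = true) ∧ outer k1 k2 m t = true := by
  unfold consIf at h
  rcases hh : Nat.ble (popc ry) 1 with _ | _
  · rw [hh, cond_false, outer_cons, cond_true_iff] at h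
    exact ⟨fun _ => h.1, h.2⟩
  · rw [hh, cond_true] at h
    rw [ble_true_iff] at hh
    exact ⟨fun h2 => by omega, h⟩

theorem bit_zero_iff (fr i : ℕ) :
    Nat.beq (Nat.land (Nat.shiftRight fr i) 1) 0 = !(fr.testBit i) := by
  rw [shift_bit]
  cases fr.testBit i <;> rfl

theorem beq_false_of_ne {a b : ℕ} (h : a ≠ b) : Nat.beq a b = false := by
  rcases hh : Nat.beq a b with _ | _
  · rfl
  · exact absurd ((beq_true_iff _ _).1 hh) h

theorem inner_hstar {k1 k2 m x rx cx r b fr u v : ℕ} : ∀ n : ℕ,
    inner k1 k2 m x rx cx (hstar r b fr u v n) = true →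
    ∀ y ry cy : ℕ, y < n → IsOpt r b fr u v y ry cy → 1 < popc ry →
      pairb k1 k2 m x rx cx y ry cy = true := by
  intro n
  induction n with
  | zero => intro _ y ry cy hy; omega
  | succ n ih =>
    intro h y ry cy hy ho hp
    rw [hstar_succ] at h
    by_cases hnu : n = u
    · rw [(beq_true_iff n u).2 hnu, cond_true] at h
      exact ih h y ry cy (by have := ho.1; omega) ho hp
    · rw [beq_false_of_ne hnu, cond_false] at h
      by_cases hnv : n = v
      · rw [(beq_true_iff n v).2 hnv, cond_true] at h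
        exact ih h y ry cy (by have := ho.2.1; omega) ho hp
      · rw [beq_false_of_ne hnv, cond_false] at h
        obtain ⟨h1, h2⟩ := inner_consIf h
        rw [bit_zero_iff] at h2
        rcases Nat.lt_succ_iff_lt_or_eq.1 hy with hlt | heq
        · rcases hh : fr.testBit n with _ | _
          · rw [hh] at h2
            exact ih h2 y ry cy hlt ho hp
          · rw [hh, Bool.not_true, cond_false] at h2
            exact ih (inner_consIf (inner_consIf h2).2).2 y ry cy hlt ho hp
        · subst heq
          obtain ⟨_, _, ho | ⟨hf, ho⟩⟩ := ho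
          · obtain ⟨rfl, rfl⟩ := ho
            exact h1 hp
          · rw [hf, Bool.not_true, cond_false] at h2
            rcases ho with ⟨rfl, rfl⟩ | ⟨rfl, rfl⟩
            · exact (inner_consIf h2).1 hp
            · exact (inner_consIf (inner_consIf h2).2).1 hp

theorem outer_hstar {k1 k2 m r b fr u v : ℕ} : ∀ n : ℕ,
    outer k1 k2 m (hstar r b fr u v n) = true →
    ∀ x rx cx y ry cy : ℕ, y < x → x < n → IsOpt r b fr u v x rx cx → 1 < popc rx →
      IsOpt r b fr u v y ry cy → 1 < popc ry → pairb k1 k2 m x rx cx y ry cy = true := by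
  intro n
  induction n with
  | zero => intro _ x rx cx y ry cy _ hy; omega
  | succ n ih =>
    intro h x rx cx y ry cy hyx hx hox hpx hoy hpy
    rw [hstar_succ] at h
    by_cases hnu : n = u
    · rw [(beq_true_iff n u).2 hnu, cond_true] at h
      exact ih h x rx cx y ry cy hyx (by have := hox.1; omega) hox hpx hoy hpy
    · rw [beq_false_of_ne hnu, cond_false] at h
      by_cases hnv : n = v
      · rw [(beq_true_iff n v).2 hnv, cond_true] at h
        exact ih h x rx cx y ry cy hyx (by have := hox.2.1; omega) hox hpx hoy hpy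
      · rw [beq_false_of_ne hnv, cond_false] at h
        obtain ⟨h1, h2⟩ := outer_consIf h
        rw [bit_zero_iff] at h2 h1
        rcases Nat.lt_succ_iff_lt_or_eq.1 hx with hlt | heq
        · rcases hh : fr.testBit n with _ | _
          · rw [hh] at h2
            exact ih h2 x rx cx y ry cy hyx hlt hox hpx hoy hpy
          · rw [hh, Bool.not_true, cond_false] at h2
            exact ih (outer_consIf (outer_consIf h2).2).2 x rx cx y ry cy hyx hlt hox hpx hoy hpy
        · subst heq
          obtain ⟨_, _, ho | ⟨hf, ho⟩⟩ := hox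
          · obtain ⟨rfl, rfl⟩ := ho
            have h3 := h1 hpx
            rcases hh : fr.testBit x with _ | _
            · rw [hh, Bool.not_false, cond_true] at h3
              exact inner_hstar x h3 y ry cy hyx hoy hpy
            · rw [hh, Bool.not_true, cond_false] at h3
              exact inner_hstar x (inner_consIf (inner_consIf h3).2).2 y ry cy hyx hoy hpy
          · rw [hf, Bool.not_true, cond_false] at h2
            rcases ho with ⟨rfl, rfl⟩ | ⟨rfl, rfl⟩
            · have h3 := (outer_consIf h2).1 hpx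
              exact inner_hstar x (inner_consIf h3).2 y ry cy hyx hoy hpy
            · have h3 := (outer_consIf (outer_consIf h2).2).1 hpx
              exact inner_hstar x h3 y ry cy hyx hoy hpy

/-- for each occurrence of `c` in `l`, check against all of `l0` -/
noncomputable def endp (c : ℕ) (l0 l : HL) : Bool :=
  HL.rec true (fun x rx cx _ ih =>
    cond (Nat.beq x c) (cond (inner 4 7 2 x rx cx l0) ih false) ih) l

theorem endp_cons (c : ℕ) (l0 : HL) (x rx cx : ℕ) (t : HL) :
    endp c l0 (HL.cons x rx cx t) =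
      cond (Nat.beq x c) (cond (inner 4 7 2 x rx cx l0) (endp c l0 t) false) (endp c l0 t) := rfl

theorem endp_consIf {c : ℕ} {l0 : HL} {x rx cx : ℕ} {t : HL}
    (h : endp c l0 (consIf x rx cx t) = true) :
    (x = c → 1 < popc rx → inner 4 7 2 x rx cx l0 = true) ∧ endp c l0 t = true := by
  unfold consIf at h
  rcases hh : Nat.ble (popc rx) 1 with _ | _
  · rw [hh, cond_false, endp_cons] at h
    by_cases hx : x = c
    · rw [(beq_true_iff x c).2 hx, cond_true, cond_true_iff] at h
      exact ⟨fun _ _ => h.1, h.2⟩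
    · rw [beq_false_of_ne hx, cond_false] at h
      exact ⟨fun h2 => absurd h2 hx, h⟩
  · rw [hh, cond_true] at h
    rw [ble_true_iff] at hh
    exact ⟨fun _ h2 => by omega, h⟩

theorem endp_hstar {c r b fr u v : ℕ} {l0 : HL} : ∀ n : ℕ,
    endp c l0 (hstar r b fr u v n) = true → c < n →
    ∀ rx cx : ℕ, IsOpt r b fr u v c rx cx → 1 < popc rx → inner 4 7 2 c rx cx l0 = true := by
  intro n
  induction n with
  | zero => intro _ hc; omega
  | succ n ih =>
    intro h hc rx cx ho hp
    rw [hstar_succ] at h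
    by_cases hnu : n = u
    · rw [(beq_true_iff n u).2 hnu, cond_true] at h
      exact ih h (by have := ho.1; omega) rx cx ho hp
    · rw [beq_false_of_ne hnu, cond_false] at h
      by_cases hnv : n = v
      · rw [(beq_true_iff n v).2 hnv, cond_true] at h
        exact ih h (by have := ho.2.1; omega) rx cx ho hp
      · rw [beq_false_of_ne hnv, cond_false] at h
        obtain ⟨h1, h2⟩ := endp_consIf h
        rw [bit_zero_iff] at h2
        rcases Nat.lt_succ_iff_lt_or_eq.1 hc with hlt | heq
        · rcases hh : fr.testBit n with _ | _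
          · rw [hh] at h2
            exact ih h2 hlt rx cx ho hp
          · rw [hh, Bool.not_true, cond_false] at h2
            exact ih (endp_consIf (endp_consIf h2).2).2 hlt rx cx ho hp
        · subst heq
          obtain ⟨_, _, ho | ⟨hf, ho⟩⟩ := ho
          · obtain ⟨rfl, rfl⟩ := ho
            exact h1 rfl hp
          · rw [hf, Bool.not_true, cond_false] at h2
            rcases ho with ⟨rfl, rfl⟩ | ⟨rfl, rfl⟩
            · exact (endp_consIf h2).1 rfl hp
            · exact (endp_consIf (endp_consIf h2).2).1 rfl hp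

/-- condition A at one vertex -/
noncomputable def condA (bu obu uvm : ℕ) (l : HL) : Bool :=
  HL.rec true (fun x rx _ _ ih =>
    cond (Nat.beq (Nat.land (Nat.shiftRight (Nat.lor bu uvm) x) 1) 1) ih
      (cond (Nat.ble (popc (Nat.land rx obu)) 1) ih
        (cond (Nat.beq (Nat.land (Nat.shiftRight obu x) 1) 0)
          (cond (Nat.ble (popc (Nat.land rx obu)) 2) ih false) false))) l

theorem condA_cons (bu obu uvm x rx cx : ℕ) (t : HL) :
    condA bu obu uvm (HL.cons x rx cx t) =
    cond (Nat.beq (Nat.land (Nat.shiftRight (Nat.lor bu uvm) x) 1) 1) (condA bu obu uvm t)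
      (cond (Nat.ble (popc (Nat.land rx obu)) 1) (condA bu obu uvm t)
        (cond (Nat.beq (Nat.land (Nat.shiftRight obu x) 1) 0)
          (cond (Nat.ble (popc (Nat.land rx obu)) 2) (condA bu obu uvm t) false) false)) := rfl

/-- what `condA` says about one row -/
def AOK (bu obu uvm x rx : ℕ) : Prop :=
  (Nat.lor bu uvm).testBit x = true ∨ popc (Nat.land rx obu) ≤ 1 ∨
    (obu.testBit x = false ∧ popc (Nat.land rx obu) ≤ 2)

theorem condA_step {bu obu uvm x rx cx : ℕ} {t : HL}
    (h : condA bu obu uvm (HL.cons x rx cx t) = true) :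
    AOK bu obu uvm x rx ∧ condA bu obu uvm t = true := by
  rw [condA_cons, shift_bit, shift_bit] at h
  rcases h1 : (Nat.lor bu uvm).testBit x with _ | _
  · rw [h1] at h
    have e : Nat.beq (if false = true then 1 else 0) 1 = false := rfl
    rw [e, cond_false] at h
    rcases h2 : Nat.ble (popc (Nat.land rx obu)) 1 with _ | _
    · rw [h2, cond_false] at h
      rcases h3 : obu.testBit x with _ | _
      · rw [h3] at h
        have e : Nat.beq (if false = true then 1 else 0) 0 = true := rfl
        rw [e, cond_true, cond_true_iff, ble_true_iff] at h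
        exact ⟨Or.inr (Or.inr ⟨h3, h.1⟩), h.2⟩
      · rw [h3] at h
        have e : Nat.beq (if true = true then 1 else 0) 0 = false := rfl
        rw [e, cond_false] at h
        exact absurd h (by simp)
    · rw [h2, cond_true] at h
      rw [ble_true_iff] at h2
      exact ⟨Or.inr (Or.inl h2), h⟩
  · rw [h1] at h
    have e : Nat.beq (if true = true then 1 else 0) 1 = true := rfl
    rw [e, cond_true] at h
    exact ⟨Or.inl h1, h⟩

theorem condA_heavy (bu obu uvm r b : ℕ) (fuel : ℕ) : ∀ i : ℕ,
    condA bu obu uvm (heavy fuel i (r >>> (16 * i)) (b >>> (16 * i))) = true →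
    ∀ y : ℕ, i ≤ y → y < i + fuel → 1 < popc (rowOf r y) → AOK bu obu uvm y (rowOf r y) := by
  induction fuel with
  | zero => intro i _ y h1 h2; omega
  | succ fuel ih =>
    intro i h y h1 h2 h3
    rw [heavy_succ] at h
    by_cases hz : r >>> (16 * i) = 0
    · rw [row_zero_of hz h1, popc_zero] at h3
      omega
    · rw [beq_false_of_ne hz, cond_false, shift_row, shift_row, shift_succ, shift_succ] at h
      rcases hh : Nat.ble (popc (rowOf r i)) 1 with _ | _
      · rw [hh, cond_false] at h
        obtain ⟨h4, h5⟩ := condA_step h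
        rcases Nat.eq_or_lt_of_le h1 with rfl | h1
        · exact h4
        · exact ih (i + 1) h5 y h1 (by omega) h3
      · rw [hh, cond_true] at h
        rw [ble_true_iff] at hh
        have hne : i ≠ y := by rintro rfl; omega
        exact ih (i + 1) h y (by omega) (by omega) h3

/-- the complete check for rule S2 (except the blue book) -/
noncomputable def s2core (r b u v c ru rv bu bv fr : ℕ) : Bool :=
  cond (Nat.beq (Nat.land ru (cmask (Nat.lor rv bv) v)) 0)
  (cond (Nat.beq (Nat.land rv (cmask (Nat.lor ru bu) u)) 0)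
  (cond (Nat.ble (popc (Nat.land ru rv)) 3)
  (cond ((fun l => cond (condA bu (Nat.lor ru fr) (Nat.lor (Nat.shiftLeft 1 u) (Nat.shiftLeft 1 v)) l)
      (condA bv (Nat.lor rv fr) (Nat.lor (Nat.shiftLeft 1 u) (Nat.shiftLeft 1 v)) l) false)
        (heavy 16 0 r b))
  ((fun l => cond (outer 5 9 3 l) (endp c l l) false) (hstar r b fr u v 16)) false) false) false)
  false

noncomputable def s2b (r b u v c : ℕ) : Bool :=
  cond (Nat.beq c u) false (cond (Nat.beq c v) false
  (cond (Nat.beq (bitOf r u v) 1)
    (s2core r b u v c (rowOf r u) (rowOf r v) (rowOf b u) (rowOf b v)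
      (Nat.xor 65535 (Nat.lor (Nat.lor (rowOf r u) (rowOf b u))
        (Nat.lor (rowOf r v) (rowOf b v))))) false))

theorem lor_lt {a b : ℕ} (ha : a < 65536) (hb : b < 65536) : Nat.lor a b < 65536 := by
  have : Nat.lor a b = a ||| b := rfl
  rw [this]
  have h : (65536 : ℕ) = 2 ^ 16 := by norm_num
  rw [h] at ha hb ⊢
  exact Nat.or_lt_two_pow ha hb

theorem one_shift_lt {u : ℕ} (hu : u < 16) : Nat.shiftLeft 1 u < 65536 := by
  have : Nat.shiftLeft 1 u = 1 <<< u := rfl
  rw [this, Nat.one_shiftLeft]
  calc 2 ^ u < 2 ^ 16 := Nat.pow_lt_pow_right (by norm_num) hu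
    _ = 65536 := by norm_num

theorem lor_testBit (a b i : ℕ) : (Nat.lor a b).testBit i = (a.testBit i || b.testBit i) := by
  have : Nat.lor a b = a ||| b := rfl
  rw [this, Nat.testBit_or]

theorem land_testBit (a b i : ℕ) : (Nat.land a b).testBit i = (a.testBit i && b.testBit i) := by
  have : Nat.land a b = a &&& b := rfl
  rw [this, Nat.testBit_and]

theorem shl_testBit (u i : ℕ) : (Nat.shiftLeft 1 u).testBit i = decide (u = i) := by
  have : Nat.shiftLeft 1 u = 1 <<< u := rfl
  rw [this, Nat.one_shiftLeft, Nat.testBit_two_pow]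

theorem fr_testBit (X i : ℕ) (hX : X < 65536) :
    (Nat.xor 65535 X).testBit i = (decide (i < 16) && !(X.testBit i)) := by
  have e1 : Nat.xor 65535 X = (2 ^ 16 - 1) ^^^ X := rfl
  rw [e1, Nat.testBit_xor, Nat.testBit_two_pow_sub_one]
  by_cases h : i < 16
  · cases hh : X.testBit i <;> simp [h]
  · have h1 : X.testBit i = false := by
      apply Nat.testBit_lt_two_pow
      calc X < 2 ^ 16 := by norm_num; omega
        _ ≤ 2 ^ i := Nat.pow_le_pow_right (by norm_num) (by omega)
    simp [h, h1]

end Pool.Agent.H50.Book
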