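import Pool.Agent.H50.Book.StarChk

set_option autoImplicit false

namespace Pool.Agent.H50.Book

theorem Ed_nodiag {r : ℕ} (hr : Valid r) : ∀ e ∈ Ed r, ¬ e.IsDiag := by
  intro e
  induction e using Sym2.ind with
  | _ a b =>
    intro he hd
    rw [Sym2.mk_isDiag_iff] at hd
    subst hd
    have := (mem_Ed hr a a).1 he
    rw [hr.irrefl a this.1] at this
    exact absurd this.2.2 (by simp)

theorem mem_Ed_row {r : ℕ} (hr : Valid r) {x : ℕ} (hx : x < 16) (w : ℕ) :
    s(x, w) ∈ Ed r ↔ w < 16 ∧ (rowOf r x).testBit w = true := by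
  rw [mem_Ed hr, rowOf_testBit]
  simp only [Bool.and_eq_true, decide_eq_true_eq]
  tauto

theorem rowAt_base {r b : ℕ} (hr : Valid r) (hb : Valid b) {R' B' : Finset (Sym2 ℕ)} {u v x : ℕ}
    (h : Ext u v (Ed r) (Ed b) R' B') (hx : x < 16) (hxu : x ≠ u) (hxv : x ≠ v)
    (h1 : s(u, x) ∈ R' → s(u, x) ∈ Ed r) (h2 : s(v, x) ∈ R' → s(v, x) ∈ Ed r) :
    RowAt R' B' x (rowOf r x) (cmask (rowOf b x) x) := by
  refine ⟨rowOf_lt r x, ?_, ?_⟩
  · intro w
    rw [← mem_Ed_row hr hx w]
    constructor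
    · intro hw
      rcases h.redx hxu hxv hw with h3 | ⟨h3, h4, _⟩ | ⟨h3, h4, _⟩
      · exact h3
      · subst h3
        rw [sw x w] at hw
        exact absurd (h1 hw) h4.1.1
      · subst h3
        rw [sw x w] at hw
        exact absurd (h2 hw) h4.2.1
    · intro hw; exact h.hR hw
  · intro w hw
    rw [cmask_testBit (rowOf_lt b x) hx]
    have key : s(x, w) ∈ B' ↔ (rowOf b x).testBit w = true := by
      constructor
      · intro hw'
        rcases h.bluex hxu hxv hw' with h3 | ⟨h3, h4, h5⟩ | ⟨h3, h4, h5⟩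
        · exact ((mem_Ed_row hb hx w).1 h3).2
        · exact absurd (h1 h5) h4.1.1
        · exact absurd (h2 h5) h4.2.1
      · intro hw'
        exact h.hB ((mem_Ed_row hb hx w).2 ⟨hw, hw'⟩)
    rw [key]
    cases hh : (rowOf b x).testBit w <;> simp [hw]

theorem rowAt_star {r b : ℕ} (hr : Valid r) (hb : Valid b) {R' B' : Finset (Sym2 ℕ)} {u v x : ℕ}
    (h : Ext u v (Ed r) (Ed b) R' B') (hu : u < 16) (hv : v < 16) (hx : x < 16) (hxu : x ≠ u)
    (hxv : x ≠ v) (h1 : s(u, x) ∈ R') (h2 : s(v, x) ∈ B') :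
    RowAt R' B' x (Nat.lor (rowOf r x) (Nat.shiftLeft 1 u))
      (cmask (Nat.lor (rowOf b x) (Nat.shiftLeft 1 v)) x) := by
  refine ⟨lor_lt (rowOf_lt r x) (one_shift_lt hu), ?_, ?_⟩
  · intro w
    rw [lor_testBit, shl_testBit]
    constructor
    · intro hw
      rcases h.redx hxu hxv hw with h3 | ⟨h3, h4, _⟩ | ⟨h3, h4, h5⟩
      · obtain ⟨h6, h7⟩ := (mem_Ed_row hr hx w).1 h3
        exact ⟨h6, by rw [h7]; rfl⟩
      · subst h3
        exact ⟨hu, by simp⟩
      · exact absurd h5 (h.dis _ h1)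
    · rintro ⟨hw, hw2⟩
      rw [Bool.or_eq_true, decide_eq_true_eq] at hw2
      rcases hw2 with hw2 | rfl
      · exact h.hR ((mem_Ed_row hr hx w).2 ⟨hw, hw2⟩)
      · rw [sw x u]; exact h1
  · intro w hw
    rw [cmask_testBit (lor_lt (rowOf_lt b x) (one_shift_lt hv)) hx, lor_testBit, shl_testBit]
    have key : s(x, w) ∈ B' ↔ ((rowOf b x).testBit w || decide (v = w)) = true := by
      rw [Bool.or_eq_true, decide_eq_true_eq]
      constructor
      · intro hw'
        rcases h.bluex hxu hxv hw' with h3 | ⟨h3, h4, h5⟩ | ⟨h3, h4, h5⟩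
        · exact Or.inl ((mem_Ed_row hb hx w).1 h3).2
        · exact Or.inr h3.symm
        · exact absurd h2 (h.dis _ h5)
      · rintro (hw' | rfl)
        · exact h.hB ((mem_Ed_row hb hx w).2 ⟨hw, hw'⟩)
        · rw [sw x v]; exact h2
    rw [key]
    cases hh : ((rowOf b x).testBit w || decide (v = w)) <;> simp [hw]

theorem fr_spec {r b : ℕ} (hr : Valid r) (hb : Valid b) {u v w : ℕ} (hu : u < 16) (hv : v < 16)
    (hw : w < 16) :
    (Nat.xor 65535 (Nat.lor (Nat.lor (rowOf r u) (rowOf b u))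
        (Nat.lor (rowOf r v) (rowOf b v)))).testBit w = true ↔ Fr (Ed r) (Ed b) u v w := by
  rw [fr_testBit _ _ (lor_lt (lor_lt (rowOf_lt _ _) (rowOf_lt _ _))
    (lor_lt (rowOf_lt _ _) (rowOf_lt _ _))), lor_testBit, lor_testBit, lor_testBit]
  unfold Fr
  rw [mem_Ed_row hr hu, mem_Ed_row hb hu, mem_Ed_row hr hv, mem_Ed_row hb hv]
  cases (rowOf r u).testBit w <;> cases (rowOf b u).testBit w <;> cases (rowOf r v).testBit w <;>
    cases (rowOf b v).testBit w <;> simp [hw]

theorem exists_opt {r b : ℕ} (hr : Valid r) (hb : Valid b) {R' B' : Finset (Sym2 ℕ)} {u v x : ℕ}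
    (h : Ext u v (Ed r) (Ed b) R' B') (huv : u ≠ v) (hu : u < 16) (hv : v < 16) (hx : x < 16)
    (hxu : x ≠ u) (hxv : x ≠ v) :
    ∃ rx cx : ℕ, IsOpt r b (Nat.xor 65535 (Nat.lor (Nat.lor (rowOf r u) (rowOf b u))
        (Nat.lor (rowOf r v) (rowOf b v)))) u v x rx cx ∧ RowAt R' B' x rx cx := by
  by_cases h1 : s(u, x) ∈ R' → s(u, x) ∈ Ed r
  · by_cases h2 : s(v, x) ∈ R' → s(v, x) ∈ Ed r
    · exact ⟨_, _, ⟨hxu, hxv, Or.inl ⟨rfl, rfl⟩⟩, rowAt_base hr hb h hx hxu hxv h1 h2⟩
    · push Not at h2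
      rcases h.swap.redu huv.symm h2.1 with h3 | ⟨_, _, h3, h4⟩
      · exact absurd h3 h2.2
      · exact ⟨_, _, ⟨hxu, hxv, Or.inr ⟨(fr_spec hr hb hu hv hx).2 h3.swap, Or.inr ⟨rfl, rfl⟩⟩⟩,
          rowAt_star hr hb h.swap hv hu hx hxv hxu h2.1 h4⟩
  · push Not at h1
    rcases h.redu huv h1.1 with h3 | ⟨_, _, h3, h4⟩
    · exact absurd h3 h1.2
    · exact ⟨_, _, ⟨hxu, hxv, Or.inr ⟨(fr_spec hr hb hu hv hx).2 h3, Or.inl ⟨rfl, rfl⟩⟩⟩,
        rowAt_star hr hb h hu hv hx hxu hxv h1.1 h4⟩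

theorem light_big {r b : ℕ} (hr : Valid r) {R' B' : Finset (Sym2 ℕ)} {u v x : ℕ}
    (h : Ext u v (Ed r) (Ed b) R' B') (hxu : x ≠ u) (hxv : x ≠ v) (hx : 16 ≤ x) :
    (nb R' x).card ≤ 1 := by
  rw [Finset.card_le_one]
  have key : ∀ w : ℕ, w ∈ nb R' x → (w = u ∧ s(v, x) ∈ B') ∨ (w = v ∧ s(u, x) ∈ B') := by
    intro w hw
    rw [mem_nb] at hw
    rcases h.redx hxu hxv hw with h3 | ⟨h3, h4, h5⟩ | ⟨h3, h4, h5⟩
    · have := (mem_Ed hr x w).1 h3
      omega
    · exact Or.inl ⟨h3, h5⟩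
    · exact Or.inr ⟨h3, h5⟩
  intro a ha c hc
  rcases key a ha with ⟨h1, h2⟩ | ⟨h1, h2⟩
  · rcases key c hc with ⟨h3, h4⟩ | ⟨h3, h4⟩
    · rw [h1, h3]
    · exfalso
      rw [mem_nb] at hc
      subst h3
      rw [sw x c] at hc
      exact h.dis _ hc h2
  · rcases key c hc with ⟨h3, h4⟩ | ⟨h3, h4⟩
    · exfalso
      rw [mem_nb] at hc
      subst h3
      rw [sw x c] at hc
      exact h.dis _ hc h2
    · rw [h1, h3]

theorem half_spec {r b : ℕ} (hr : Valid r) (hb : Valid b) {u v : ℕ} (hu : u < 16) (hv : v < 16)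
    (h : Nat.land (rowOf r u) (cmask (Nat.lor (rowOf r v) (rowOf b v)) v) = 0) :
    ∀ w : ℕ, w ≠ u → w ≠ v → s(u, w) ∈ Ed r → s(v, w) ∈ Ed r ∨ s(v, w) ∈ Ed b := by
  intro w _ hwv hw
  rw [mem_Ed_row hr hu] at hw
  rw [mem_Ed_row hr hv, mem_Ed_row hb hv]
  have h2 : (Nat.land (rowOf r u) (cmask (Nat.lor (rowOf r v) (rowOf b v)) v)).testBit w
      = false := by rw [h]; simp
  rw [land_testBit, hw.2, Bool.true_and, cmask_testBit (lor_lt (rowOf_lt _ _) (rowOf_lt _ _)) hv,
    lor_testBit] at h2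
  cases h3 : (rowOf r v).testBit w
  · cases h4 : (rowOf b v).testBit w
    · rw [h3, h4] at h2
      simp [hw.1, hwv] at h2
    · exact Or.inr ⟨hw.1, rfl⟩
  · exact Or.inl ⟨hw.1, rfl⟩

theorem condA_spec {r b : ℕ} (hr : Valid r) (hb : Valid b) {u v : ℕ} (hu : u < 16) (hv : v < 16)
    {fr uvm : ℕ} (huvm : ∀ x : ℕ, uvm.testBit x = true → x = u ∨ x = v)
    (hfr : ∀ w : ℕ, w < 16 → (fr.testBit w = true ↔ Fr (Ed r) (Ed b) u v w))
    (h : condA (rowOf b u) (Nat.lor (rowOf r u) fr) uvm (heavy 16 0 r b) = true) :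
    CondA (Ed r) (Ed b) u v := by
  classical
  intro x hxu hxv hxB
  by_cases hx : x < 16
  · by_cases hp : 1 < popc (rowOf r x)
    · have hcard : ((nb (Ed r) x).filter (fun w => Ob (Ed r) (Ed b) u v w)).card =
          popc (Nat.land (rowOf r x) (Nat.lor (rowOf r u) fr)) := by
        rw [popc_eq _ (land_lt (rowOf_lt r x))]
        congr 1
        ext w
        rw [Finset.mem_filter, nb_Ed hr hx, rowSet_land, Finset.mem_inter, mem_rowSet, mem_rowSet,
          lor_testBit]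
        unfold Ob
        rw [mem_Ed_row hr hu]
        constructor
        · rintro ⟨⟨h1, h2⟩, h3⟩
          refine ⟨⟨h1, h2⟩, h1, ?_⟩
          rw [Bool.or_eq_true]
          rcases h3 with h3 | h3
          · exact Or.inl h3.2
          · exact Or.inr ((hfr w h1).2 h3)
        · rintro ⟨⟨h1, h2⟩, _, h3⟩
          refine ⟨⟨h1, h2⟩, ?_⟩
          rw [Bool.or_eq_true] at h3
          rcases h3 with h3 | h3
          · exact Or.inl ⟨h1, h3⟩
          · exact Or.inr ((hfr w h1).1 h3)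
      have hAOK := condA_heavy (rowOf b u) (Nat.lor (rowOf r u) fr) uvm r b 16 0 h x
        (Nat.zero_le _) (by omega) hp
      convert (?_ : ((nb (Ed r) x).filter (fun w => Ob (Ed r) (Ed b) u v w)).card ≤ 1 ∨
        (((nb (Ed r) x).filter (fun w => Ob (Ed r) (Ed b) u v w)).card ≤ 2 ∧
          ¬ Ob (Ed r) (Ed b) u v x)) using 1
      rw [hcard]
      rcases hAOK with h1 | h1 | ⟨h1, h2⟩
      · exfalso
        rw [lor_testBit, Bool.or_eq_true] at h1
        rcases h1 with h1 | h1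
        · exact hxB ((mem_Ed_row hb hu x).2 ⟨hx, h1⟩)
        · rcases huvm x h1 with h | h
          · exact hxu h
          · exact hxv h
      · exact Or.inl h1
      · right
        refine ⟨h2, ?_⟩
        intro hob
        rw [lor_testBit] at h1
        unfold Ob at hob
        rw [mem_Ed_row hr hu] at hob
        rcases hob with h3 | h3
        · rw [h3.2] at h1; simp at h1
        · rw [(hfr x hx).2 h3] at h1; simp at h1
    · left
      refine (Finset.card_filter_le _ _).trans ?_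
      rw [nb_Ed hr hx, ← popc_eq _ (rowOf_lt r x)]; omega
  · left
    refine (Finset.card_filter_le _ _).trans ?_
    rw [nb_Ed' hr (by omega)]; simp

theorem s2b_sound {r b u v a c : ℕ} (hr : Valid r) (hb : Valid b) (hd : ∀ e ∈ Ed r, e ∉ Ed b)
    (hu : u < 16) (hv : v < 16) (ha : a < 16) (hc : c < 16)
    (h : s2b r b u v c = true) (h3 : bkb 3 b a c = true) : Safe (Ed r) (Ed b) := by
  unfold s2b at h
  have hcu : c ≠ u := by
    rintro rfl
    rw [(beq_true_iff c c).2 rfl, cond_true] at h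
    exact absurd h (by simp)
  rw [beq_false_of_ne hcu, cond_false] at h
  have hcv : c ≠ v := by
    rintro rfl
    rw [(beq_true_iff c c).2 rfl, cond_true] at h
    exact absurd h (by simp)
  rw [beq_false_of_ne hcv, cond_false, cond_true_iff, beq_true_iff, bitOf_eq] at h
  obtain ⟨h1, h⟩ := h
  have huvR : r.testBit (16 * u + v) = true := by
    by_contra hcon
    rw [if_neg hcon] at h1
    omega
  have huv : u ≠ v := by
    rintro rfl
    rw [hr.irrefl u hu] at huvR
    exact absurd huvR (by simp)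
  unfold s2core at h
  rw [cond_true_iff, cond_true_iff, cond_true_iff, cond_true_iff, beq_true_iff, beq_true_iff,
    ble_true_iff] at h
  obtain ⟨hH, hH', hC, hA, hO⟩ := h
  rw [cond_true_iff] at hA hO
  have hnd := Ed_nodiag hr
  have hfr := fun w (hw : w < 16) => fr_spec hr hb (u := u) (v := v) hu hv hw
  have huvm : ∀ x : ℕ, (Nat.lor (Nat.shiftLeft 1 u) (Nat.shiftLeft 1 v)).testBit x = true →
      x = u ∨ x = v := by
    intro x hx
    rw [lor_testBit, shl_testBit, shl_testBit, Bool.or_eq_true, decide_eq_true_eq,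
      decide_eq_true_eq] at hx
    rcases hx with hx | hx
    · exact Or.inl hx.symm
    · exact Or.inr hx.symm
  refine ruleS2 (a := a) (b := c) huv hd hnd (half_spec hr hb hu hv hH) ?_ ?_ ?_ ?_ ?_ ?_ hcu hcv
    (bkb_spec hb ha hc h3)
  · intro w hwu hwv
    exact half_spec hr hb hv hu hH' w hwv hwu
  · rw [nb_Ed hr hu, nb_Ed hr hv, ← rowSet_land, ← popc_eq _ (land_lt (rowOf_lt r u))]
    exact hC
  · exact condA_spec hr hb hu hv huvm hfr hA.1
  · refine condA_spec hr hb hv hu (fun x hx => (huvm x hx).symm) ?_ hA.2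
    intro w hw
    rw [hfr w hw]
    exact ⟨fun h => h.swap, fun h => h.swap⟩
  · intro R' B' hX x y hxu hxv hyu hyv hxy
    have hnd' := hX.nodiag hnd
    have key : ∀ x y : ℕ, x ≠ u → x ≠ v → y ≠ u → y ≠ v → y < x → PairOK 4 3 R' B' x y := by
      intro x y hxu hxv hyu hyv hyx
      by_cases hx : x < 16
      · have hy : y < 16 := by omega
        obtain ⟨rx, cx, ho, hrow⟩ := exists_opt hr hb hX huv hu hv hx hxu hxv
        obtain ⟨ry, cy, ho', hrow'⟩ := exists_opt hr hb hX huv hu hv hy hyu hyv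
        by_cases hp : 1 < popc rx
        · by_cases hp' : 1 < popc ry
          · exact pairb_gen (k := 4) hx hy (by omega) hrow hrow'
              (outer_hstar 16 hO.1 x rx cx y ry cy hyx hx ho hp ho' hp')
          · apply PairOK.symm
            apply light_pair' hnd' (by omega)
            rw [hrow'.nb_eq, ← popc_eq _ hrow'.lt]; omega
        · apply light_pair' hnd' (by omega)
          rw [hrow.nb_eq, ← popc_eq _ hrow.lt]; omega
      · exact light_pair' hnd' (by omega) (light_big hr hX hxu hxv (by omega))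
    rcases lt_or_gt_of_ne hxy with hlt | hlt
    · exact (key y x hyu hyv hxu hxv hlt).symm
    · exact key x y hxu hxv hyu hyv hlt
  · intro R' B' hX y hyu hyv hcy
    have hnd' := hX.nodiag hnd
    by_cases hy : y < 16
    · obtain ⟨rx, cx, ho, hrow⟩ := exists_opt hr hb hX huv hu hv hc hcu hcv
      obtain ⟨ry, cy, ho', hrow'⟩ := exists_opt hr hb hX huv hu hv hy hyu hyv
      by_cases hp : 1 < popc rx
      · by_cases hp' : 1 < popc ry
        · exact pairb_gen (k := 3) hc hy hcy hrow hrow'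
            (inner_hstar 16 (endp_hstar 16 hO.2 hc rx cx ho hp) y ry cy hy ho' hp')
        · apply PairOK.symm
          apply light_pair' hnd' (by omega)
          rw [hrow'.nb_eq, ← popc_eq _ hrow'.lt]; omega
      · apply light_pair' hnd' (by omega)
        rw [hrow.nb_eq, ← popc_eq _ hrow.lt]; omega
    · apply PairOK.symm
      exact light_pair' hnd' (by omega) (light_big hr hX hyu hyv (by omega))

end Pool.Agent.H50.Book
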